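import Mathlib

/-!
# The noisy min-max game on the `d`-ary tree: definitions and the recursion for the law

Vertices are lists over `Fin d`; the root is `[]` and the children of `v` are `v ++ [i]`.
A configuration gives every vertex `v` a sign (the cookie on the edge from `v` to its parent) and
an integer (the boundary value, used when the recursion stops at `v`).
-/

namespace Q288.MinMax

open MeasureTheory ProbabilityTheory Measure
open scoped ENNReal

/-- The sign `±1` attached to a Boolean. -/
def sgn (b : Bool) : ℤ := if b then 1 else -1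

/-- The fair coin. -/
noncomputable def coin : Measure Bool := (PMF.uniformOfFintype Bool).toMeasure

instance : IsProbabilityMeasure coin := by unfold coin; infer_instance

/-- The value of the vertex `v` when `m` levels remain below it: the boundary value `B v` if
`m = 0`; otherwise the maximum (if `m` is even) or the minimum (if `m` is odd) over the children
`u` of `v` of the cookie on the edge `uv` plus the value of `u`. -/
def value {d : ℕ} [NeZero d] (X B : List (Fin d) → ℤ) : ℕ → List (Fin d) → ℤ
  | 0, v => B v
  | m + 1, v =>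
    if Even (m + 1) then
      Finset.univ.sup' Finset.univ_nonempty fun i : Fin d => X (v ++ [i]) + value X B m (v ++ [i])
    else
      Finset.univ.inf' Finset.univ_nonempty fun i : Fin d => X (v ++ [i]) + value X B m (v ++ [i])

section

variable {d : ℕ}

/-- Configurations: cookies and boundary values. -/
abbrev Conf (d : ℕ) := List (Fin d) → Bool × ℤ

/-- The configuration seen from the `i`-th child of the root. -/
def sub (ω : Conf d) (i : Fin d) : Conf d := fun l => ω (i :: l)

theorem measurable_sub : Measurable (sub (d := d)) := by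
  unfold sub
  fun_prop

/-- The law of the configuration. -/
noncomputable def claw (d : ℕ) (ν : Measure ℤ) : Measure (Conf d) :=
  infinitePi fun _ => coin.prod ν

instance (ν : Measure ℤ) [IsProbabilityMeasure ν] : IsProbabilityMeasure (claw d ν) := by
  unfold claw; infer_instance

theorem map_sub (ν : Measure ℤ) [IsProbabilityMeasure ν] :
    (claw d ν).map sub = Measure.pi fun _ : Fin d => claw d ν := by
  have hinj : Function.Injective (fun p : Fin d × List (Fin d) => p.1 :: p.2) := by
    intro p q h
    simp only [List.cons.injEq] at h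
    exact Prod.ext h.1 h.2
  have h1 := map_infinitePi_infinitePi_of_inj (P := fun _ : List (Fin d) => coin.prod ν) hinj
  have h2 := infinitePi_map_curry (fun (_ : Fin d) (_ : List (Fin d)) => coin.prod ν)
  rw [← infinitePi_eq_pi]
  unfold claw
  rw [← h2, ← h1, Measure.map_map (by fun_prop) (by fun_prop)]
  rfl

/-- The root value with `m` levels, written as a function of the configuration seen from the
root. -/
def gv [NeZero d] : ℕ → Conf d → ℤ
  | 0, ω => (ω []).2
  | m + 1, ω =>
    if Even (m + 1) then
      Finset.univ.sup' Finset.univ_nonempty fun i : Fin d =>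
        sgn (sub ω i []).1 + gv m (sub ω i)
    else
      Finset.univ.inf' Finset.univ_nonempty fun i : Fin d =>
        sgn (sub ω i []).1 + gv m (sub ω i)

theorem value_eq [NeZero d] (ω : Conf d) (m : ℕ) (v : List (Fin d)) :
    value (fun l => sgn (ω l).1) (fun l => (ω l).2) m v = gv m (fun l => ω (v ++ l)) := by
  induction m generalizing v with
  | zero => simp [value, gv]
  | succ m ih =>
    have e : (fun i : Fin d => sgn (ω (v ++ [i])).1 +
        value (fun l => sgn (ω l).1) (fun l => (ω l).2) m (v ++ [i])) =
        fun i : Fin d => sgn (sub (fun l => ω (v ++ l)) i []).1 +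
          gv m (sub (fun l => ω (v ++ l)) i) := by
      funext i
      rw [ih]
      have : (fun l => ω (v ++ [i] ++ l)) = sub (fun l => ω (v ++ l)) i := by
        funext l
        simp [sub]
      rw [this]
      simp [sub]
    unfold value gv
    simp only [e]

/-- The cookie of the root plus its value. -/
def ev [NeZero d] (m : ℕ) (ω : Conf d) : ℤ := sgn (ω []).1 + gv m ω

theorem measurable_sup' {ι Ω : Type*} [MeasurableSpace Ω] (s : Finset ι) (hs : s.Nonempty)
    (f : ι → Ω → ℤ) (hf : ∀ i, Measurable (f i)) :
    Measurable fun ω => s.sup' hs fun i => f i ω := by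
  have e : (fun ω => s.sup' hs fun i => f i ω) = s.sup' hs f := by
    funext ω
    rw [Finset.sup'_apply]
  rw [e]
  exact Finset.measurable_sup' hs (f := f) (fun i _ => hf i)

theorem measurable_inf' {ι Ω : Type*} [MeasurableSpace Ω] (s : Finset ι) (hs : s.Nonempty)
    (f : ι → Ω → ℤ) (hf : ∀ i, Measurable (f i)) :
    Measurable fun ω => s.inf' hs fun i => f i ω := by
  refine measurable_of_Ici fun t => ?_
  have e : (fun ω => s.inf' hs fun i => f i ω) ⁻¹' Set.Ici t =
      ⋂ i ∈ s, f i ⁻¹' Set.Ici t := by
    ext ω
    simp [Finset.le_inf'_iff]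
  rw [e]
  exact Finset.measurableSet_biInter _ fun i _ => hf i measurableSet_Ici

theorem measurable_sgn : Measurable sgn := measurable_from_top

theorem measurable_gv [NeZero d] (m : ℕ) : Measurable (gv (d := d) m) := by
  induction m with
  | zero =>
    show Measurable fun ω : Conf d => (ω []).2
    fun_prop
  | succ m ih =>
    have h : ∀ i : Fin d, Measurable fun ω : Conf d =>
        sgn (sub ω i []).1 + gv m (sub ω i) := by
      intro i
      have h1 : Measurable fun ω : Conf d => sub ω i := (measurable_pi_apply i).comp measurable_sub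
      have h2 : Measurable fun ω : Conf d => (sub ω i []).1 := by unfold sub; fun_prop
      exact (measurable_sgn.comp h2).add (ih.comp h1)
    by_cases hm : Even (m + 1)
    · have e : (gv (m + 1) : Conf d → ℤ) = fun ω => Finset.univ.sup' Finset.univ_nonempty
          fun i : Fin d => sgn (sub ω i []).1 + gv m (sub ω i) := by
        funext ω
        rw [gv, if_pos hm]
      rw [e]
      exact measurable_sup' _ _ _ h
    · have e : (gv (m + 1) : Conf d → ℤ) = fun ω => Finset.univ.inf' Finset.univ_nonempty
          fun i : Fin d => sgn (sub ω i []).1 + gv m (sub ω i) := by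
        funext ω
        rw [gv, if_neg hm]
      rw [e]
      exact measurable_inf' _ _ _ h

theorem measurable_ev [NeZero d] (m : ℕ) : Measurable (ev (d := d) m) := by
  unfold ev
  exact (measurable_sgn.comp (by fun_prop)).add (measurable_gv m)

end

section

variable {d : ℕ}

/-- The coordinate at the root and the configurations below the children are independent. -/
theorem indep_root (ν : Measure ℤ) [IsProbabilityMeasure ν] :
    IndepFun (fun ω : Conf d => ω []) sub (claw d ν) := by
  have hi : iIndepFun (fun (l : List (Fin d)) (ω : Conf d) => ω l) (claw d ν) :=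
    iIndepFun_infinitePi (X := fun _ ω => ω) (by fun_prop)
  have h1 := indep_iSup_of_disjoint (m := fun l : List (Fin d) =>
      MeasurableSpace.comap (fun ω : Conf d => ω l) inferInstance)
    (fun l => Measurable.comap_le (by fun_prop)) hi
    (S := {([] : List (Fin d))}) (T := {([] : List (Fin d))}ᶜ) disjoint_compl_right
  rw [IndepFun_iff_Indep]
  refine indep_of_indep_of_le_left (indep_of_indep_of_le_right h1 ?_) ?_
  · rw [← measurable_iff_comap_le]
    obtain ⟨M, hM⟩ : ∃ M : MeasurableSpace (Conf d), M =
        ⨆ l' ∈ ({([] : List (Fin d))}ᶜ : Set _),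
          MeasurableSpace.comap (fun ω : Conf d => ω l') inferInstance := ⟨_, rfl⟩
    rw [← hM]
    refine (@measurable_pi_iff (Conf d) (Fin d) (fun _ => Conf d) M
      (fun _ => MeasurableSpace.pi) sub).2 fun i => ?_
    refine (@measurable_pi_iff (Conf d) (List (Fin d)) (fun _ => Bool × ℤ) M
      (fun _ => inferInstance) _).2 fun l => ?_
    have h2 : MeasurableSpace.comap (fun ω : Conf d => ω (i :: l)) inferInstance ≤ M := by
      rw [hM]
      exact le_iSup₂_of_le (i :: l) (by simp) le_rfl
    exact measurable_iff_comap_le.2 h2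
  · exact le_iSup₂_of_le ([] : List (Fin d)) (by simp) le_rfl

theorem coin_real (b : Bool) : coin.real {b} = 1 / 2 := by
  unfold coin
  rw [measureReal_def, PMF.toMeasure_apply_singleton _ _ (by simp)]
  simp [PMF.uniformOfFintype_apply]

theorem indep_sgn_gv [NeZero d] (ν : Measure ℤ) [IsProbabilityMeasure ν] (m : ℕ) :
    IndepFun (fun ω : Conf d => (ω []).1) (gv m) (claw d ν) := by
  cases m with
  | zero =>
    show IndepFun (fun ω : Conf d => (ω []).1) (fun ω : Conf d => (ω []).2) (claw d ν)
    rw [indepFun_iff_map_prod_eq_prod_map_map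
      (by fun_prop : Measurable fun ω : Conf d => (ω []).1).aemeasurable
      (by fun_prop : Measurable fun ω : Conf d => (ω []).2).aemeasurable]
    have h0 : (claw d ν).map (fun ω : Conf d => ω []) = coin.prod ν := by
      unfold claw
      exact infinitePi_map_eval _ _
    have h1 : (claw d ν).map (fun ω : Conf d => (ω []).1) = coin := by
      have : (fun ω : Conf d => (ω []).1) = Prod.fst ∘ fun ω : Conf d => ω [] := rfl
      rw [this, ← Measure.map_map (by fun_prop) (by fun_prop), h0]
      simp
    have h2 : (claw d ν).map (fun ω : Conf d => (ω []).2) = ν := by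
      have : (fun ω : Conf d => (ω []).2) = Prod.snd ∘ fun ω : Conf d => ω [] := rfl
      rw [this, ← Measure.map_map (by fun_prop) (by fun_prop), h0]
      exact Measure.snd_prod
    rw [h1, h2]
    exact h0
  | succ m =>
    have h := indep_root (d := d) ν
    by_cases hm : Even (m + 1)
    · have e : (gv (m + 1) : Conf d → ℤ) = (fun s : Fin d → Conf d =>
          Finset.univ.sup' Finset.univ_nonempty
          fun i : Fin d => ev m (s i)) ∘ sub := by
        funext ω
        rw [gv, if_pos hm]
        rfl
      rw [e]
      exact h.comp (φ := Prod.fst) measurable_fst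
        (measurable_sup' _ _ (fun i (s : Fin d → Conf d) => ev m (s i))
          fun i => (measurable_ev m).comp (measurable_pi_apply i))
    · have e : (gv (m + 1) : Conf d → ℤ) = (fun s : Fin d → Conf d =>
          Finset.univ.inf' Finset.univ_nonempty
          fun i : Fin d => ev m (s i)) ∘ sub := by
        funext ω
        rw [gv, if_neg hm]
        rfl
      rw [e]
      exact h.comp (φ := Prod.fst) measurable_fst
        (measurable_inf' _ _ (fun i (s : Fin d → Conf d) => ev m (s i))
          fun i => (measurable_ev m).comp (measurable_pi_apply i))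

/-- The distribution function of the root value with `m` levels. -/
noncomputable def cdfv (d : ℕ) [NeZero d] (ν : Measure ℤ) (m : ℕ) (t : ℤ) : ℝ :=
  (claw d ν).real {ω | gv m ω ≤ t}

theorem cdfv_zero (d : ℕ) [NeZero d] (ν : Measure ℤ) [IsProbabilityMeasure ν] (t : ℤ) :
    cdfv d ν 0 t = ν.real (Set.Iic t) := by
  unfold cdfv
  have h0 : (claw d ν).map (fun ω : Conf d => ω []) = coin.prod ν := by
    unfold claw
    exact infinitePi_map_eval _ _
  have h2 : (claw d ν).map (fun ω : Conf d => (ω []).2) = ν := by
    have : (fun ω : Conf d => (ω []).2) = Prod.snd ∘ fun ω : Conf d => ω [] := rfl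
    rw [this, ← Measure.map_map (by fun_prop) (by fun_prop), h0]
    exact Measure.snd_prod
  conv_rhs => rw [← h2]
  rw [map_measureReal_apply (by fun_prop) measurableSet_Iic]
  rfl

theorem ev_law [NeZero d] (ν : Measure ℤ) [IsProbabilityMeasure ν] (m : ℕ) (t : ℤ) :
    (claw d ν).real {ω | ev m ω ≤ t} = (cdfv d ν m (t - 1) + cdfv d ν m (t + 1)) / 2 := by
  have hI := indep_sgn_gv (d := d) ν m
  have h1 : (claw d ν).map (fun ω : Conf d => (ω []).1) = coin := by
    have h0 : (claw d ν).map (fun ω : Conf d => ω []) = coin.prod ν := by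
      unfold claw
      exact infinitePi_map_eval _ _
    have : (fun ω : Conf d => (ω []).1) = Prod.fst ∘ fun ω : Conf d => ω [] := rfl
    rw [this, ← Measure.map_map (by fun_prop) (by fun_prop), h0]
    simp
  have hb : ∀ b : Bool, (claw d ν).real {ω : Conf d | (ω []).1 = b} = 1 / 2 := by
    intro b
    rw [← coin_real b, ← h1, map_measureReal_apply (by fun_prop) (by measurability)]
    rfl
  have hp : ∀ (b : Bool) (s : ℤ), (claw d ν).real ({ω : Conf d | (ω []).1 = b} ∩
      {ω | gv m ω ≤ s}) = 1 / 2 * cdfv d ν m s := by
    intro b s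
    have := hI.measure_inter_preimage_eq_mul {b} (Set.Iic s) (by measurability) measurableSet_Iic
    have e1 : (fun ω : Conf d => (ω []).1) ⁻¹' {b} = {ω : Conf d | (ω []).1 = b} := rfl
    have e2 : (gv m : Conf d → ℤ) ⁻¹' Set.Iic s = {ω | gv m ω ≤ s} := rfl
    rw [e1, e2] at this
    rw [measureReal_def, this, ENNReal.toReal_mul, ← measureReal_def, ← measureReal_def, hb]
    rfl
  have hsplit : {ω : Conf d | ev m ω ≤ t} =
      ({ω : Conf d | (ω []).1 = true} ∩ {ω | gv m ω ≤ t - 1}) ∪
      ({ω : Conf d | (ω []).1 = false} ∩ {ω | gv m ω ≤ t + 1}) := by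
    ext ω
    simp only [Set.mem_ofPred_eq, Set.mem_union, Set.mem_inter_iff, ev, sgn]
    cases (ω []).1 <;> simp <;> constructor <;> intro h <;> linarith
  have hmeas : MeasurableSet ({ω : Conf d | (ω []).1 = false} ∩ {ω | gv m ω ≤ t + 1}) := by
    refine MeasurableSet.inter ?_ ?_
    · exact (by fun_prop : Measurable fun ω : Conf d => (ω []).1) (by measurability :
        MeasurableSet {false})
    · exact measurable_gv m measurableSet_Iic
  rw [hsplit, measureReal_union ?_ hmeas, hp, hp]
  · ring
  · rw [Set.disjoint_left]
    rintro ω ⟨h1, _⟩ ⟨h2, _⟩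
    simp only [Set.mem_ofPred_eq] at h1 h2
    rw [h1] at h2
    exact absurd h2 (by simp)

theorem cdfv_even [NeZero d] (ν : Measure ℤ) [IsProbabilityMeasure ν] (m : ℕ) (t : ℤ)
    (hm : Even (m + 1)) :
    cdfv d ν (m + 1) t = ((cdfv d ν m (t - 1) + cdfv d ν m (t + 1)) / 2) ^ d := by
  have e : {ω : Conf d | gv (m + 1) ω ≤ t} =
      sub ⁻¹' (Set.univ.pi fun _ : Fin d => {ω | ev m ω ≤ t}) := by
    ext ω
    simp only [Set.mem_ofPred_eq, Set.mem_preimage, Set.mem_pi, Set.mem_univ, forall_true_left]
    rw [gv, if_pos hm, Finset.sup'_le_iff]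
    simp [ev]
  have hms : MeasurableSet {ω : Conf d | ev m ω ≤ t} := measurable_ev m measurableSet_Iic
  rw [cdfv, e, measureReal_def, ← Measure.map_apply measurable_sub
    (MeasurableSet.univ_pi fun _ => hms), map_sub, Measure.pi_pi, ENNReal.toReal_prod,
    Finset.prod_const, Finset.card_univ, Fintype.card_fin, ← measureReal_def, ev_law]

theorem cdfv_odd [NeZero d] (ν : Measure ℤ) [IsProbabilityMeasure ν] (m : ℕ) (t : ℤ)
    (hm : ¬ Even (m + 1)) :
    cdfv d ν (m + 1) t = 1 - (1 - (cdfv d ν m (t - 1) + cdfv d ν m (t + 1)) / 2) ^ d := by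
  have e : {ω : Conf d | gv (m + 1) ω ≤ t}ᶜ =
      sub ⁻¹' (Set.univ.pi fun _ : Fin d => {ω | ev m ω ≤ t}ᶜ) := by
    ext ω
    simp only [Set.mem_ofPred_eq, Set.mem_preimage, Set.mem_pi, Set.mem_univ, forall_true_left,
      Set.mem_compl_iff, not_le]
    rw [gv, if_neg hm, Finset.lt_inf'_iff]
    simp [ev]
  have hms : MeasurableSet {ω : Conf d | ev m ω ≤ t} := measurable_ev m measurableSet_Iic
  have hms' : MeasurableSet {ω : Conf d | gv (m + 1) ω ≤ t} :=
    measurable_gv (m + 1) measurableSet_Iic
  have h1 : (claw d ν).real {ω : Conf d | gv (m + 1) ω ≤ t}ᶜ =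
      (1 - (cdfv d ν m (t - 1) + cdfv d ν m (t + 1)) / 2) ^ d := by
    rw [e, measureReal_def, ← Measure.map_apply measurable_sub
      (MeasurableSet.univ_pi fun _ => hms.compl), map_sub, Measure.pi_pi, ENNReal.toReal_prod,
      Finset.prod_const, Finset.card_univ, Fintype.card_fin, ← measureReal_def,
      probReal_compl_eq_one_sub hms, ev_law]
  rw [probReal_compl_eq_one_sub hms'] at h1
  unfold cdfv at h1 ⊢
  linarith

end

end Q288.MinMax
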