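import Mathlib
import Pool.Agent.Q288.MinMax.Tree

/-!
# General families of cookies and boundary values; convergence in law on `ℤ`
-/

namespace Q288.MinMax

open MeasureTheory ProbabilityTheory Measure Filter Topology

section

variable {d : ℕ}

theorem measurable_value [NeZero d] (m : ℕ) (v : List (Fin d)) :
    Measurable fun z : List (Fin d) → ℤ × ℤ =>
      value (fun l => (z l).1) (fun l => (z l).2) m v := by
  induction m generalizing v with
  | zero =>
    show Measurable fun z : List (Fin d) → ℤ × ℤ => (z v).2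
    fun_prop
  | succ m ih =>
    have h : ∀ i : Fin d, Measurable fun z : List (Fin d) → ℤ × ℤ =>
        (z (v ++ [i])).1 + value (fun l => (z l).1) (fun l => (z l).2) m (v ++ [i]) := by
      intro i
      have h2 : Measurable fun z : List (Fin d) → ℤ × ℤ => (z (v ++ [i])).1 := by fun_prop
      exact h2.add (ih _)
    by_cases hm : Even (m + 1)
    · simp only [value, if_pos hm]
      exact measurable_sup' _ _ _ h
    · simp only [value, if_neg hm]
      exact measurable_inf' _ _ _ h

theorem map_conf (ν : Measure ℤ) [IsProbabilityMeasure ν] :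
    (claw d ν).map (fun ω l => (sgn (ω l).1, (ω l).2)) =
      infinitePi fun _ : List (Fin d) => (coin.map sgn).prod ν := by
  unfold claw
  have h1 := infinitePi_map_pi (μ := fun _ : List (Fin d) => coin.prod ν)
    (f := fun _ p => (sgn p.1, p.2))
    (fun _ => (measurable_sgn.comp measurable_fst).prodMk measurable_snd)
  rw [h1]
  have : IsProbabilityMeasure (coin.map sgn) :=
    isProbabilityMeasure_map measurable_sgn.aemeasurable
  congr 1
  funext _
  have h2 := Measure.map_prod_map (μa := coin) (μc := ν) measurable_sgn measurable_id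
  rw [Measure.map_id] at h2
  exact h2.symm

/-- The law of the root value for arbitrary realisations of the cookies `X` and the boundary values
`B`. -/
theorem value_law [NeZero d] {Ω : Type*} [MeasurableSpace Ω] (P : Measure Ω)
    [IsProbabilityMeasure P] (ν : Measure ℤ) [IsProbabilityMeasure ν]
    (X B : List (Fin d) → Ω → ℤ) (hX : ∀ v, Measurable (X v)) (hB : ∀ v, Measurable (B v))
    (hind : iIndepFun (fun v ω => (X v ω, B v ω)) P)
    (hl : ∀ v, P.map (fun ω => (X v ω, B v ω)) = (coin.map sgn).prod ν) (m : ℕ) (t : ℤ) :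
    P.real {ω | value (fun v => X v ω) (fun v => B v ω) m [] ≤ t} = cdfv d ν m t := by
  have hms : MeasurableSet {z : List (Fin d) → ℤ × ℤ |
      value (fun l => (z l).1) (fun l => (z l).2) m [] ≤ t} :=
    measurable_value m [] measurableSet_Iic
  have hmeas : Measurable fun (ω : Ω) (v : List (Fin d)) => (X v ω, B v ω) :=
    measurable_pi_iff.2 fun v => (hX v).prodMk (hB v)
  have h1 : P.map (fun ω v => (X v ω, B v ω)) =
      infinitePi fun _ : List (Fin d) => (coin.map sgn).prod ν := by
    rw [(iIndepFun_iff_map_fun_eq_infinitePi_map fun v => (hX v).prodMk (hB v)).1 hind]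
    simp_rw [hl]
  have hmeas2 : Measurable fun (ω : Conf d) (l : List (Fin d)) => (sgn (ω l).1, (ω l).2) := by
    refine measurable_pi_iff.2 fun l => ?_
    exact (measurable_sgn.comp (by fun_prop)).prodMk (by fun_prop)
  have h2 : P.real {ω | value (fun v => X v ω) (fun v => B v ω) m [] ≤ t} =
      (P.map (fun ω v => (X v ω, B v ω))).real {z : List (Fin d) → ℤ × ℤ |
        value (fun l => (z l).1) (fun l => (z l).2) m [] ≤ t} := by
    rw [map_measureReal_apply hmeas hms]
    rfl
  rw [h2, h1, ← map_conf, map_measureReal_apply hmeas2 hms]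
  unfold cdfv
  congr 1
  ext ω
  simp only [Set.mem_preimage, Set.mem_ofPred_eq]
  rw [value_eq]
  rfl

/-- The law of a uniform sign. -/
theorem sign_law {Ω : Type*} [MeasurableSpace Ω] (P : Measure Ω) [IsProbabilityMeasure P]
    (X : Ω → ℤ) (hX : Measurable X) (h1 : P {ω | X ω = 1} = 1 / 2)
    (h2 : P {ω | X ω = -1} = 1 / 2) : P.map X = coin.map sgn := by
  have hc : ∀ b : Bool, coin {b} = 1 / 2 := by
    intro b
    unfold coin
    rw [PMF.toMeasure_apply_singleton _ _ (by simp)]
    simp [PMF.uniformOfFintype_apply]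
  refine Measure.ext_of_singleton fun s => ?_
  rw [Measure.map_apply hX (measurableSet_singleton s),
    Measure.map_apply measurable_sgn (measurableSet_singleton s)]
  by_cases e1 : s = 1
  · subst e1
    have e2 : sgn ⁻¹' {1} = {true} := by
      ext b; cases b <;> simp [sgn]
    rw [e2, hc]
    exact h1
  · by_cases e3 : s = -1
    · subst e3
      have e2 : sgn ⁻¹' {-1} = {false} := by
        ext b; cases b <;> simp [sgn]
      rw [e2, hc]
      exact h2
    · have e2 : sgn ⁻¹' {s} = ∅ := by
        ext b
        cases b <;> simp [sgn] <;> omega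
      rw [e2, measure_empty]
      have hA : MeasurableSet {ω | X ω = 1} := hX (measurableSet_singleton 1)
      have hB : MeasurableSet {ω | X ω = -1} := hX (measurableSet_singleton (-1))
      have hd : Disjoint {ω | X ω = 1} {ω | X ω = -1} := by
        rw [Set.disjoint_left]
        intro ω h h'
        simp only [Set.mem_ofPred_eq] at h h'
        omega
      have hu : P ({ω | X ω = 1} ∪ {ω | X ω = -1}) = 1 := by
        rw [measure_union hd hB, h1, h2, ENNReal.add_halves]
      have h0 : P ({ω | X ω = 1} ∪ {ω | X ω = -1})ᶜ = 0 := by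
        rw [prob_compl_eq_zero_iff (hA.union hB)]
        exact hu
      refine measure_mono_null (fun ω hω => ?_) h0
      simp only [Set.mem_preimage, Set.mem_singleton_iff] at hω
      simp only [Set.mem_compl_iff, Set.mem_union, Set.mem_ofPred_eq, hω, not_or]
      exact ⟨e1, e3⟩

/-- The case of a zero boundary condition. -/
theorem value_law_zero [NeZero d] {Ω : Type*} [MeasurableSpace Ω] (P : Measure Ω)
    [IsProbabilityMeasure P] (X : List (Fin d) → Ω → ℤ) (hX : ∀ v, Measurable (X v))
    (hind : iIndepFun X P) (h1 : ∀ v, P {ω | X v ω = 1} = 1 / 2)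
    (h2 : ∀ v, P {ω | X v ω = -1} = 1 / 2) (m : ℕ) (t : ℤ) :
    P.real {ω | value (fun v => X v ω) (fun _ => 0) m [] ≤ t} = cdfv d (dirac 0) m t := by
  refine value_law P (dirac 0) X (fun _ _ => 0) hX (fun _ => measurable_const) ?_ ?_ m t
  · exact hind.comp (fun _ x => (x, (0 : ℤ))) fun _ => by fun_prop
  · intro v
    have := sign_law P (X v) (hX v) (h1 v) (h2 v)
    rw [← this, prod_dirac, Measure.map_map (by fun_prop) (hX v)]
    rfl

theorem measurable_value_zero [NeZero d] {Ω : Type*} [MeasurableSpace Ω]
    (X : List (Fin d) → Ω → ℤ) (hX : ∀ v, Measurable (X v)) (m : ℕ) :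
    Measurable fun ω => value (fun v => X v ω) (fun _ => 0) m [] :=
  (measurable_value (d := d) m []).comp
    (measurable_pi_iff.2 fun v => (hX v).prodMk measurable_const :
      Measurable fun (ω : Ω) (v : List (Fin d)) => (X v ω, (0 : ℤ)))

end

/-- Convergence of the distribution functions at all integers gives weak convergence on `ℤ`. -/
theorem tendsto_of_cdf {P : ℕ → ProbabilityMeasure ℤ} {μ : ProbabilityMeasure ℤ}
    (h : ∀ j : ℤ, Tendsto (fun n => (P n : Measure ℤ).real (Set.Iic j)) atTop
      (𝓝 ((μ : Measure ℤ).real (Set.Iic j)))) : Tendsto P atTop (𝓝 μ) := by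
  have hs : ∀ (Q : ProbabilityMeasure ℤ) (j : ℤ), (Q : Measure ℤ).real {j} =
      (Q : Measure ℤ).real (Set.Iic j) - (Q : Measure ℤ).real (Set.Iic (j - 1)) := by
    intro Q j
    have e : Set.Iic j = Set.Iic (j - 1) ∪ {j} := by
      ext x
      simp only [Set.mem_Iic, Set.mem_union, Set.mem_singleton_iff]
      omega
    rw [e, measureReal_union (by
      rw [Set.disjoint_singleton_right, Set.mem_Iic]; omega) (measurableSet_singleton j)]
    ring
  have hsing : ∀ j : ℤ, Tendsto (fun n => (P n : Measure ℤ).real {j}) atTop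
      (𝓝 ((μ : Measure ℤ).real {j})) := by
    intro j
    simp only [hs]
    exact (h j).sub (h (j - 1))
  have hfin : ∀ s : Finset ℤ, Tendsto (fun n => (P n : Measure ℤ) (s : Set ℤ)) atTop
      (𝓝 ((μ : Measure ℤ) (s : Set ℤ))) := by
    intro s
    have h1 : ∀ Q : ProbabilityMeasure ℤ, (Q : Measure ℤ) (s : Set ℤ) =
        ENNReal.ofReal (∑ j ∈ s, (Q : Measure ℤ).real {j}) := by
      intro Q
      rw [sum_measureReal_singleton, ofReal_measureReal]
    simp only [h1]
    exact ENNReal.tendsto_ofReal (tendsto_finsetSum s fun j _ => hsing j)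
  refine tendsto_of_forall_isOpen_le_liminf_nat' fun G _ => ?_
  refine (le_liminf_iff).2 fun c hc => ?_
  have h2 : Tendsto (fun N : ℕ => (μ : Measure ℤ) (G ∩ Set.Icc (-(N : ℤ)) N)) atTop
      (𝓝 ((μ : Measure ℤ) G)) := by
    have hmono : Monotone fun N : ℕ => G ∩ Set.Icc (-(N : ℤ)) N := by
      intro N M hNM x hx
      refine ⟨hx.1, ?_, ?_⟩
      · have := hx.2.1
        have : (N : ℤ) ≤ M := by exact_mod_cast hNM
        omega
      · have := hx.2.2
        have : (N : ℤ) ≤ M := by exact_mod_cast hNM
        omega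
    have hU : G = ⋃ N : ℕ, G ∩ Set.Icc (-(N : ℤ)) N := by
      ext x
      simp only [Set.mem_iUnion, Set.mem_inter_iff, Set.mem_Icc]
      constructor
      · intro hx
        exact ⟨x.natAbs, hx, by omega, by omega⟩
      · rintro ⟨_, hx, _⟩
        exact hx
    conv_rhs => rw [hU]
    exact tendsto_measure_iUnion_atTop hmono
  obtain ⟨N, hN⟩ := (h2.eventually (lt_mem_nhds hc)).exists
  have hfinite : (G ∩ Set.Icc (-(N : ℤ)) N).Finite := (Set.finite_Icc _ _).inter_of_right G
  obtain ⟨s, hs'⟩ := hfinite.exists_finset_coe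
  rw [← hs'] at hN
  have h3 := (hfin s).eventually (lt_mem_nhds hN)
  filter_upwards [h3] with n hn
  refine hn.trans_le (measure_mono ?_)
  rw [hs']
  exact Set.inter_subset_left

/-- A probability measure on `ℤ` with a prescribed distribution function. -/
theorem exists_law (F : ℤ → ℝ) (hF : Monotone F) (h0 : Tendsto F atBot (𝓝 0))
    (h1 : Tendsto F atTop (𝓝 1)) :
    ∃ μ : ProbabilityMeasure ℤ, ∀ j : ℤ, (μ : Measure ℤ).real (Set.Iic j) = F j := by
  let f : StieltjesFunction ℝ :=
    { toFun := fun x => F ⌊x⌋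
      mono' := fun x y hxy => hF (Int.floor_mono hxy)
      right_continuous' := fun x => by
        have h2 := (tendsto_floor_right_pure_floor x)
        have h3 : Tendsto F (pure ⌊x⌋) (𝓝 (F ⌊x⌋)) := tendsto_pure_nhds F _
        exact h3.comp h2 }
  have hb : Tendsto f atBot (𝓝 0) := h0.comp tendsto_floor_atBot
  have ht : Tendsto f atTop (𝓝 1) := h1.comp tendsto_floor_atTop
  have hp : IsProbabilityMeasure f.measure := f.isProbabilityMeasure hb ht
  have hm : Measurable (Int.ceil : ℝ → ℤ) := Int.measurable_ceil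
  refine ⟨⟨f.measure.map Int.ceil, isProbabilityMeasure_map hm.aemeasurable⟩, fun j => ?_⟩
  have e : (Int.ceil : ℝ → ℤ) ⁻¹' Set.Iic j = Set.Iic (j : ℝ) := by
    ext x
    simp [Int.ceil_le]
  rw [ProbabilityMeasure.coe_mk, map_measureReal_apply hm measurableSet_Iic, e, measureReal_def,
    f.measure_Iic hb, sub_zero, ENNReal.toReal_ofReal]
  · show F ⌊(j : ℝ)⌋ = F j
    rw [Int.floor_intCast]
  · exact hF.le_of_tendsto h0 _

end Q288.MinMax
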