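import Mathlib
import Pool.Agent.Q288.MinMax.Law

/-!
# Disagreement of the values with `m` and `m + 2` levels

`dis d m t` is the probability that exactly one of the root values `gv m`, `gv (m + 2)` (computed
from the same configuration) is at most `t`. A telescoping argument bounds `dis d (m + 1)` by a
linear expression in `dis d m`.
-/

namespace Q288.MinMax

open MeasureTheory ProbabilityTheory Measure
open scoped ENNReal

variable {d : ℕ}

/-- The probability that the threshold `t` separates `gv m` and `gv (m + 2)`. -/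
noncomputable def dis (d : ℕ) [NeZero d] (ν : Measure ℤ) (m : ℕ) (t : ℤ) : ℝ :=
  (claw d ν).real {ω | ¬ (gv m ω ≤ t ↔ gv (m + 2) ω ≤ t)}

theorem dis_nonneg [NeZero d] (ν : Measure ℤ) (m : ℕ) (t : ℤ) : 0 ≤ dis d ν m t :=
  measureReal_nonneg

theorem dis_le_one [NeZero d] (ν : Measure ℤ) [IsProbabilityMeasure ν] (m : ℕ) (t : ℤ) :
    dis d ν m t ≤ 1 := measureReal_le_one

/-- Joint independence of the cookie at the root and the pair of values. -/
theorem indep_sgn_pair [NeZero d] (ν : Measure ℤ) [IsProbabilityMeasure ν] (m : ℕ) :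
    IndepFun (fun ω : Conf d => (ω []).1) (fun ω : Conf d => (gv m ω, gv (m + 2) ω))
      (claw d ν) := by
  have hR := indep_root (d := d) ν
  -- the second value is a function of the configurations below the root
  have h2 : ∀ k : ℕ, ∃ φ : (Fin d → Conf d) → ℤ, Measurable φ ∧
      (gv (k + 1) : Conf d → ℤ) = φ ∘ sub := by
    intro k
    by_cases hm : Even (k + 1)
    · refine ⟨fun s => Finset.univ.sup' Finset.univ_nonempty fun i : Fin d => ev k (s i),
        measurable_sup' _ _ (fun i (s : Fin d → Conf d) => ev k (s i))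
          fun i => (measurable_ev k).comp (measurable_pi_apply i), ?_⟩
      funext ω
      rw [gv, if_pos hm]
      rfl
    · refine ⟨fun s => Finset.univ.inf' Finset.univ_nonempty fun i : Fin d => ev k (s i),
        measurable_inf' _ _ (fun i (s : Fin d → Conf d) => ev k (s i))
          fun i => (measurable_ev k).comp (measurable_pi_apply i), ?_⟩
      funext ω
      rw [gv, if_neg hm]
      rfl
  cases m with
  | succ m =>
    obtain ⟨φ, hφ, e1⟩ := h2 m
    obtain ⟨ψ, hψ, e2⟩ := h2 (m + 2)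
    have e : (fun ω : Conf d => (gv (m + 1) ω, gv (m + 1 + 2) ω)) =
        (fun s : Fin d → Conf d => (φ s, ψ s)) ∘ sub := by
      funext ω
      simp only [Function.comp_apply, Prod.mk.injEq]
      exact ⟨congrFun e1 ω, congrFun e2 ω⟩
    rw [e]
    exact hR.comp (φ := Prod.fst) measurable_fst (hφ.prodMk hψ)
  | zero =>
    obtain ⟨ψ, hψ, e2⟩ := h2 1
    -- law of (cookie, boundary value, configurations below)
    have hmeas : Measurable fun ω : Conf d => ω ([] : List (Fin d)) := by fun_prop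
    have hlaw : (claw d ν).map (fun ω : Conf d => (ω [], sub ω)) =
        (coin.prod ν).prod ((claw d ν).map sub) := by
      have := (indepFun_iff_map_prod_eq_prod_map_map hmeas.aemeasurable
        measurable_sub.aemeasurable).1 hR
      rw [this]
      congr 1
      unfold claw
      exact infinitePi_map_eval _ _
    have hp : IsProbabilityMeasure ((claw d ν).map sub) :=
      isProbabilityMeasure_map measurable_sub.aemeasurable
    -- the three are independent: compute the probability of rectangles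
    rw [indepFun_iff_measure_inter_preimage_eq_mul]
    intro s t hs ht
    have hg0 : ∀ ω : Conf d, gv 0 ω = (ω []).2 := fun ω => rfl
    have hset : MeasurableSet {p : (Bool × ℤ) × (Fin d → Conf d) | (p.1.2, ψ p.2) ∈ t} := by
      apply ht.preimage
      exact (measurable_snd.comp measurable_fst).prodMk (hψ.comp measurable_snd)
    have hs1 : MeasurableSet {p : (Bool × ℤ) × (Fin d → Conf d) | p.1.1 ∈ s} :=
      hs.preimage (measurable_fst.comp measurable_fst)
    have k1 : (fun ω : Conf d => (ω []).1) ⁻¹' s =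
        (fun ω : Conf d => (ω [], sub ω)) ⁻¹' {p | p.1.1 ∈ s} := rfl
    have k2 : (fun ω : Conf d => (gv 0 ω, gv (0 + 2) ω)) ⁻¹' t =
        (fun ω : Conf d => (ω [], sub ω)) ⁻¹' {p | (p.1.2, ψ p.2) ∈ t} := by
      ext ω
      simp only [Set.mem_preimage, Set.mem_ofPred_eq, hg0]
      have : gv (0 + 2) ω = ψ (sub ω) := congrFun e2 ω
      rw [this]
    rw [k1, k2, ← Set.preimage_inter]
    have hm2 : Measurable fun ω : Conf d => (ω ([] : List (Fin d)), sub ω) :=
      hmeas.prodMk measurable_sub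
    rw [← Measure.map_apply hm2 (hs1.inter hset), ← Measure.map_apply hm2 hs1,
      ← Measure.map_apply hm2 hset, hlaw]
    -- use associativity of the product
    have hassoc : (coin.prod ν).prod ((claw d ν).map sub) =
        (coin.prod (ν.prod ((claw d ν).map sub))).map MeasurableEquiv.prodAssoc.symm := by
      rw [← Measure.prodAssoc_prod, Measure.map_map (by fun_prop) (by fun_prop)]
      simp
    rw [hassoc, Measure.map_apply (by fun_prop) (hs1.inter hset),
      Measure.map_apply (by fun_prop) hs1, Measure.map_apply (by fun_prop) hset]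
    have hsym : ∀ (a : Bool) (b : ℤ) (c : Fin d → Conf d),
        (MeasurableEquiv.prodAssoc (α := Bool) (β := ℤ) (γ := Fin d → Conf d)).symm (a, b, c) =
          ((a, b), c) := fun _ _ _ => rfl
    have r1 : (MeasurableEquiv.prodAssoc (α := Bool) (β := ℤ) (γ := Fin d → Conf d)).symm ⁻¹'
        {p | p.1.1 ∈ s} = s ×ˢ Set.univ := by
      ext ⟨a, b, c⟩
      simp [hsym]
    have r2 : (MeasurableEquiv.prodAssoc (α := Bool) (β := ℤ) (γ := Fin d → Conf d)).symm ⁻¹'
        {p | (p.1.2, ψ p.2) ∈ t} = Set.univ ×ˢ {q | (q.1, ψ q.2) ∈ t} := by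
      ext ⟨a, b, c⟩
      simp [hsym]
    rw [Set.preimage_inter, r1, r2, Set.prod_inter_prod, Set.univ_inter, Set.inter_univ,
      Measure.prod_prod, Measure.prod_prod, Measure.prod_prod, measure_univ, measure_univ,
      mul_one, one_mul]

theorem dis_step [NeZero d] (ν : Measure ℤ) [IsProbabilityMeasure ν] (m : ℕ) (t : ℤ) :
    (claw d ν).real {ω | ¬ (ev m ω ≤ t ↔ ev (m + 2) ω ≤ t)} =
      (dis d ν m (t - 1) + dis d ν m (t + 1)) / 2 := by
  have hI := indep_sgn_pair (d := d) ν m
  have h1 : (claw d ν).map (fun ω : Conf d => (ω []).1) = coin := by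
    have h0 : (claw d ν).map (fun ω : Conf d => ω []) = coin.prod ν := by
      unfold claw
      exact infinitePi_map_eval _ _
    have : (fun ω : Conf d => (ω []).1) = Prod.fst ∘ fun ω : Conf d => ω [] := rfl
    rw [this, ← Measure.map_map (by fun_prop) (by fun_prop), h0]
    simp
  have hb : ∀ b : Bool, (claw d ν).real {ω : Conf d | (ω []).1 = b} = 1 / 2 := by
    intro b
    rw [← coin_real b, ← h1, map_measureReal_apply (by fun_prop) (by measurability)]
    rfl
  have hSm : ∀ s : ℤ, MeasurableSet {q : ℤ × ℤ | ¬ (q.1 ≤ s ↔ q.2 ≤ s)} := fun s =>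
    Set.Countable.measurableSet (Set.to_countable _)
  have hp : ∀ (b : Bool) (s : ℤ), (claw d ν).real ({ω : Conf d | (ω []).1 = b} ∩
      {ω | ¬ (gv m ω ≤ s ↔ gv (m + 2) ω ≤ s)}) = 1 / 2 * dis d ν m s := by
    intro b s
    have := hI.measure_inter_preimage_eq_mul {b} {q : ℤ × ℤ | ¬ (q.1 ≤ s ↔ q.2 ≤ s)}
      (by measurability) (hSm s)
    have e1 : (fun ω : Conf d => (ω []).1) ⁻¹' {b} = {ω : Conf d | (ω []).1 = b} := rfl
    have e2 : (fun ω : Conf d => (gv m ω, gv (m + 2) ω)) ⁻¹' {q : ℤ × ℤ | ¬ (q.1 ≤ s ↔ q.2 ≤ s)} =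
      {ω | ¬ (gv m ω ≤ s ↔ gv (m + 2) ω ≤ s)} := rfl
    rw [e1, e2] at this
    rw [measureReal_def, this, ENNReal.toReal_mul, ← measureReal_def, ← measureReal_def, hb]
    rfl
  have hsplit : {ω : Conf d | ¬ (ev m ω ≤ t ↔ ev (m + 2) ω ≤ t)} =
      ({ω : Conf d | (ω []).1 = true} ∩ {ω | ¬ (gv m ω ≤ t - 1 ↔ gv (m + 2) ω ≤ t - 1)}) ∪
      ({ω : Conf d | (ω []).1 = false} ∩ {ω | ¬ (gv m ω ≤ t + 1 ↔ gv (m + 2) ω ≤ t + 1)}) := by
    ext ω
    have i1 : ∀ k : ℕ, (1 + gv k ω ≤ t ↔ gv k ω ≤ t - 1) := fun k => by omega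
    have i2 : ∀ k : ℕ, (-1 + gv k ω ≤ t ↔ gv k ω ≤ t + 1) := fun k => by omega
    simp only [Set.mem_ofPred_eq, Set.mem_union, Set.mem_inter_iff, ev, sgn]
    cases (ω []).1
    · simp only [Bool.false_eq_true, if_false, i2, false_and, false_or, true_and]
    · simp only [if_true, i1, true_and, Bool.true_eq_false, false_and, or_false]
  have hmeas : MeasurableSet ({ω : Conf d | (ω []).1 = false} ∩
      {ω | ¬ (gv m ω ≤ t + 1 ↔ gv (m + 2) ω ≤ t + 1)}) := by
    refine MeasurableSet.inter ?_ ?_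
    · exact (by fun_prop : Measurable fun ω : Conf d => (ω []).1) (by measurability :
        MeasurableSet {false})
    · exact ((measurable_gv m).prodMk (measurable_gv (m + 2))) (hSm (t + 1))
  rw [hsplit, measureReal_union ?_ hmeas, hp, hp]
  · ring
  · rw [Set.disjoint_left]
    rintro ω ⟨h1, _⟩ ⟨h2, _⟩
    simp only [Set.mem_ofPred_eq] at h1 h2
    rw [h1] at h2
    exact absurd h2 (by simp)

/-- The telescoping bound for products of `d` independent pairs of events. -/
theorem telescope {E : Type*} [MeasurableSpace E] (μ : Measure E) [IsProbabilityMeasure μ]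
    (S T : Set E) {M : ℝ} (hSM : μ.real S ≤ M)
    (hTM : μ.real T ≤ M) :
    (Measure.pi fun _ : Fin d => μ).real {x | ¬ ((∀ i, x i ∈ S) ↔ ∀ i, x i ∈ T)} ≤
      d * M ^ (d - 1) * μ.real {e | ¬ (e ∈ S ↔ e ∈ T)} := by
  obtain ⟨N, hN⟩ : ∃ N : Set E, N = {e | ¬ (e ∈ S ↔ e ∈ T)} := ⟨_, rfl⟩
  have M0 : 0 ≤ M := measureReal_nonneg.trans hSM
  let box : Fin d → Fin d → Set E := fun i j => if j = i then N else if j < i then T else S
  have hsub : {x : Fin d → E | ¬ ((∀ i, x i ∈ S) ↔ ∀ i, x i ∈ T)} ⊆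
      ⋃ i : Fin d, Set.univ.pi (box i) := by
    intro x hx
    simp only [Set.mem_ofPred_eq] at hx
    simp only [Set.mem_iUnion, Set.mem_pi, Set.mem_univ, forall_true_left]
    by_cases hall : ∀ i, x i ∈ S
    · have hT' : ∃ i, x i ∉ T := by
        by_contra hcon
        push Not at hcon
        exact hx ⟨fun _ => hcon, fun _ => hall⟩
      -- the first index not in `T`
      obtain ⟨i, hi, hmin⟩ : ∃ i, x i ∉ T ∧ ∀ j < i, x j ∈ T := by
        obtain ⟨i, hi, hmin⟩ := WellFounded.has_min (wellFounded_lt (α := Fin d))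
          {i | x i ∉ T} hT'
        exact ⟨i, hi, fun j hj => by
          by_contra h
          exact hmin j h hj⟩
      refine ⟨i, fun j => ?_⟩
      show x j ∈ (if j = i then N else if j < i then T else S)
      split_ifs with h1 h2
      · rw [h1, hN]
        simp only [Set.mem_ofPred_eq]
        exact fun h => hi (h.1 (hall i))
      · exact hmin j h2
      · exact hall j
    · have hT' : ∀ i, x i ∈ T := by
        by_contra hcon
        exact hx ⟨fun h => absurd h hall, fun h => absurd h hcon⟩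
      push Not at hall
      -- the last index not in `S`
      obtain ⟨i, hi, hmax⟩ : ∃ i, x i ∉ S ∧ ∀ j, i < j → x j ∈ S := by
        obtain ⟨i, hi, hmax⟩ := WellFounded.has_min (wellFounded_gt (α := Fin d))
          {i | x i ∉ S} hall
        exact ⟨i, hi, fun j hj => by
          by_contra h
          exact hmax j h hj⟩
      refine ⟨i, fun j => ?_⟩
      show x j ∈ (if j = i then N else if j < i then T else S)
      split_ifs with h1 h2
      · rw [h1, hN]
        simp only [Set.mem_ofPred_eq]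
        exact fun h => hi (h.2 (hT' i))
      · exact hT' j
      · exact hmax j (lt_of_le_of_ne (not_lt.1 h2) (Ne.symm h1))
  have hbox : ∀ i, (Measure.pi fun _ : Fin d => μ).real (Set.univ.pi (box i)) ≤
      M ^ (d - 1) * μ.real N := by
    intro i
    rw [measureReal_def, Measure.pi_pi, ENNReal.toReal_prod, ← Finset.mul_prod_erase _ _
      (Finset.mem_univ i), mul_comm]
    have e1 : (μ (box i i)).toReal = μ.real N := by
      show (μ (if i = i then N else _)).toReal = _
      rw [if_pos rfl]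
      rfl
    rw [e1]
    refine mul_le_mul_of_nonneg_right ?_ measureReal_nonneg
    calc ∏ j ∈ Finset.univ.erase i, (μ (box i j)).toReal
        ≤ ∏ _j ∈ Finset.univ.erase i, M := by
          refine Finset.prod_le_prod (fun _ _ => ENNReal.toReal_nonneg) fun j hj => ?_
          have hji : j ≠ i := Finset.ne_of_mem_erase hj
          show (μ (if j = i then N else if j < i then T else S)).toReal ≤ M
          rw [if_neg hji]
          split_ifs
          · exact hTM
          · exact hSM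
      _ = M ^ (d - 1) := by
          rw [Finset.prod_const, Finset.card_erase_of_mem (Finset.mem_univ i), Finset.card_univ,
            Fintype.card_fin]
  calc (Measure.pi fun _ : Fin d => μ).real {x | ¬ ((∀ i, x i ∈ S) ↔ ∀ i, x i ∈ T)}
      ≤ (Measure.pi fun _ : Fin d => μ).real (⋃ i : Fin d, Set.univ.pi (box i)) :=
        measureReal_mono hsub
    _ ≤ ∑ i : Fin d, (Measure.pi fun _ : Fin d => μ).real (Set.univ.pi (box i)) :=
        measureReal_iUnion_fintype_le _
    _ ≤ ∑ _i : Fin d, M ^ (d - 1) * μ.real N := Finset.sum_le_sum fun i _ => hbox i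
    _ = d * M ^ (d - 1) * μ.real N := by
        rw [Finset.sum_const, Finset.card_univ, Fintype.card_fin, nsmul_eq_mul]
        ring
    _ = _ := by rw [hN]

/-- The disagreement recursion at a maximising step. -/
theorem dis_even [NeZero d] (ν : Measure ℤ) [IsProbabilityMeasure ν] (m : ℕ) (t : ℤ)
    (hm : Even (m + 1)) {M : ℝ} (h1 : (cdfv d ν m (t - 1) + cdfv d ν m (t + 1)) / 2 ≤ M)
    (h2 : (cdfv d ν (m + 2) (t - 1) + cdfv d ν (m + 2) (t + 1)) / 2 ≤ M) :
    dis d ν (m + 1) t ≤ d * M ^ (d - 1) * ((dis d ν m (t - 1) + dis d ν m (t + 1)) / 2) := by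
  have hm' : Even (m + 2 + 1) := by
    obtain ⟨k, hk⟩ := hm
    exact ⟨k + 1, by omega⟩
  have e : {ω : Conf d | ¬ (gv (m + 1) ω ≤ t ↔ gv (m + 1 + 2) ω ≤ t)} =
      sub ⁻¹' {x : Fin d → Conf d | ¬ ((∀ i, x i ∈ {ω | ev m ω ≤ t}) ↔
        ∀ i, x i ∈ {ω | ev (m + 2) ω ≤ t})} := by
    ext ω
    simp only [Set.mem_ofPred_eq, Set.mem_preimage]
    rw [show m + 1 + 2 = m + 2 + 1 by ring, gv, gv, if_pos hm, if_pos hm', Finset.sup'_le_iff,
      Finset.sup'_le_iff]
    simp [ev]
  have hS : MeasurableSet {ω : Conf d | ev m ω ≤ t} := measurable_ev m measurableSet_Iic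
  have hT : MeasurableSet {ω : Conf d | ev (m + 2) ω ≤ t} :=
    measurable_ev (m + 2) measurableSet_Iic
  have hset : MeasurableSet {x : Fin d → Conf d | ¬ ((∀ i, x i ∈ {ω | ev m ω ≤ t}) ↔
        ∀ i, x i ∈ {ω | ev (m + 2) ω ≤ t})} := by
    have a1 : MeasurableSet {x : Fin d → Conf d | ∀ i, x i ∈ {ω | ev m ω ≤ t}} := by
      rw [Set.ofPred_forall]
      exact MeasurableSet.iInter fun i => hS.preimage (measurable_pi_apply i)
    have a2 : MeasurableSet {x : Fin d → Conf d | ∀ i, x i ∈ {ω | ev (m + 2) ω ≤ t}} := by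
      rw [Set.ofPred_forall]
      exact MeasurableSet.iInter fun i => hT.preimage (measurable_pi_apply i)
    have a3 : {x : Fin d → Conf d | ¬ ((∀ i, x i ∈ {ω | ev m ω ≤ t}) ↔
        ∀ i, x i ∈ {ω | ev (m + 2) ω ≤ t})} = symmDiff
        {x : Fin d → Conf d | ∀ i, x i ∈ {ω | ev m ω ≤ t}}
        {x : Fin d → Conf d | ∀ i, x i ∈ {ω | ev (m + 2) ω ≤ t}} := by
      ext x
      simp only [Set.mem_ofPred_eq, Set.mem_symmDiff]
      tauto
    rw [a3]
    exact a1.symmDiff a2
  unfold dis
  rw [e, measureReal_def, ← Measure.map_apply measurable_sub hset, map_sub, ← measureReal_def]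
  refine (telescope (claw d ν) _ _ (M := M) (by rw [ev_law]; exact h1)
    (by rw [ev_law]; exact h2)).trans (le_of_eq ?_)
  have := dis_step (d := d) ν m t
  unfold dis at this
  rw [← this]
  rfl

/-- The disagreement recursion at a minimising step. -/
theorem dis_odd [NeZero d] (ν : Measure ℤ) [IsProbabilityMeasure ν] (m : ℕ) (t : ℤ)
    (hm : ¬ Even (m + 1)) {M : ℝ} (h1 : 1 - (cdfv d ν m (t - 1) + cdfv d ν m (t + 1)) / 2 ≤ M)
    (h2 : 1 - (cdfv d ν (m + 2) (t - 1) + cdfv d ν (m + 2) (t + 1)) / 2 ≤ M) :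
    dis d ν (m + 1) t ≤ d * M ^ (d - 1) * ((dis d ν m (t - 1) + dis d ν m (t + 1)) / 2) := by
  have hm' : ¬ Even (m + 2 + 1) := by
    intro h
    obtain ⟨k, hk⟩ := h
    exact hm ⟨k - 1, by omega⟩
  have e : {ω : Conf d | ¬ (gv (m + 1) ω ≤ t ↔ gv (m + 1 + 2) ω ≤ t)} =
      sub ⁻¹' {x : Fin d → Conf d | ¬ ((∀ i, x i ∈ {ω | ev m ω ≤ t}ᶜ) ↔
        ∀ i, x i ∈ {ω | ev (m + 2) ω ≤ t}ᶜ)} := by
    ext ω
    simp only [Set.mem_ofPred_eq, Set.mem_preimage, Set.mem_compl_iff, not_le]
    rw [← not_lt, ← not_lt, show m + 1 + 2 = m + 2 + 1 by ring, gv, gv, if_neg hm,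
      if_neg hm', Finset.lt_inf'_iff, Finset.lt_inf'_iff]
    have e1 : ∀ k : ℕ, (∀ i ∈ (Finset.univ : Finset (Fin d)),
        t < sgn (sub ω i []).1 + gv k (sub ω i)) ↔ ∀ i, t < ev k (sub ω i) := fun k => by
      simp [ev]
    rw [e1, e1, not_iff_not]
    exact not_iff_not
  have hS : MeasurableSet {ω : Conf d | ev m ω ≤ t}ᶜ := (measurable_ev m measurableSet_Iic).compl
  have hT : MeasurableSet {ω : Conf d | ev (m + 2) ω ≤ t}ᶜ :=
    (measurable_ev (m + 2) measurableSet_Iic).compl
  have hset : MeasurableSet {x : Fin d → Conf d | ¬ ((∀ i, x i ∈ {ω | ev m ω ≤ t}ᶜ) ↔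
        ∀ i, x i ∈ {ω | ev (m + 2) ω ≤ t}ᶜ)} := by
    have a1 : MeasurableSet {x : Fin d → Conf d | ∀ i, x i ∈ {ω | ev m ω ≤ t}ᶜ} := by
      rw [Set.ofPred_forall]
      exact MeasurableSet.iInter fun i => hS.preimage (measurable_pi_apply i)
    have a2 : MeasurableSet {x : Fin d → Conf d | ∀ i, x i ∈ {ω | ev (m + 2) ω ≤ t}ᶜ} := by
      rw [Set.ofPred_forall]
      exact MeasurableSet.iInter fun i => hT.preimage (measurable_pi_apply i)
    have a3 : {x : Fin d → Conf d | ¬ ((∀ i, x i ∈ {ω | ev m ω ≤ t}ᶜ) ↔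
        ∀ i, x i ∈ {ω | ev (m + 2) ω ≤ t}ᶜ)} = symmDiff
        {x : Fin d → Conf d | ∀ i, x i ∈ {ω | ev m ω ≤ t}ᶜ}
        {x : Fin d → Conf d | ∀ i, x i ∈ {ω | ev (m + 2) ω ≤ t}ᶜ} := by
      ext x
      simp only [Set.mem_ofPred_eq, Set.mem_symmDiff]
      tauto
    rw [a3]
    exact a1.symmDiff a2
  have c1 : (claw d ν).real {ω : Conf d | ev m ω ≤ t}ᶜ ≤ M := by
    have hm1 : MeasurableSet {ω : Conf d | ev m ω ≤ t} := measurable_ev m measurableSet_Iic
    rw [probReal_compl_eq_one_sub hm1, ev_law]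
    exact h1
  have c2 : (claw d ν).real {ω : Conf d | ev (m + 2) ω ≤ t}ᶜ ≤ M := by
    have hm2 : MeasurableSet {ω : Conf d | ev (m + 2) ω ≤ t} :=
      measurable_ev (m + 2) measurableSet_Iic
    rw [probReal_compl_eq_one_sub hm2, ev_law]
    exact h2
  unfold dis
  rw [e, measureReal_def, ← Measure.map_apply measurable_sub hset, map_sub, ← measureReal_def]
  refine (telescope (claw d ν) _ _ (M := M) c1 c2).trans (le_of_eq ?_)
  have := dis_step (d := d) ν m t
  unfold dis at this
  rw [← this]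
  congr 2
  ext ω
  simp only [Set.mem_compl_iff, Set.mem_ofPred_eq, not_iff_not]

end Q288.MinMax
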