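import Mathlib

/-!
# Large `d`: contraction near the stable laws, expansion of the middle coordinate
-/

namespace Q288.MinMax.Large

open Filter Topology Set Function

/-- The step of the minimiser. -/
noncomputable def opA (d : ℕ) (F : ℤ → ℝ) (k : ℤ) : ℝ := 1 - (1 - (F (k - 1) + F k) / 2) ^ d

/-- The step of the maximiser. -/
noncomputable def opB (d : ℕ) (G : ℤ → ℝ) (k : ℤ) : ℝ := ((G k + G (k + 1)) / 2) ^ d

/-- One full round. -/
noncomputable def Psi (d : ℕ) (F : ℤ → ℝ) : ℤ → ℝ := opB d (opA d F)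

/-! ### Powers -/

theorem pow_sub_ge {a b : ℝ} (n : ℕ) (b0 : 0 ≤ b) (hab : b ≤ a) :
    n * b ^ (n - 1) * (a - b) ≤ a ^ n - b ^ n := by
  induction n with
  | zero => simp
  | succ n ih =>
    have a0 : 0 ≤ a := b0.trans hab
    have h1 : b ^ n ≤ a ^ n := pow_le_pow_left₀ b0 hab n
    have e : a ^ (n + 1) - b ^ (n + 1) = a * (a ^ n - b ^ n) + b ^ n * (a - b) := by ring
    rw [e]
    simp only [Nat.add_sub_cancel]
    rcases Nat.eq_zero_or_pos n with hn | hn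
    · subst hn; simp
    · obtain ⟨m, rfl⟩ := Nat.exists_eq_add_of_le' hn
      simp only [Nat.add_sub_cancel] at ih
      have h2 : b * (((m + 1 : ℕ) : ℝ) * b ^ m * (a - b)) ≤ a * (a ^ (m + 1) - b ^ (m + 1)) := by
        refine mul_le_mul hab ih ?_ a0
        have : 0 ≤ a - b := by linarith
        positivity
      have e2 : ((m + 1 + 1 : ℕ) : ℝ) * b ^ (m + 1) * (a - b) =
          b * (((m + 1 : ℕ) : ℝ) * b ^ m * (a - b)) + b ^ (m + 1) * (a - b) := by
        push_cast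
        ring
      rw [e2]
      linarith

theorem abs_pow_sub_le {a b M : ℝ} (n : ℕ) (a0 : 0 ≤ a) (b0 : 0 ≤ b) (aM : a ≤ M) (bM : b ≤ M) :
    |a ^ n - b ^ n| ≤ n * M ^ (n - 1) * |a - b| := by
  have M0 : 0 ≤ M := a0.trans aM
  induction n with
  | zero => simp
  | succ n ih =>
    have e : a ^ (n + 1) - b ^ (n + 1) = a * (a ^ n - b ^ n) + b ^ n * (a - b) := by ring
    rw [e]
    simp only [Nat.add_sub_cancel]
    have hb : b ^ n ≤ M ^ n := pow_le_pow_left₀ b0 bM n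
    have h1 : |a * (a ^ n - b ^ n) + b ^ n * (a - b)| ≤
        a * |a ^ n - b ^ n| + b ^ n * |a - b| := by
      refine (abs_add_le _ _).trans ?_
      rw [abs_mul, abs_mul, abs_of_nonneg a0, abs_of_nonneg (pow_nonneg b0 n)]
    refine h1.trans ?_
    have h2 : a * |a ^ n - b ^ n| ≤ M * (n * M ^ (n - 1) * |a - b|) :=
      mul_le_mul aM ih (abs_nonneg _) M0
    have h3 : b ^ n * |a - b| ≤ M ^ n * |a - b| := mul_le_mul_of_nonneg_right hb (abs_nonneg _)
    have h4 : M * (n * M ^ (n - 1) * |a - b|) = n * M ^ n * |a - b| := by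
      rcases Nat.eq_zero_or_pos n with hn | hn
      · subst hn; simp
      · obtain ⟨m, rfl⟩ := Nat.exists_eq_add_of_le' hn
        simp only [Nat.add_sub_cancel]
        ring
    push_cast
    rw [h4] at h2
    nlinarith

/-- `(1 - x)^n ≥ 1 - n x` for `0 ≤ x ≤ 1`. -/
theorem bern {x : ℝ} (n : ℕ) (x1 : x ≤ 1) : 1 - n * x ≤ (1 - x) ^ n := by
  have := one_add_mul_le_pow (a := -x) (by linarith) n
  rw [show 1 + -x = 1 - x by ring] at this
  linarith

/-! ### The largeness condition -/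

/-- The inequalities satisfied by all large `d`. -/
structure Big (d : ℕ) : Prop where
  h0 : 5 ≤ d
  h1 : (d : ℝ) ^ 3 * ((1 + 1 / d) / 2) ^ (d - 1) ≤ 1 / 12
  h2 : (d : ℝ) ^ 3 * (1 - 1 / 64) ^ d ≤ 1
  h3 : Real.exp (-6) ≤ (1 - 5 / d) ^ d
  h4 : (d : ℝ) ^ 2 * (1 - Real.exp (-6) / 2) ^ d ≤ 1
  h5 : (1 : ℝ) / 16 ≤ (1 - 2 / d) ^ d

theorem eventually_big : ∀ᶠ d : ℕ in atTop, Big d := by
  have g0 : ∀ᶠ d : ℕ in atTop, 5 ≤ d := eventually_ge_atTop 5
  have g1 : ∀ᶠ d : ℕ in atTop, (d : ℝ) ^ 3 * ((1 + 1 / d) / 2) ^ (d - 1) ≤ 1 / 12 := by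
    have h := tendsto_pow_const_mul_const_pow_of_abs_lt_one 3
      (show |(3 / 4 : ℝ)| < 1 by rw [abs_of_nonneg] <;> norm_num)
    have h' := (h.mul_const (4 / 3 : ℝ)).eventually (gt_mem_nhds (show (0 * (4 / 3) : ℝ) < 1 / 12 by
      norm_num))
    filter_upwards [h', eventually_ge_atTop 2] with d hd hd2
    have hd2' : (2 : ℝ) ≤ d := by exact_mod_cast hd2
    have e : ((3 : ℝ) / 4) ^ d * (4 / 3) = (3 / 4) ^ (d - 1) := by
      obtain ⟨m, rfl⟩ := Nat.exists_eq_add_of_le' (show 1 ≤ d by omega)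
      simp only [Nat.add_sub_cancel]
      rw [pow_succ]
      ring
    rw [mul_assoc, e] at hd
    refine le_trans ?_ hd.le
    apply mul_le_mul_of_nonneg_left _ (by positivity)
    apply pow_le_pow_left₀ (by positivity)
    have : 1 / (d : ℝ) ≤ 1 / 2 := one_div_le_one_div_of_le (by norm_num) hd2'
    linarith
  have g2 : ∀ᶠ d : ℕ in atTop, (d : ℝ) ^ 3 * (1 - 1 / 64) ^ d ≤ 1 := by
    have h := tendsto_pow_const_mul_const_pow_of_abs_lt_one 3
      (show |(1 - 1 / 64 : ℝ)| < 1 by rw [abs_of_nonneg] <;> norm_num)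
    exact (h.eventually (gt_mem_nhds one_pos)).mono fun d hd => hd.le
  have g3 : ∀ᶠ d : ℕ in atTop, Real.exp (-6) ≤ (1 - 5 / (d : ℝ)) ^ d := by
    have h := Real.tendsto_one_add_div_pow_exp (-5)
    have h' := h.eventually (lt_mem_nhds (Real.exp_lt_exp.2 (show (-6 : ℝ) < -5 by norm_num)))
    filter_upwards [h'] with d hd
    rw [neg_div, ← sub_eq_add_neg] at hd
    exact hd.le
  have g4 : ∀ᶠ d : ℕ in atTop, (d : ℝ) ^ 2 * (1 - Real.exp (-6) / 2) ^ d ≤ 1 := by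
    have h6 : Real.exp (-6) < 1 := by rw [Real.exp_lt_one_iff]; norm_num
    have h7 := Real.exp_pos (-6)
    have h := tendsto_pow_const_mul_const_pow_of_abs_lt_one 2
      (show |(1 - Real.exp (-6) / 2 : ℝ)| < 1 by
        rw [abs_of_nonneg] <;> linarith)
    exact (h.eventually (gt_mem_nhds one_pos)).mono fun d hd => hd.le
  have g5 : ∀ᶠ d : ℕ in atTop, (1 : ℝ) / 16 ≤ (1 - 2 / (d : ℝ)) ^ d := by
    have h := Real.tendsto_one_add_div_pow_exp (-2)
    have h16 : (1 : ℝ) / 16 < Real.exp (-2) := by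
      rw [Real.exp_neg, one_div]
      apply inv_strictAnti₀ (Real.exp_pos _)
      have := Real.exp_one_lt_d9
      have h2 : Real.exp 2 = Real.exp 1 * Real.exp 1 := by
        rw [← Real.exp_add]; norm_num
      rw [h2]
      have h3 := Real.exp_pos 1
      nlinarith
    have h' := h.eventually (lt_mem_nhds h16)
    filter_upwards [h'] with d hd
    rw [neg_div, ← sub_eq_add_neg] at hd
    exact hd.le
  filter_upwards [g0, g1, g2, g3, g4, g5] with d h0 h1 h2 h3 h4 h5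
  exact ⟨h0, h1, h2, h3, h4, h5⟩

variable {d : ℕ}

namespace Big

theorem dpos (hd : Big d) : (5 : ℝ) ≤ d := by exact_mod_cast hd.h0

/-- `r = (1 + 1 / d) / 2`. -/
theorem r_le (hd : Big d) : (1 + 1 / (d : ℝ)) / 2 ≤ 3 / 5 := by
  have := hd.dpos
  have : 1 / (d : ℝ) ≤ 1 / 5 := one_div_le_one_div_of_le (by norm_num) this
  linarith

theorem r_pos (hd : Big d) : 0 < (1 + 1 / (d : ℝ)) / 2 := by
  have := hd.dpos
  positivity

theorem rpow (hd : Big d) : (d : ℝ) ^ 3 * ((1 + 1 / d) / 2) ^ d ≤ 1 / 12 := by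
  refine le_trans ?_ hd.h1
  apply mul_le_mul_of_nonneg_left _ (by positivity)
  apply pow_le_pow_of_le_one hd.r_pos.le (by linarith [hd.r_le])
  omega

theorem rpow' (hd : Big d) : ((1 + 1 / (d : ℝ)) / 2) ^ d ≤ 1 / d ^ 3 := by
  have h1 := hd.rpow
  have h2 := hd.dpos
  rw [le_div_iff₀ (by positivity)]
  nlinarith

/-- The contraction factor. -/
noncomputable def c (d : ℕ) : ℝ := (d : ℝ) ^ 2 * ((1 + 1 / d) / 2) ^ (d - 1)

theorem c_nonneg : 0 ≤ c d := by unfold c; positivity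

theorem c_le (hd : Big d) : c d ≤ 1 / 12 := by
  have h1 := hd.h1
  have h2 := hd.dpos
  refine le_trans ?_ h1
  unfold c
  apply mul_le_mul_of_nonneg_right _ (by have := hd.r_pos; positivity)
  nlinarith [pow_pos (show (0 : ℝ) < d by linarith) 2]

end Big

/-! ### Zones -/

/-- Values in `[0, 1]`. -/
def Unit' (F : ℤ → ℝ) : Prop := ∀ k, 0 ≤ F k ∧ F k ≤ 1

/-- `F ≤ 1 / d²` to the left of `s`. -/
def Lo (d : ℕ) (s : ℤ) (F : ℤ → ℝ) : Prop := ∀ k < s, F k ≤ 1 / d ^ 2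

/-- `F ≥ 1 - 1 / d²` from `t` on. -/
def Hi (d : ℕ) (t : ℤ) (F : ℤ → ℝ) : Prop := ∀ k ≥ t, 1 - 1 / d ^ 2 ≤ F k

theorem Unit'.opA {F : ℤ → ℝ} (hF : Unit' F) : Unit' (opA d F) := by
  intro k
  have h1 := hF k
  have h2 := hF (k - 1)
  have h3 : 0 ≤ 1 - (F (k - 1) + F k) / 2 := by linarith
  have h4 : 1 - (F (k - 1) + F k) / 2 ≤ 1 := by linarith
  unfold Large.opA
  exact ⟨by linarith [pow_le_one₀ (n := d) h3 h4], by linarith [pow_nonneg h3 d]⟩

theorem Unit'.opB {F : ℤ → ℝ} (hF : Unit' F) : Unit' (opB d F) := by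
  intro k
  have h1 := hF k
  have h2 := hF (k + 1)
  have h3 : 0 ≤ (F k + F (k + 1)) / 2 := by linarith
  have h4 : (F k + F (k + 1)) / 2 ≤ 1 := by linarith
  unfold Large.opB
  exact ⟨pow_nonneg h3 d, pow_le_one₀ h3 h4⟩

theorem Unit'.Psi {F : ℤ → ℝ} (hF : Unit' F) : Unit' (Psi d F) := hF.opA.opB

theorem opA_mono {F G : ℤ → ℝ} (hG : Unit' G) (h : ∀ k, F k ≤ G k) (k : ℤ) :
    opA d F k ≤ opA d G k := by
  unfold opA
  have h1 := hG k
  have h2 := hG (k - 1)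
  have h3 := h k
  have h4 := h (k - 1)
  have := pow_le_pow_left₀ (show 0 ≤ 1 - (G (k - 1) + G k) / 2 by linarith)
    (show 1 - (G (k - 1) + G k) / 2 ≤ 1 - (F (k - 1) + F k) / 2 by linarith) d
  linarith

theorem opB_mono {F G : ℤ → ℝ} (hF : Unit' F) (h : ∀ k, F k ≤ G k) (k : ℤ) :
    opB d F k ≤ opB d G k := by
  unfold opB
  have h1 := hF k
  have h2 := hF (k + 1)
  have h3 := h k
  have h4 := h (k + 1)
  exact pow_le_pow_left₀ (by linarith) (by linarith) d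

theorem Psi_mono {F G : ℤ → ℝ} (hF : Unit' F) (hG : Unit' G) (h : ∀ k, F k ≤ G k) (k : ℤ) :
    Psi d F k ≤ Psi d G k := opB_mono hF.opA (opA_mono hG h) k

/-- To the left of `s` the minimiser's step multiplies by at most `d`. -/
theorem opA_lo (hd : Big d) {F : ℤ → ℝ} {s : ℤ} (hlo : Lo d s F) {k : ℤ}
    (hk : k < s) : opA d F k ≤ 1 / d := by
  have h1 := hlo k hk
  have h2 := hlo (k - 1) (by omega)
  have hd5 := hd.dpos
  have hx : (F (k - 1) + F k) / 2 ≤ 1 / d ^ 2 := by linarith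
  have h3 : 1 / (d : ℝ) ^ 2 ≤ 1 := by
    rw [div_le_one (by positivity)]
    nlinarith
  have h4 := bern d h3
  have h5 : (1 - 1 / (d : ℝ) ^ 2) ^ d ≤ (1 - (F (k - 1) + F k) / 2) ^ d :=
    pow_le_pow_left₀ (by linarith) (by linarith) d
  have h6 : (d : ℝ) * (1 / d ^ 2) = 1 / d := by
    field_simp
  unfold opA
  rw [h6] at h4
  linarith

/-- From `t` on the minimiser's step is close to one. -/
theorem opA_hi (hd : Big d) {F : ℤ → ℝ} (hF : Unit' F) {t : ℤ} (hhi : Hi d t F) {k : ℤ}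
    (hk : t ≤ k) : 1 - 1 / d ^ 3 ≤ opA d F k := by
  have h1 := hhi k hk
  have h2 := hF (k - 1)
  have h2' := hF k
  have hd5 := hd.dpos
  have h3 : 1 / (d : ℝ) ^ 2 ≤ 1 / d := by
    apply one_div_le_one_div_of_le (by linarith)
    nlinarith
  have hx : 1 - (F (k - 1) + F k) / 2 ≤ (1 + 1 / (d : ℝ)) / 2 := by linarith [h2.1]
  have h5 : (1 - (F (k - 1) + F k) / 2) ^ d ≤ ((1 + 1 / (d : ℝ)) / 2) ^ d :=
    pow_le_pow_left₀ (by linarith [h2.2, h2'.2]) hx d
  have h6 := hd.rpow'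
  unfold opA
  linarith

theorem Lo.Psi (hd : Big d) {F : ℤ → ℝ} (hF : Unit' F) {s : ℤ} (hlo : Lo d s F) :
    Lo d s (Psi d F) := by
  intro k hk
  have h1 := opA_lo hd hlo hk
  have h2 := (hF.opA (d := d)) (k + 1)
  have h3 := (hF.opA (d := d)) k
  have hd5 := hd.dpos
  unfold Large.Psi opB
  have h4 : (Large.opA d F k + Large.opA d F (k + 1)) / 2 ≤ (1 + 1 / (d : ℝ)) / 2 := by
    linarith [h2.2]
  have h5 := pow_le_pow_left₀ (by linarith [h2.1, h3.1]) h4 d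
  refine h5.trans (hd.rpow'.trans ?_)
  apply one_div_le_one_div_of_le (by positivity)
  exact pow_le_pow_right₀ (by linarith) (by norm_num)

/-- If both arguments are at least `1 - 1 / d³`, the maximiser's step is at least `1 - 1 / d²`. -/
theorem opB_hi (hd : Big d) {G : ℤ → ℝ} {k : ℤ} (h1 : 1 - 1 / (d : ℝ) ^ 3 ≤ G k)
    (h2 : 1 - 1 / (d : ℝ) ^ 3 ≤ G (k + 1)) : 1 - 1 / (d : ℝ) ^ 2 ≤ opB d G k := by
  have hd5 := hd.dpos
  have h3 : 1 / (d : ℝ) ^ 3 ≤ 1 := by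
    rw [div_le_one (by positivity)]
    exact one_le_pow₀ (by linarith)
  have h4 := bern d h3
  have h5 : (1 - 1 / (d : ℝ) ^ 3) ^ d ≤ ((G k + G (k + 1)) / 2) ^ d :=
    pow_le_pow_left₀ (by linarith) (by linarith) d
  have h6 : (d : ℝ) * (1 / d ^ 3) = 1 / d ^ 2 := by
    field_simp
  unfold opB
  rw [h6] at h4
  linarith

theorem Hi.Psi (hd : Big d) {F : ℤ → ℝ} (hF : Unit' F) {t : ℤ} (hhi : Hi d t F) :
    Hi d t (Psi d F) := fun k hk =>
  opB_hi hd (opA_hi hd hF hhi hk) (opA_hi hd hF hhi (by omega : t ≤ k + 1))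

theorem opA_lip {F G : ℤ → ℝ} (hF : Unit' F) (hG : Unit' G) {e M : ℝ} (k : ℤ)
    (h1 : |F (k - 1) - G (k - 1)| ≤ e) (h2 : |F k - G k| ≤ e)
    (hM1 : 1 - (F (k - 1) + F k) / 2 ≤ M) (hM2 : 1 - (G (k - 1) + G k) / 2 ≤ M) :
    |opA d F k - opA d G k| ≤ d * M ^ (d - 1) * e := by
  have f1 := hF k
  have f2 := hF (k - 1)
  have g1 := hG k
  have g2 := hG (k - 1)
  have h3 := abs_pow_sub_le d (show 0 ≤ 1 - (G (k - 1) + G k) / 2 by linarith)
    (show 0 ≤ 1 - (F (k - 1) + F k) / 2 by linarith) hM2 hM1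
  have M0 : 0 ≤ M := le_trans (by linarith) hM1
  have h4 : |1 - (G (k - 1) + G k) / 2 - (1 - (F (k - 1) + F k) / 2)| ≤ e := by
    have e1 : 1 - (G (k - 1) + G k) / 2 - (1 - (F (k - 1) + F k) / 2) =
        ((F (k - 1) - G (k - 1)) + (F k - G k)) / 2 := by ring
    rw [e1, abs_div, abs_of_pos (show (0 : ℝ) < 2 by norm_num), div_le_iff₀ (by norm_num)]
    exact (abs_add_le _ _).trans (by linarith)
  unfold opA
  rw [show 1 - (1 - (F (k - 1) + F k) / 2) ^ d - (1 - (1 - (G (k - 1) + G k) / 2) ^ d) =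
    (1 - (G (k - 1) + G k) / 2) ^ d - (1 - (F (k - 1) + F k) / 2) ^ d by ring]
  exact h3.trans (mul_le_mul_of_nonneg_left h4 (by positivity))

theorem opB_lip {F G : ℤ → ℝ} (hF : Unit' F) (hG : Unit' G) {e M : ℝ} (k : ℤ)
    (h1 : |F k - G k| ≤ e) (h2 : |F (k + 1) - G (k + 1)| ≤ e)
    (hM1 : (F k + F (k + 1)) / 2 ≤ M) (hM2 : (G k + G (k + 1)) / 2 ≤ M) :
    |opB d F k - opB d G k| ≤ d * M ^ (d - 1) * e := by
  have f1 := hF k
  have f2 := hF (k + 1)
  have g1 := hG k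
  have g2 := hG (k + 1)
  have h3 := abs_pow_sub_le d (show 0 ≤ (F k + F (k + 1)) / 2 by linarith)
    (show 0 ≤ (G k + G (k + 1)) / 2 by linarith) hM1 hM2
  have M0 : 0 ≤ M := le_trans (by linarith) hM1
  have h4 : |(F k + F (k + 1)) / 2 - (G k + G (k + 1)) / 2| ≤ e := by
    have e1 : (F k + F (k + 1)) / 2 - (G k + G (k + 1)) / 2 =
        ((F k - G k) + (F (k + 1) - G (k + 1))) / 2 := by ring
    rw [e1, abs_div, abs_of_pos (show (0 : ℝ) < 2 by norm_num), div_le_iff₀ (by norm_num)]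
    exact (abs_add_le _ _).trans (by linarith)
  unfold opB
  exact h3.trans (mul_le_mul_of_nonneg_left h4 (by positivity))

/-- The crude Lipschitz estimate. -/
theorem lip {F G : ℤ → ℝ} (hF : Unit' F) (hG : Unit' G) {e : ℝ} (h : ∀ k, |F k - G k| ≤ e)
    (k : ℤ) : |Psi d F k - Psi d G k| ≤ d ^ 2 * e := by
  have hA : ∀ j, |opA d F j - opA d G j| ≤ d * e := fun j => by
    have f1 := hF j
    have f2 := hF (j - 1)
    have g1 := hG j
    have g2 := hG (j - 1)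
    have := opA_lip (d := d) (M := 1) hF hG j (h _) (h _) (by linarith) (by linarith)
    simpa using this
  have f1 := hF.opA (d := d) k
  have f2 := hF.opA (d := d) (k + 1)
  have g1 := hG.opA (d := d) k
  have g2 := hG.opA (d := d) (k + 1)
  have := opB_lip (d := d) (M := 1) hF.opA hG.opA k (hA _) (hA _) (by linarith) (by linarith)
  rw [one_pow, mul_one] at this
  unfold Psi
  linarith

theorem lip_lo (hd : Big d) {F G : ℤ → ℝ} (hF : Unit' F) (hG : Unit' G) {s : ℤ}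
    (hlF : Lo d s F) (hlG : Lo d s G) {e : ℝ} (h : ∀ k, |F k - G k| ≤ e) {k : ℤ} (hk : k < s) :
    |Psi d F k - Psi d G k| ≤ Big.c d * e := by
  have hA : ∀ j, |opA d F j - opA d G j| ≤ d * e := fun j => by
    have f1 := hF j
    have f2 := hF (j - 1)
    have g1 := hG j
    have g2 := hG (j - 1)
    have := opA_lip (d := d) (M := 1) hF hG j (h _) (h _) (by linarith) (by linarith)
    simpa using this
  have f1 := opA_lo hd hlF hk
  have f2 := (hF.opA (d := d) (k + 1)).2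
  have g1 := opA_lo hd hlG hk
  have g2 := (hG.opA (d := d) (k + 1)).2
  have := opB_lip (d := d) (M := (1 + 1 / (d : ℝ)) / 2) hF.opA hG.opA k (hA _) (hA _)
    (by linarith) (by linarith)
  unfold Psi Big.c
  calc _ ≤ _ := this
    _ = _ := by ring

theorem lip_hi (hd : Big d) {F G : ℤ → ℝ} (hF : Unit' F) (hG : Unit' G) {t : ℤ}
    (hhF : Hi d t F) (hhG : Hi d t G) {e : ℝ} (h : ∀ k, |F k - G k| ≤ e) {k : ℤ} (hk : t ≤ k) :
    |Psi d F k - Psi d G k| ≤ Big.c d * e := by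
  have hd5 := hd.dpos
  have h3 : 1 / (d : ℝ) ^ 2 ≤ 1 / d := by
    apply one_div_le_one_div_of_le (by linarith)
    nlinarith
  have hA : ∀ j, t ≤ j → |opA d F j - opA d G j| ≤ d * ((1 + 1 / (d : ℝ)) / 2) ^ (d - 1) * e :=
    fun j hj => by
      have f1 := hhF j hj
      have f2 := hF (j - 1)
      have g1 := hhG j hj
      have g2 := hG (j - 1)
      exact opA_lip (d := d) hF hG j (h _) (h _) (by linarith) (by linarith)
  have f1 := hF.opA (d := d) k
  have f2 := hF.opA (d := d) (k + 1)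
  have g1 := hG.opA (d := d) k
  have g2 := hG.opA (d := d) (k + 1)
  have := opB_lip (d := d) (M := 1) hF.opA hG.opA k (hA _ hk) (hA _ (by omega))
    (by linarith) (by linarith)
  rw [one_pow, mul_one] at this
  unfold Psi Big.c
  calc _ ≤ _ := this
    _ = _ := by ring

/-! ### The middle zone -/

theorem opA_zero (F : ℤ → ℝ) : opA d F 0 = 1 - (1 - (F (-1) + F 0) / 2) ^ d := by
  simp [opA]

theorem opA_one (F : ℤ → ℝ) : opA d F 1 = 1 - (1 - (F 0 + F 1) / 2) ^ d := by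
  simp [opA]

theorem Psi_zero (F : ℤ → ℝ) : Psi d F 0 = ((opA d F 0 + opA d F 1) / 2) ^ d := by
  simp [Psi, opB]

/-- Only the value at `0` is not yet determined. -/
structure Mid (d : ℕ) (F : ℤ → ℝ) : Prop where
  u : Unit' F
  lo : Lo d 0 F
  hi : Hi d 1 F

theorem Mid.Psi (hd : Big d) {F : ℤ → ℝ} (hF : Mid d F) : Mid d (Psi d F) :=
  ⟨hF.u.Psi, hF.lo.Psi hd hF.u, hF.hi.Psi hd hF.u⟩

/-- Entering the basin of the upper state. -/
theorem Mid.zoneA (hd : Big d) {F : ℤ → ℝ} (hF : Mid d F) (h : 1 / 32 ≤ F 0) :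
    Hi d 0 (Large.Psi d F) := by
  intro k hk
  rcases hk.lt_or_eq with hk | hk
  · exact hF.hi.Psi hd hF.u k (by omega)
  · have hk0 : k = 0 := hk.symm
    subst hk0
    have hd5 := hd.dpos
    refine opB_hi hd ?_ (opA_hi hd hF.u hF.hi (by norm_num))
    obtain ⟨f1, f1'⟩ := hF.u (-1)
    obtain ⟨f0, f0'⟩ := hF.u 0
    have h1 : (1 - (F (-1) + F 0) / 2) ^ d ≤ (1 - 1 / 64) ^ d :=
      pow_le_pow_left₀ (by linarith) (by linarith) d
    have h2 : (1 - 1 / 64 : ℝ) ^ d ≤ 1 / d ^ 3 := by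
      rw [le_div_iff₀ (by positivity)]
      linarith [hd.h2]
    rw [opA_zero]
    linarith

/-- Entering the basin of the lower state. -/
theorem Mid.zoneB (hd : Big d) {F : ℤ → ℝ} (hF : Mid d F) (h : F 0 ≤ 8 / d) :
    Lo d 1 (Large.Psi d F) := by
  intro k hk
  rcases (show k ≤ 0 by omega).lt_or_eq with hk | hk
  · exact hF.lo.Psi hd hF.u k (by omega)
  · subst hk
    have hd5 := hd.dpos
    obtain ⟨f1, f1'⟩ := hF.u (-1)
    have f1'' := hF.lo (-1) (by norm_num)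
    obtain ⟨f0, f0'⟩ := hF.u 0
    have e6 := Real.exp_pos (-6)
    have h3 : 1 / (d : ℝ) ^ 2 ≤ 1 / d := by
      apply one_div_le_one_div_of_le (by linarith)
      nlinarith
    have h4 : (F (-1) + F 0) / 2 ≤ 5 / d := by
      have e1 : (8 : ℝ) / d = 8 * (1 / d) := by ring
      have e2 : (5 : ℝ) / d = 5 * (1 / d) := by ring
      have e3 : 0 < 1 / (d : ℝ) := by positivity
      rw [e2]
      rw [e1] at h
      linarith
    have h5 : 5 / (d : ℝ) ≤ 1 := by rw [div_le_one (by linarith)]; exact hd5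
    have h6 : Real.exp (-6) ≤ (1 - (F (-1) + F 0) / 2) ^ d :=
      hd.h3.trans (pow_le_pow_left₀ (by linarith) (by linarith) d)
    have a0 : opA d F 0 ≤ 1 - Real.exp (-6) := by
      rw [opA_zero]
      linarith
    obtain ⟨a1, a1'⟩ := (hF.u.opA (d := d)) 1
    obtain ⟨b0, b0'⟩ := (hF.u.opA (d := d)) 0
    rw [Psi_zero]
    have h7 := pow_le_pow_left₀ (show 0 ≤ (opA d F 0 + opA d F 1) / 2 by linarith)
      (show (opA d F 0 + opA d F 1) / 2 ≤ 1 - Real.exp (-6) / 2 by linarith) d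
    refine h7.trans ?_
    rw [le_div_iff₀ (by positivity)]
    linarith [hd.h4]

theorem Mid.zoneW (hd : Big d) {G : ℤ → ℝ} (hG : Mid d G)
    (h : (1 - (G (-1) + G 0) / 2) ^ d ≤ 2 / d) : 1 / 16 ≤ Large.Psi d G 0 := by
  have hd5 := hd.dpos
  have a1 := opA_hi hd hG.u hG.hi (k := 1) (by norm_num)
  have a0 : 1 - 2 / (d : ℝ) ≤ opA d G 0 := by rw [opA_zero]; linarith
  have h1 : 1 / (d : ℝ) ^ 3 ≤ 2 / d := by
    rw [div_le_div_iff₀ (by positivity) (by positivity)]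
    have : (1 : ℝ) ≤ d ^ 2 := one_le_pow₀ (by linarith)
    nlinarith
  have h2 : 2 / (d : ℝ) ≤ 1 := by rw [div_le_one (by linarith)]; linarith
  rw [Psi_zero]
  exact hd.h5.trans (pow_le_pow_left₀ (by linarith) (by linarith) d)

/-- **Expansion of the middle coordinate.** -/
theorem expand (hd : Big d) {F G : ℤ → ℝ} (hF : Unit' F) (hG : Unit' G)
    (hpF : 8 / d ≤ Psi d F 0) (hwG : 2 / d ≤ (1 - (G (-1) + G 0) / 2) ^ d) {δ η : ℝ}
    (h0 : δ ≤ G 0 - F 0) (hm : -η ≤ G (-1) - F (-1)) (hp : -η ≤ G 1 - F 1)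
    (hηδ : η ≤ δ) : 4 * (δ - η) ≤ Psi d G 0 - Psi d F 0 := by
  have hd5 := hd.dpos
  obtain ⟨f0, f0'⟩ := hF 0
  obtain ⟨f1, f1'⟩ := hF (-1)
  obtain ⟨f2, f2'⟩ := hF 1
  obtain ⟨g0, g0'⟩ := hG 0
  obtain ⟨g1, g1'⟩ := hG (-1)
  obtain ⟨g2, g2'⟩ := hG 1
  have h1 := pow_sub_ge (a := 1 - (F (-1) + F 0) / 2) (b := 1 - (G (-1) + G 0) / 2) d
    (by linarith) (by linarith)
  have hb1 : (1 - (G (-1) + G 0) / 2) ^ d ≤ (1 - (G (-1) + G 0) / 2) ^ (d - 1) :=
    pow_le_pow_of_le_one (by linarith) (by linarith) (by omega)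
  have h2 : (δ - η) ≤ opA d G 0 - opA d F 0 := by
    have e1 : 2 ≤ (d : ℝ) * (1 - (G (-1) + G 0) / 2) ^ (d - 1) := by
      have := hwG.trans hb1
      rw [div_le_iff₀ (by linarith)] at this
      linarith
    have e2 : (δ - η) / 2 ≤ 1 - (F (-1) + F 0) / 2 - (1 - (G (-1) + G 0) / 2) := by linarith
    have e3 := mul_le_mul e1 e2 (by linarith) (by linarith)
    rw [opA_zero, opA_zero]
    linarith
  have h3 : opA d F 1 ≤ opA d G 1 := by
    rw [opA_one, opA_one]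
    have := pow_le_pow_left₀ (show 0 ≤ 1 - (G 0 + G 1) / 2 by linarith)
      (show 1 - (G 0 + G 1) / 2 ≤ 1 - (F 0 + F 1) / 2 by linarith) d
    linarith
  obtain ⟨a0, a0'⟩ := hF.opA (d := d) 0
  obtain ⟨a1, a1'⟩ := hF.opA (d := d) 1
  have h4 := pow_sub_ge (a := (opA d G 0 + opA d G 1) / 2)
    (b := (opA d F 0 + opA d F 1) / 2) d (by linarith) (by linarith)
  have hb2 : ((opA d F 0 + opA d F 1) / 2) ^ d ≤
      ((opA d F 0 + opA d F 1) / 2) ^ (d - 1) :=
    pow_le_pow_of_le_one (by linarith) (by linarith) (by omega)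
  have e4 : 8 ≤ (d : ℝ) * ((opA d F 0 + opA d F 1) / 2) ^ (d - 1) := by
    rw [Psi_zero] at hpF
    have := hpF.trans hb2
    rw [div_le_iff₀ (by linarith)] at this
    linarith
  have e5 : (δ - η) / 2 ≤ (opA d G 0 + opA d G 1) / 2 -
      (opA d F 0 + opA d F 1) / 2 := by linarith
  have e6 := mul_le_mul e4 e5 (by linarith) (by linarith)
  rw [Psi_zero, Psi_zero]
  linarith

end Q288.MinMax.Large
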