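import Mathlib
import Pool.Agent.Q288.MinMax.Large

/-!
# Large `d`: the two stable laws, the threshold, and the orbit at the threshold
-/

namespace Q288.MinMax.Large

open Filter Topology Set Function

variable {d : ℕ}

/-! ### Distribution functions -/

/-- Distribution functions on `ℤ`. -/
structure IsCDF (F : ℤ → ℝ) : Prop where
  mono : Monotone F
  bot : Tendsto F atBot (𝓝 0)
  top : Tendsto F atTop (𝓝 1)

theorem IsCDF.unit {F : ℤ → ℝ} (hF : IsCDF F) : Unit' F := fun k =>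
  ⟨hF.mono.le_of_tendsto hF.bot k, hF.mono.ge_of_tendsto hF.top k⟩

theorem IsCDF.opA {F : ℤ → ℝ} (hF : IsCDF F) (hd : d ≠ 0) : IsCDF (opA d F) := by
  have hu := hF.unit
  refine ⟨fun i j hij => ?_, ?_, ?_⟩
  · have h1 := hF.mono hij
    have h2 := hF.mono (sub_le_sub_right hij 1)
    obtain ⟨h3, h3'⟩ := hu j
    obtain ⟨h4, h4'⟩ := hu (j - 1)
    have := pow_le_pow_left₀ (show 0 ≤ 1 - (F (j - 1) + F j) / 2 by linarith)
      (show 1 - (F (j - 1) + F j) / 2 ≤ 1 - (F (i - 1) + F i) / 2 by linarith) d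
    unfold Large.opA
    linarith
  · have h1 : Tendsto (fun k : ℤ => F (k - 1)) atBot (𝓝 0) :=
      hF.bot.comp (tendsto_atBot_add_const_right _ (-1) tendsto_id)
    have h2 := ((tendsto_const_nhds (x := (1 : ℝ))).sub
      (((tendsto_const_nhds (x := (1 : ℝ))).sub ((h1.add hF.bot).div_const 2)).pow d))
    unfold Large.opA
    simpa using h2
  · have h1 : Tendsto (fun k : ℤ => F (k - 1)) atTop (𝓝 1) :=
      hF.top.comp (tendsto_atTop_add_const_right _ (-1) tendsto_id)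
    have h2 := ((tendsto_const_nhds (x := (1 : ℝ))).sub
      (((tendsto_const_nhds (x := (1 : ℝ))).sub ((h1.add hF.top).div_const 2)).pow d))
    unfold Large.opA
    simpa [hd] using h2

theorem IsCDF.opB {F : ℤ → ℝ} (hF : IsCDF F) (hd : d ≠ 0) : IsCDF (opB d F) := by
  have hu := hF.unit
  refine ⟨fun i j hij => ?_, ?_, ?_⟩
  · have h1 := hF.mono hij
    have h2 := hF.mono (add_le_add_left hij 1)
    obtain ⟨h3, h3'⟩ := hu i
    obtain ⟨h4, h4'⟩ := hu (i + 1)
    unfold Large.opB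
    exact pow_le_pow_left₀ (by linarith) (by linarith) d
  · have h1 : Tendsto (fun k : ℤ => F (k + 1)) atBot (𝓝 0) :=
      hF.bot.comp (tendsto_atBot_add_const_right _ 1 tendsto_id)
    have h2 := ((hF.bot.add h1).div_const 2).pow d
    unfold Large.opB
    simpa [hd] using h2
  · have h1 : Tendsto (fun k : ℤ => F (k + 1)) atTop (𝓝 1) :=
      hF.top.comp (tendsto_atTop_add_const_right _ 1 tendsto_id)
    have h2 := ((hF.top.add h1).div_const 2).pow d
    unfold Large.opB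
    simpa using h2

theorem IsCDF.Psi {F : ℤ → ℝ} (hF : IsCDF F) (hd : d ≠ 0) : IsCDF (Psi d F) :=
  (hF.opA hd).opB hd

/-- Uniform limits of distribution functions. -/
theorem IsCDF.of_uniform {f : ℕ → ℤ → ℝ} {g : ℤ → ℝ} (hf : ∀ n, IsCDF (f n))
    (hu : ∀ ε > 0, ∃ n, ∀ k, |f n k - g k| ≤ ε) : IsCDF g := by
  refine ⟨fun i j hij => ?_, ?_, ?_⟩
  · refine le_of_forall_pos_le_add fun ε hε => ?_
    obtain ⟨n, hn⟩ := hu (ε / 2) (by positivity)
    have h1 := abs_le.1 (hn i)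
    have h2 := abs_le.1 (hn j)
    have h3 := (hf n).mono hij
    linarith
  · rw [Metric.tendsto_nhds]
    intro ε hε
    obtain ⟨n, hn⟩ := hu (ε / 2) (by positivity)
    have h1 := Metric.tendsto_nhds.1 (hf n).bot (ε / 2) (by positivity)
    filter_upwards [h1] with k hk
    rw [Real.dist_eq, sub_zero] at hk ⊢
    have h2 := hn k
    rw [abs_sub_comm] at h2
    calc |g k| = |(g k - f n k) + f n k| := by ring_nf
      _ ≤ _ := abs_add_le _ _
      _ < ε := by linarith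
  · rw [Metric.tendsto_nhds]
    intro ε hε
    obtain ⟨n, hn⟩ := hu (ε / 2) (by positivity)
    have h1 := Metric.tendsto_nhds.1 (hf n).top (ε / 2) (by positivity)
    filter_upwards [h1] with k hk
    rw [Real.dist_eq] at hk ⊢
    have h2 := hn k
    rw [abs_sub_comm] at h2
    calc |g k - 1| = |(g k - f n k) + (f n k - 1)| := by ring_nf
      _ ≤ _ := abs_add_le _ _
      _ < ε := by linarith

/-- Geometric convergence. -/
theorem exists_lim {f : ℕ → ℤ → ℝ} {q C : ℝ} (hq0 : 0 ≤ q) (hq : q < 1)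
    (h : ∀ n k, |f (n + 1) k - f n k| ≤ C * q ^ n) :
    ∃ g : ℤ → ℝ, (∀ k, Tendsto (fun n => f n k) atTop (𝓝 (g k))) ∧
      ∀ ε > 0, ∃ N, ∀ n ≥ N, ∀ k, |f n k - g k| ≤ ε := by
  have hd : ∀ k n, dist (f n k) (f (n + 1) k) ≤ C * q ^ n := fun k n => by
    rw [dist_comm, Real.dist_eq]
    exact h n k
  have hc : ∀ k, ∃ x, Tendsto (fun n => f n k) atTop (𝓝 x) := fun k =>
    cauchySeq_tendsto_of_complete (cauchySeq_of_le_geometric q C hq (hd k))
  choose g hg using hc
  refine ⟨g, hg, fun ε hε => ?_⟩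
  have h1 : Tendsto (fun n => C * q ^ n / (1 - q)) atTop (𝓝 0) := by
    have := ((tendsto_pow_atTop_nhds_zero_of_lt_one hq0 hq).const_mul C).div_const (1 - q)
    simpa using this
  obtain ⟨N, hN⟩ := eventually_atTop.1 (h1.eventually (gt_mem_nhds hε))
  refine ⟨N, fun n hn k => ?_⟩
  have := dist_le_of_le_geometric_of_tendsto q C hq (hd k) (hg k) n
  rw [Real.dist_eq] at this
  exact this.trans (hN n hn).le

/-! ### Contraction near the stable laws -/

theorem iter_unit {F : ℤ → ℝ} (hF : Unit' F) (n : ℕ) : Unit' ((Psi d)^[n] F) := by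
  induction n with
  | zero => exact hF
  | succ n ih => rw [iterate_succ_apply']; exact ih.Psi

theorem iter_lo (hd : Big d) {F : ℤ → ℝ} (hF : Unit' F) {s : ℤ} (h : Lo d s F) (n : ℕ) :
    Lo d s ((Psi d)^[n] F) := by
  induction n with
  | zero => exact h
  | succ n ih => rw [iterate_succ_apply']; exact ih.Psi hd (iter_unit hF n)

theorem iter_hi (hd : Big d) {F : ℤ → ℝ} (hF : Unit' F) {s : ℤ} (h : Hi d s F) (n : ℕ) :
    Hi d s ((Psi d)^[n] F) := by
  induction n with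
  | zero => exact h
  | succ n ih => rw [iterate_succ_apply']; exact ih.Psi hd (iter_unit hF n)

theorem iter_mid (hd : Big d) {F : ℤ → ℝ} (hF : Mid d F) (n : ℕ) : Mid d ((Psi d)^[n] F) :=
  ⟨iter_unit hF.u n, iter_lo hd hF.u hF.lo n, iter_hi hd hF.u hF.hi n⟩

theorem iter_cdf {F : ℤ → ℝ} (hF : IsCDF F) (hd : d ≠ 0) (n : ℕ) : IsCDF ((Psi d)^[n] F) := by
  induction n with
  | zero => exact hF
  | succ n ih => rw [iterate_succ_apply']; exact ih.Psi hd

theorem iter_lip {F G : ℤ → ℝ} (hF : Unit' F) (hG : Unit' G) {e : ℝ} (h : ∀ k, |F k - G k| ≤ e)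
    (n : ℕ) (k : ℤ) : |(Psi d)^[n] F k - (Psi d)^[n] G k| ≤ (d ^ 2) ^ n * e := by
  induction n generalizing k with
  | zero => simpa using h k
  | succ n ih =>
    rw [iterate_succ_apply', iterate_succ_apply']
    have := lip (d := d) (iter_unit hF n) (iter_unit hG n) ih k
    rw [pow_succ]
    linarith

theorem contract (hd : Big d) {F G : ℤ → ℝ} (hF : Unit' F) (hG : Unit' G) {s : ℤ}
    (lF : Lo d s F) (hhF : Hi d s F) (lG : Lo d s G) (hhG : Hi d s G) (n : ℕ) (k : ℤ) :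
    |(Psi d)^[n] F k - (Psi d)^[n] G k| ≤ 1 * Big.c d ^ n := by
  induction n generalizing k with
  | zero =>
    obtain ⟨h1, h1'⟩ := hF k
    obtain ⟨h2, h2'⟩ := hG k
    rw [pow_zero, mul_one, iterate_zero, id_eq, id_eq, abs_le]
    exact ⟨by linarith, by linarith⟩
  | succ n ih =>
    rw [iterate_succ_apply', iterate_succ_apply', pow_succ, one_mul, mul_comm]
    rw [one_mul] at ih
    rcases lt_or_ge k s with hk | hk
    · exact lip_lo hd (iter_unit hF n) (iter_unit hG n) (iter_lo hd hF lF n)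
        (iter_lo hd hG lG n) ih hk
    · exact lip_hi hd (iter_unit hF n) (iter_unit hG n) (iter_hi hd hF hhF n)
        (iter_hi hd hG hhG n) ih hk

/-- The initial distribution function: value `0` with probability `p`, value `2` otherwise. -/
noncomputable def F0 (p : ℝ) (k : ℤ) : ℝ := if k < 0 then 0 else if k = 0 then p else 1

theorem F0_unit {p : ℝ} (p0 : 0 ≤ p) (p1 : p ≤ 1) : Unit' (F0 p) := by
  intro k
  unfold F0
  split_ifs <;> constructor <;> linarith

theorem F0_mid (hd : Big d) {p : ℝ} (p0 : 0 ≤ p) (p1 : p ≤ 1) : Mid d (F0 p) := by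
  have hd5 := hd.dpos
  refine ⟨F0_unit p0 p1, fun k hk => ?_, fun k hk => ?_⟩
  · unfold F0
    rw [if_pos hk]
    positivity
  · unfold F0
    rw [if_neg (by omega), if_neg (by omega)]
    have : 0 < 1 / (d : ℝ) ^ 2 := by positivity
    linarith

theorem F0_cdf {p : ℝ} (p0 : 0 ≤ p) (p1 : p ≤ 1) : IsCDF (F0 p) := by
  refine ⟨fun i j hij => ?_, ?_, ?_⟩
  · unfold F0
    split_ifs <;> first | linarith | omega
  · refine tendsto_const_nhds.congr' ?_
    filter_upwards [eventually_lt_atBot (0 : ℤ)] with k hk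
    unfold F0
    rw [if_pos hk]
  · refine tendsto_const_nhds.congr' ?_
    filter_upwards [eventually_gt_atTop (0 : ℤ)] with k hk
    unfold F0
    rw [if_neg (by omega), if_neg (by omega)]

/-- The orbit of the initial distribution function. -/
noncomputable def orb (d : ℕ) (p : ℝ) (n : ℕ) : ℤ → ℝ := (Psi d)^[n] (F0 p)

theorem orb_add (p : ℝ) (n m : ℕ) : orb d p (n + m) = (Psi d)^[m] (orb d p n) := by
  unfold orb
  rw [← iterate_add_apply, add_comm]

theorem orb_succ (p : ℝ) (n : ℕ) : orb d p (n + 1) = Psi d (orb d p n) := by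
  unfold orb
  rw [iterate_succ_apply']

theorem F0_one_hi (hd : Big d) : Hi d 0 (F0 1) := by
  have hd5 := hd.dpos
  intro k hk
  have : 0 < 1 / (d : ℝ) ^ 2 := by positivity
  unfold F0
  rw [if_neg (by omega)]
  split_ifs <;> linarith

theorem exists_Linf (hd : Big d) : ∃ L : ℤ → ℝ,
    (∀ k, Tendsto (fun n => orb d 1 n k) atTop (𝓝 (L k))) ∧
      ∀ ε > 0, ∃ N, ∀ n ≥ N, ∀ k, |orb d 1 n k - L k| ≤ ε := by
  refine exists_lim (q := Big.c d) (C := 1) Big.c_nonneg (by linarith [hd.c_le]) fun n k => ?_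
  have hm := F0_mid hd (p := 1) zero_le_one le_rfl
  have h := contract hd (hm.u.Psi (d := d)) hm.u (s := 0) (hm.lo.Psi hd hm.u)
    ((F0_one_hi hd).Psi hd hm.u) hm.lo (F0_one_hi hd) n k
  rw [← iterate_succ_apply] at h
  exact h

/-- The limit for boundary values `0`. -/
noncomputable def Linf (d : ℕ) : ℤ → ℝ := by
  classical
  exact if h : Big d then (exists_Linf h).choose else 0

theorem Linf_spec (hd : Big d) : (∀ k, Tendsto (fun n => orb d 1 n k) atTop (𝓝 (Linf d k))) ∧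
      ∀ ε > 0, ∃ N, ∀ n ≥ N, ∀ k, |orb d 1 n k - Linf d k| ≤ ε := by
  classical
  unfold Linf
  rw [dif_pos hd]
  exact (exists_Linf hd).choose_spec

theorem Linf_cdf (hd : Big d) : IsCDF (Linf d) := by
  refine IsCDF.of_uniform (f := orb d 1) (fun n => iter_cdf (F0_cdf zero_le_one le_rfl)
    (by have := hd.h0; omega) n) fun ε hε => ?_
  obtain ⟨N, hN⟩ := (Linf_spec hd).2 ε hε
  exact ⟨N, hN N le_rfl⟩

theorem Linf_zero (hd : Big d) : 1 - 1 / (d : ℝ) ^ 2 ≤ Linf d 0 := by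
  refine ge_of_tendsto' ((Linf_spec hd).1 0) fun n => ?_
  exact iter_hi hd (F0_unit zero_le_one le_rfl) (F0_one_hi hd) n 0 le_rfl

theorem Linf_neg_one (hd : Big d) : Linf d (-1) ≤ 1 / (d : ℝ) ^ 2 := by
  refine le_of_tendsto' ((Linf_spec hd).1 (-1)) fun n => ?_
  exact (iter_mid hd (F0_mid hd zero_le_one le_rfl) n).lo (-1) (by norm_num)

theorem to_upper (hd : Big d) {F : ℤ → ℝ} (hF : Mid d F) (h : 1 / 32 ≤ F 0) (k : ℤ) :
    Tendsto (fun n => (Psi d)^[n] F k) atTop (𝓝 (Linf d k)) := by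
  have hm := F0_mid hd (p := 1) zero_le_one le_rfl
  have h1 : ∀ n, |(Psi d)^[n] (Psi d F) k - orb d 1 n k| ≤ 1 * Big.c d ^ n := fun n =>
    contract hd (hF.u.Psi (d := d)) hm.u (s := 0) (hF.lo.Psi hd hF.u) (hF.zoneA hd h) hm.lo
      (F0_one_hi hd) n k
  have h2 : Tendsto (fun n => 1 * Big.c d ^ n) atTop (𝓝 0) := by
    have := tendsto_pow_atTop_nhds_zero_of_lt_one (Big.c_nonneg (d := d))
      (by linarith [hd.c_le] : Big.c d < 1)
    simpa using this
  have h3 : Tendsto (fun n => (Psi d)^[n] (Psi d F) k - orb d 1 n k) atTop (𝓝 0) :=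
    squeeze_zero_norm (fun n => by rw [Real.norm_eq_abs]; exact h1 n) h2
  have h4 := h3.add ((Linf_spec hd).1 k)
  rw [zero_add] at h4
  have h5 : Tendsto (fun n => (Psi d)^[n + 1] F k) atTop (𝓝 (Linf d k)) := by
    refine h4.congr fun n => ?_
    rw [iterate_succ_apply]
    ring
  exact (tendsto_add_atTop_iff_nat (f := fun n => (Psi d)^[n] F k) 1).1 h5

/-- Shift. -/
def sh (F : ℤ → ℝ) (k : ℤ) : ℝ := F (k + 1)

theorem Psi_sh (F : ℤ → ℝ) : Psi d (sh F) = sh (Psi d F) := by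
  funext k
  simp only [Psi, opB, opA, sh]
  congr 2
  ring_nf

theorem iter_sh (F : ℤ → ℝ) (n : ℕ) : (Psi d)^[n] (sh F) = sh ((Psi d)^[n] F) := by
  induction n with
  | zero => rfl
  | succ n ih => rw [iterate_succ_apply', iterate_succ_apply', ih, Psi_sh]

theorem to_lower (hd : Big d) {F : ℤ → ℝ} (hF : Mid d F) (h : F 0 ≤ 8 / d) (k : ℤ) :
    Tendsto (fun n => (Psi d)^[n] F k) atTop (𝓝 (Linf d (k - 1))) := by
  have hm := F0_mid hd (p := 1) zero_le_one le_rfl
  have hl := hF.zoneB hd h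
  have hh := hF.hi.Psi hd hF.u
  have hu := hF.u.Psi (d := d)
  have h1 : ∀ n, |(Psi d)^[n] (sh (Psi d F)) (k - 1) - orb d 1 n (k - 1)| ≤
      1 * Big.c d ^ n := fun n =>
    contract hd (fun j => hu (j + 1)) hm.u (s := 0) (fun j hj => hl (j + 1) (by omega))
      (fun j hj => hh (j + 1) (by omega)) hm.lo (F0_one_hi hd) n (k - 1)
  have h2 : Tendsto (fun n => 1 * Big.c d ^ n) atTop (𝓝 0) := by
    have := tendsto_pow_atTop_nhds_zero_of_lt_one (Big.c_nonneg (d := d))
      (by linarith [hd.c_le] : Big.c d < 1)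
    simpa using this
  have h3 : Tendsto (fun n => (Psi d)^[n] (sh (Psi d F)) (k - 1) - orb d 1 n (k - 1)) atTop
      (𝓝 0) := squeeze_zero_norm (fun n => by rw [Real.norm_eq_abs]; exact h1 n) h2
  have h4 := h3.add ((Linf_spec hd).1 (k - 1))
  rw [zero_add] at h4
  have h5 : Tendsto (fun n => (Psi d)^[n + 1] F k) atTop (𝓝 (Linf d (k - 1))) := by
    refine h4.congr fun n => ?_
    rw [iter_sh, iterate_succ_apply]
    simp [sh]
  exact (tendsto_add_atTop_iff_nat (f := fun n => (Psi d)^[n] F k) 1).1 h5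

/-! ### The threshold -/

/-- Convergence to the upper state. -/
def S1 (d : ℕ) (p : ℝ) : Prop := ∀ k, Tendsto (fun n => orb d p n k) atTop (𝓝 (Linf d k))

/-- Convergence to the lower state. -/
def S0 (d : ℕ) (p : ℝ) : Prop := ∀ k, Tendsto (fun n => orb d p n k) atTop (𝓝 (Linf d (k - 1)))

theorem S1_of (hd : Big d) {p : ℝ} (p0 : 0 ≤ p) (p1 : p ≤ 1) {n : ℕ}
    (h : 1 / 32 ≤ orb d p n 0) : S1 d p := by
  intro k
  have h1 := to_upper hd (iter_mid hd (F0_mid hd p0 p1) n) h k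
  refine (tendsto_add_atTop_iff_nat (f := fun m => orb d p m k) n).1 ?_
  refine h1.congr fun m => ?_
  rw [add_comm m n, orb_add]
  rfl

theorem S0_of (hd : Big d) {p : ℝ} (p0 : 0 ≤ p) (p1 : p ≤ 1) {n : ℕ}
    (h : orb d p n 0 ≤ 8 / d) : S0 d p := by
  intro k
  have h1 := to_lower hd (iter_mid hd (F0_mid hd p0 p1) n) h k
  refine (tendsto_add_atTop_iff_nat (f := fun m => orb d p m k) n).1 ?_
  refine h1.congr fun m => ?_
  rw [add_comm m n, orb_add]
  rfl

theorem small_bound (hd : Big d) : 1 / (d : ℝ) ^ 2 ≤ 1 / 25 := by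
  have hd5 := hd.dpos
  apply one_div_le_one_div_of_le (by norm_num)
  nlinarith

theorem not_S1_S0 (hd : Big d) {p : ℝ} (h1 : S1 d p) (h0 : S0 d p) : False := by
  have h2 := tendsto_nhds_unique (h1 0) (h0 0)
  have h3 := Linf_zero hd
  have h4 := Linf_neg_one hd
  have h5 := small_bound hd
  rw [h2, zero_sub] at h3
  linarith

theorem orb_mono {p q : ℝ} (p0 : 0 ≤ p) (hpq : p ≤ q) (q1 : q ≤ 1) (n : ℕ) (k : ℤ) :
    orb d p n k ≤ orb d q n k := by
  induction n generalizing k with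
  | zero =>
    show F0 p k ≤ F0 q k
    unfold F0
    split_ifs <;> linarith
  | succ n ih =>
    rw [orb_succ, orb_succ]
    exact Psi_mono (iter_unit (F0_unit p0 (hpq.trans q1)) n)
      (iter_unit (F0_unit (p0.trans hpq) q1) n) ih k

/-- **The dichotomy.** -/
theorem dichotomy (hd : Big d) {p q : ℝ} (p0 : 0 ≤ p) (hpq : p < q) (q1 : q ≤ 1) :
    S1 d q ∨ S0 d p := by
  by_contra hcon
  push Not at hcon
  obtain ⟨hq, hp⟩ := hcon
  have hp' : ∀ n, 8 / (d : ℝ) ≤ orb d p n 0 := fun n => by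
    by_contra h
    exact hp (S0_of hd p0 (hpq.le.trans q1) (not_le.1 h).le)
  have hq' : ∀ n, orb d q n 0 < 1 / 32 := fun n => by
    by_contra h
    exact hq (S1_of hd (p0.trans hpq.le) q1 (not_lt.1 h))
  have hmq := fun n => iter_mid hd (F0_mid hd (p0.trans hpq.le) q1) n
  have hmp := fun n => iter_mid hd (F0_mid hd p0 (hpq.le.trans q1)) n
  have hw : ∀ n, 2 / (d : ℝ) ≤ (1 - (orb d q n (-1) + orb d q n 0) / 2) ^ d := fun n => by
    by_contra h
    have := (hmq n).zoneW hd (not_le.1 h).le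
    have h2 := hq' (n + 1)
    rw [orb_succ] at h2
    have h3 : (1 : ℝ) / 16 ≤ Psi d (orb d q n) 0 := this
    linarith
  have hgrow : ∀ n, 4 ^ n * (q - p) ≤ orb d q n 0 - orb d p n 0 := by
    intro n
    induction n with
    | zero => simp [orb, F0]
    | succ n ih =>
      have h1 := expand hd (hmp n).u (hmq n).u (δ := orb d q n 0 - orb d p n 0) (η := 0)
        (by have := hp' (n + 1); rw [orb_succ] at this; exact this) (hw n) le_rfl
        (by have := orb_mono (d := d) p0 hpq.le q1 n (-1)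
            show -0 ≤ orb d q n (-1) - orb d p n (-1)
            linarith)
        (by have := orb_mono (d := d) p0 hpq.le q1 n 1
            show -0 ≤ orb d q n 1 - orb d p n 1
            linarith)
        (by have := orb_mono (d := d) p0 hpq.le q1 n 0
            linarith)
      rw [orb_succ, orb_succ, pow_succ]
      have h2 : 4 * (orb d q n 0 - orb d p n 0 - 0) ≤
        Psi d (orb d q n) 0 - Psi d (orb d p n) 0 := h1
      linarith
  obtain ⟨n, hn⟩ := pow_unbounded_of_one_lt (1 / (q - p)) (show (1 : ℝ) < 4 by norm_num)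
  have h1 := hgrow n
  have h2 : 1 < 4 ^ n * (q - p) := by
    rwa [div_lt_iff₀ (by linarith)] at hn
  have h3 := ((hmq n).u 0).2
  have h4 := ((hmp n).u 0).1
  have h5 : orb d q n 0 ≤ 1 := h3
  have h6 : 0 ≤ orb d p n 0 := h4
  linarith

/-- **Existence of the threshold.** -/
theorem exists_threshold (hd : Big d) : ∃ pc : ℝ, 0 < pc ∧ pc < 1 ∧
    (∀ p, 0 ≤ p → p < pc → S0 d p) ∧ ∀ p, pc < p → p ≤ 1 → S1 d p := by
  have hd5 := hd.dpos
  obtain ⟨pc, hpc⟩ : ∃ pc, pc = sInf {p | 0 ≤ p ∧ p ≤ 1 ∧ S1 d p} := ⟨_, rfl⟩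
  have hbdd : BddBelow {p | 0 ≤ p ∧ p ≤ 1 ∧ S1 d p} := ⟨0, fun p hp => hp.1⟩
  have h32 : S1 d (1 / 32) := S1_of hd (by norm_num) (by norm_num) (n := 0) (by
    simp [orb, F0])
  have hne : (1 / 32 : ℝ) ∈ {p | 0 ≤ p ∧ p ≤ 1 ∧ S1 d p} := ⟨by norm_num, by norm_num, h32⟩
  have hlow : ∀ p ∈ {p | 0 ≤ p ∧ p ≤ 1 ∧ S1 d p}, 8 / (d : ℝ) ≤ p := by
    rintro p ⟨p0, p1, hp⟩
    by_contra h
    exact not_S1_S0 hd hp (S0_of hd p0 p1 (n := 0) (by simpa [orb, F0] using (not_le.1 h).le))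
  refine ⟨pc, ?_, ?_, ?_, ?_⟩
  · have : 8 / (d : ℝ) ≤ pc := by
      rw [hpc]
      exact le_csInf ⟨_, hne⟩ hlow
    exact lt_of_lt_of_le (by positivity) this
  · have : pc ≤ 1 / 32 := by
      rw [hpc]
      exact csInf_le hbdd hne
    linarith
  · intro p p0 hp
    have hpc1 : pc ≤ 1 := by
      rw [hpc]
      exact (csInf_le hbdd hne).trans (by norm_num)
    rcases dichotomy hd p0 (show p < (p + pc) / 2 by linarith) (by linarith) with h | h
    · exfalso
      have : pc ≤ (p + pc) / 2 := by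
        conv_lhs => rw [hpc]
        exact csInf_le hbdd ⟨by linarith, by linarith, h⟩
      linarith
    · exact h
  · intro p hp p1
    rw [hpc] at hp
    obtain ⟨q, ⟨q0, q1, hq⟩, hqp⟩ := exists_lt_of_csInf_lt ⟨_, hne⟩ hp
    rcases dichotomy hd q0 hqp p1 with h | h
    · exact h
    · exact (not_S1_S0 hd hq h).elim

/-- At the threshold the orbit stays in the middle zone. -/
theorem crit_mid (hd : Big d) {pc : ℝ} (c0 : 0 < pc) (c1 : pc < 1)
    (h0 : ∀ p, 0 ≤ p → p < pc → S0 d p) (h1 : ∀ p, pc < p → p ≤ 1 → S1 d p) (n : ℕ) :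
    8 / (d : ℝ) ≤ orb d pc n 0 ∧ orb d pc n 0 ≤ 1 / 32 := by
  have hd5 := hd.dpos
  have hlip : ∀ p, 0 ≤ p → p ≤ 1 → |orb d p n 0 - orb d pc n 0| ≤ (d ^ 2) ^ n * |p - pc| :=
    fun p p0 p1 => iter_lip (F0_unit p0 p1) (F0_unit c0.le c1.le) (fun k => by
      unfold F0
      split_ifs <;> simp) n 0
  have hK : (0 : ℝ) < ((d : ℝ) ^ 2) ^ n := by positivity
  constructor
  · by_contra h
    push Not at h
    obtain ⟨e, he⟩ : ∃ e, e = min ((8 / (d : ℝ) - orb d pc n 0) / ((d : ℝ) ^ 2) ^ n) (1 - pc) :=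
      ⟨_, rfl⟩
    have he0 : 0 < e := by
      rw [he]
      exact lt_min (div_pos (by linarith) hK) (by linarith)
    have he1 : e ≤ 1 - pc := by rw [he]; exact min_le_right _ _
    have he2 : ((d : ℝ) ^ 2) ^ n * e ≤ 8 / (d : ℝ) - orb d pc n 0 := by
      have : e ≤ (8 / (d : ℝ) - orb d pc n 0) / ((d : ℝ) ^ 2) ^ n := by
        rw [he]; exact min_le_left _ _
      rwa [le_div_iff₀ hK, mul_comm] at this
    have h2 := hlip (pc + e) (by linarith) (by linarith)
    rw [add_sub_cancel_left, abs_of_pos he0] at h2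
    have h3 := (abs_le.1 h2).2
    exact not_S1_S0 hd (h1 (pc + e) (by linarith) (by linarith))
      (S0_of hd (by linarith) (by linarith) (n := n) (by linarith))
  · by_contra h
    push Not at h
    obtain ⟨e, he⟩ : ∃ e, e = min ((orb d pc n 0 - 1 / 32) / ((d : ℝ) ^ 2) ^ n) pc :=
      ⟨_, rfl⟩
    have he0 : 0 < e := by
      rw [he]
      exact lt_min (div_pos (by linarith) hK) c0
    have he1 : e ≤ pc := by rw [he]; exact min_le_right _ _
    have he2 : ((d : ℝ) ^ 2) ^ n * e ≤ orb d pc n 0 - 1 / 32 := by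
      have : e ≤ (orb d pc n 0 - 1 / 32) / ((d : ℝ) ^ 2) ^ n := by
        rw [he]; exact min_le_left _ _
      rwa [le_div_iff₀ hK, mul_comm] at this
    have h2 := hlip (pc - e) (by linarith) (by linarith)
    rw [show pc - e - pc = -e by ring, abs_neg, abs_of_pos he0] at h2
    have h3 := (abs_le.1 h2).1
    exact not_S1_S0 hd (S1_of hd (by linarith) (by linarith) (n := n) (by linarith))
      (h0 (pc - e) (by linarith) (by linarith))

/-! ### Convergence at the threshold -/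

section Cone

variable {f : ℕ → ℤ → ℝ}

theorem diff_off (hd : Big d) (hf : ∀ n, f (n + 1) = Psi d (f n)) (hM : ∀ n, Mid d (f n))
    (n : ℕ) {e : ℝ} (h : ∀ k, |f (n + 1) k - f n k| ≤ e) {k : ℤ} (hk : k ≠ 0) :
    |f (n + 1 + 1) k - f (n + 1) k| ≤ Big.c d * e := by
  rw [hf (n + 1)]
  conv_lhs => rw [hf n]
  have e1 : Psi d (f n) = f (n + 1) := (hf n).symm
  rw [e1]
  have h' : |Psi d (f (n + 1)) k - Psi d (f n) k| ≤ Big.c d * e := by
    rcases lt_or_gt_of_ne hk with hk | hk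
    · exact lip_lo hd (hM _).u (hM _).u (hM _).lo (hM _).lo h hk
    · exact lip_hi hd (hM _).u (hM _).u (hM _).hi (hM _).hi h (by omega)
  rwa [e1] at h'

theorem diff_mid (hd : Big d) (hf : ∀ n, f (n + 1) = Psi d (f n)) (hM : ∀ n, Mid d (f n))
    (hl : ∀ n, 8 / (d : ℝ) ≤ f n 0) (hu : ∀ n, f n 0 ≤ 1 / 32) (n : ℕ) {η : ℝ}
    (h : ∀ k, k ≠ 0 → |f (n + 1) k - f n k| ≤ η) (h2 : η ≤ |f (n + 1) 0 - f n 0|) :
    4 * (|f (n + 1) 0 - f n 0| - η) ≤ |f (n + 1 + 1) 0 - f (n + 1) 0| := by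
  have hw : ∀ n, 2 / (d : ℝ) ≤ (1 - (f n (-1) + f n 0) / 2) ^ d := fun n => by
    by_contra h
    have := (hM n).zoneW hd (not_le.1 h).le
    have h2 := hu (n + 1)
    rw [hf] at h2
    linarith
  have hm := abs_le.1 (h (-1) (by norm_num))
  have hp := abs_le.1 (h 1 (by norm_num))
  rcases le_total (f n 0) (f (n + 1) 0) with h3 | h3
  · have h4 : |f (n + 1) 0 - f n 0| = f (n + 1) 0 - f n 0 := abs_of_nonneg (by linarith)
    rw [h4] at h2 ⊢
    have := expand hd (hM n).u (hM (n + 1)).u (δ := f (n + 1) 0 - f n 0) (η := η)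
      (by rw [← hf]; exact hl _) (hw _) le_rfl hm.1 hp.1 h2
    rw [← hf, ← hf] at this
    exact this.trans (le_abs_self _)
  · have h4 : |f (n + 1) 0 - f n 0| = f n 0 - f (n + 1) 0 := by
      rw [abs_sub_comm]; exact abs_of_nonneg (by linarith)
    rw [h4] at h2 ⊢
    have := expand hd (hM (n + 1)).u (hM n).u (δ := f n 0 - f (n + 1) 0) (η := η)
      (by rw [← hf]; exact hl _) (hw _) le_rfl (by linarith [hm.2]) (by linarith [hp.2]) h2
    rw [← hf, ← hf] at this
    rw [abs_sub_comm]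
    exact this.trans (le_abs_self _)

theorem cone_contra (hd : Big d) (hf : ∀ n, f (n + 1) = Psi d (f n)) (hM : ∀ n, Mid d (f n))
    (hl : ∀ n, 8 / (d : ℝ) ≤ f n 0) (hu : ∀ n, f n 0 ≤ 1 / 32) (m : ℕ) {η : ℝ} (hη : 0 ≤ η)
    (h : ∀ k, k ≠ 0 → |f (m + 1) k - f m k| ≤ η) : |f (m + 1) 0 - f m 0| ≤ 2 * η := by
  by_contra hcon
  push Not at hcon
  have hind : ∀ j : ℕ, ∃ η' : ℝ, 0 ≤ η' ∧ (∀ k, k ≠ 0 → |f (m + j + 1) k - f (m + j) k| ≤ η') ∧
      2 * η' < |f (m + j + 1) 0 - f (m + j) 0| ∧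
      2 ^ j * |f (m + 1) 0 - f m 0| ≤ |f (m + j + 1) 0 - f (m + j) 0| := by
    intro j
    induction j with
    | zero => exact ⟨η, hη, h, hcon, by simp⟩
    | succ j ih =>
      obtain ⟨η', h0, h1, h2, h3⟩ := ih
      obtain ⟨D, hD⟩ : ∃ D, D = |f (m + j + 1) 0 - f (m + j) 0| := ⟨_, rfl⟩
      rw [← hD] at h2 h3
      have hall : ∀ k, |f (m + j + 1) k - f (m + j) k| ≤ D := fun k => by
        by_cases hk : k = 0
        · subst hk; exact hD.ge
        · exact (h1 k hk).trans (by linarith)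
      have h4 := diff_mid hd hf hM hl hu (m + j) h1 (by rw [← hD]; linarith)
      rw [← hD] at h4
      have hc := hd.c_le
      refine ⟨Big.c d * D, mul_nonneg Big.c_nonneg (by linarith),
        fun k hk => diff_off hd hf hM (m + j) hall hk, ?_, ?_⟩
      · rw [← add_assoc]
        nlinarith
      · rw [← add_assoc, pow_succ]
        nlinarith
  have hpos : 0 < |f (m + 1) 0 - f m 0| := by linarith
  obtain ⟨j, hj⟩ := pow_unbounded_of_one_lt (1 / |f (m + 1) 0 - f m 0|)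
    (show (1 : ℝ) < 2 by norm_num)
  rw [div_lt_iff₀ hpos] at hj
  obtain ⟨η', _, _, _, h3⟩ := hind j
  obtain ⟨a, a'⟩ := (hM (m + j + 1)).u 0
  obtain ⟨b, b'⟩ := (hM (m + j)).u 0
  have : |f (m + j + 1) 0 - f (m + j) 0| ≤ 1 := by
    rw [abs_le]; constructor <;> linarith
  linarith

theorem cone (hd : Big d) (hf : ∀ n, f (n + 1) = Psi d (f n)) (hM : ∀ n, Mid d (f n))
    (hl : ∀ n, 8 / (d : ℝ) ≤ f n 0) (hu : ∀ n, f n 0 ≤ 1 / 32) (n : ℕ) :
    (∀ k, k ≠ 0 → |f (n + 1) k - f n k| ≤ (1 / 6) ^ n) ∧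
      |f (n + 1) 0 - f n 0| ≤ 2 * (1 / 6) ^ n := by
  induction n with
  | zero =>
    have : ∀ k, |f (0 + 1) k - f 0 k| ≤ 1 := fun k => by
      obtain ⟨a, a'⟩ := (hM (0 + 1)).u k
      obtain ⟨b, b'⟩ := (hM 0).u k
      rw [abs_le]; constructor <;> linarith
    refine ⟨fun k _ => by simpa using this k, ?_⟩
    have := this 0
    norm_num at this ⊢
    linarith
  | succ n ih =>
    obtain ⟨h1, h2⟩ := ih
    have hall : ∀ k, |f (n + 1) k - f n k| ≤ 2 * (1 / 6) ^ n := fun k => by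
      by_cases hk : k = 0
      · subst hk; exact h2
      · have := h1 k hk
        have : (0 : ℝ) ≤ (1 / 6) ^ n := by positivity
        linarith
    have h3 : ∀ k, k ≠ 0 → |f (n + 1 + 1) k - f (n + 1) k| ≤ (1 / 6) ^ (n + 1) := by
      intro k hk
      refine (diff_off hd hf hM n hall hk).trans ?_
      have hc := hd.c_le
      have : (0 : ℝ) ≤ (1 / 6) ^ n := by positivity
      rw [pow_succ]
      nlinarith
    exact ⟨h3, cone_contra hd hf hM hl hu (n + 1) (by positivity) h3⟩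

end Cone

theorem continuous_Psi : Continuous (Psi d) := by
  unfold Psi opB opA
  fun_prop

/-- **Convergence at the threshold**, to an unstable fixed point. -/
theorem crit_conv (hd : Big d) {pc : ℝ} (c0 : 0 < pc) (c1 : pc < 1)
    (h0 : ∀ p, 0 ≤ p → p < pc → S0 d p) (h1 : ∀ p, pc < p → p ≤ 1 → S1 d p) :
    ∃ F : ℤ → ℝ, IsCDF F ∧ (∀ k, Tendsto (fun n => orb d pc n k) atTop (𝓝 (F k))) ∧
      (∀ ε > 0, ∃ N, ∀ n ≥ N, ∀ k, |orb d pc n k - F k| ≤ ε) ∧ Psi d F = F ∧
      8 / (d : ℝ) ≤ F 0 ∧ F 0 ≤ 1 / 32 := by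
  have hd5 := hd.dpos
  have hmid := crit_mid hd c0 c1 h0 h1
  have hcone := cone hd (f := orb d pc) (fun n => orb_succ pc n)
    (fun n => iter_mid hd (F0_mid hd c0.le c1.le) n) (fun n => (hmid n).1) (fun n => (hmid n).2)
  have hstep : ∀ n k, |orb d pc (n + 1) k - orb d pc n k| ≤ 2 * (1 / 6) ^ n := fun n k => by
    by_cases hk : k = 0
    · subst hk; exact (hcone n).2
    · have := (hcone n).1 k hk
      have : (0 : ℝ) ≤ (1 / 6) ^ n := by positivity
      linarith
  obtain ⟨F, hF, hFu⟩ := exists_lim (by norm_num) (by norm_num) hstep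
  have hcdf : IsCDF F := by
    refine IsCDF.of_uniform (f := orb d pc) (fun n => iter_cdf (F0_cdf c0.le c1.le)
      (by have := hd.h0; omega) n) fun ε hε => ?_
    obtain ⟨N, hN⟩ := hFu ε hε
    exact ⟨N, hN N le_rfl⟩
  refine ⟨F, hcdf, hF, hFu, ?_, ge_of_tendsto' (hF 0) fun n => (hmid n).1,
    le_of_tendsto' (hF 0) fun n => (hmid n).2⟩
  have h2 : Tendsto (orb d pc) atTop (𝓝 F) := tendsto_pi_nhds.2 hF
  have h3 : Tendsto (fun n => orb d pc (n + 1)) atTop (𝓝 F) :=
    h2.comp (tendsto_add_atTop_nat 1)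
  have h4 : Tendsto (fun n => Psi d (orb d pc n)) atTop (𝓝 (Psi d F)) :=
    (continuous_Psi.tendsto F).comp h2
  exact tendsto_nhds_unique (h4.congr fun n => (orb_succ pc n).symm) h3

end Q288.MinMax.Large
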