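import Mathlib
import Pool.Agent.Q288.MinMax.Law
import Pool.Agent.Q288.MinMax.Large2

/-!
# The game with random boundary values `0` (probability `p`) and `2` (probability `1 - p`)
-/

namespace Q288.MinMax.Large

open MeasureTheory ProbabilityTheory Filter Topology Set

/-- The law of a boundary value: `0` with probability `p` and `2` with probability `1 - p`. -/
noncomputable def bdry (p : ℝ) : Measure ℤ :=
  ENNReal.ofReal p • Measure.dirac 0 + ENNReal.ofReal (1 - p) • Measure.dirac 2

theorem bdry_prob {p : ℝ} (p0 : 0 ≤ p) (p1 : p ≤ 1) : IsProbabilityMeasure (bdry p) := by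
  refine ⟨?_⟩
  unfold bdry
  simp only [Measure.coe_add, Measure.coe_smul, Pi.add_apply, Pi.smul_apply, measure_univ,
    smul_eq_mul, mul_one]
  rw [← ENNReal.ofReal_add p0 (by linarith)]
  simp

theorem bdry_Iic {p : ℝ} (p0 : 0 ≤ p) (p1 : p ≤ 1) (j : ℤ) :
    (bdry p).real (Iic j) = F0 p (j / 2) := by
  unfold bdry F0
  rw [measureReal_def]
  simp only [Measure.coe_add, Measure.coe_smul, Pi.add_apply, Pi.smul_apply, smul_eq_mul,
    Measure.dirac_apply' _ measurableSet_Iic, indicator, mem_Iic, Pi.one_apply]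
  by_cases h1 : j / 2 < 0
  · rw [if_pos h1, if_neg (by omega), if_neg (by omega)]
    simp
  · rw [if_neg h1]
    by_cases h2 : j / 2 = 0
    · rw [if_pos h2, if_pos (by omega), if_neg (by omega)]
      simp [ENNReal.toReal_ofReal p0]
    · rw [if_neg h2, if_pos (by omega), if_pos (by omega), mul_one, mul_one,
        ← ENNReal.ofReal_add p0 (by linarith)]
      simp

variable {d : ℕ}

/-- The recursion for the distribution function of the root value. -/
theorem cdfv_gen [NeZero d] (ν : Measure ℤ) [IsProbabilityMeasure ν] (f : ℤ → ℝ)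
    (hf : ∀ j, ν.real (Iic j) = f (j / 2)) (n : ℕ) (j : ℤ) :
    cdfv d ν (2 * n) j = (Psi d)^[n] f (j / 2) := by
  induction n generalizing j with
  | zero => rw [mul_zero, cdfv_zero, hf]; rfl
  | succ n ih =>
    have ho : ¬ Even (2 * n + 1) := by
      rw [Nat.not_even_iff_odd]
      exact ⟨n, rfl⟩
    have he : Even (2 * n + 1 + 1) := ⟨n + 1, by ring⟩
    have ha : ∀ i, cdfv d ν (2 * n + 1) i = opA d ((Psi d)^[n] f) ((i + 1) / 2) := by
      intro i
      rw [cdfv_odd _ _ _ ho, ih, ih]
      unfold opA
      rw [show (i - 1) / 2 = (i + 1) / 2 - 1 by omega]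
    rw [show 2 * (n + 1) = 2 * n + 1 + 1 by ring, cdfv_even _ _ _ he, ha, ha,
      Function.iterate_succ_apply']
    show _ = opB d (opA d _) (j / 2)
    unfold opB
    rw [show (j - 1 + 1) / 2 = j / 2 by omega, show (j + 1 + 1) / 2 = j / 2 + 1 by omega]

theorem cdfv_bdry [NeZero d] {p : ℝ} (p0 : 0 ≤ p) (p1 : p ≤ 1) (n : ℕ) (j : ℤ) :
    cdfv d (bdry p) (2 * n) j = orb d p n (j / 2) := by
  have := bdry_prob p0 p1
  exact cdfv_gen (bdry p) (F0 p) (bdry_Iic p0 p1) n j

/-- The cookies `X v` (on the edge between `v` and its parent) are fair signs, the boundary values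
`B v` are `0` with probability `p` and `2` with probability `1 - p`, and everything is
independent. -/
structure Model (d : ℕ) (p : ℝ) {Ω : Type*} [MeasurableSpace Ω] (P : Measure Ω)
    (X B : List (Fin d) → Ω → ℤ) : Prop where
  measX : ∀ v, Measurable (X v)
  measB : ∀ v, Measurable (B v)
  indep : iIndepFun (fun v ω => (X v ω, B v ω)) P
  indep' : ∀ v, IndepFun (X v) (B v) P
  pos : ∀ v, P {ω | X v ω = 1} = 1 / 2
  neg : ∀ v, P {ω | X v ω = -1} = 1 / 2
  zero : ∀ v, P {ω | B v ω = 0} = ENNReal.ofReal p
  two : ∀ v, P {ω | B v ω = 2} = ENNReal.ofReal (1 - p)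

/-- The value of the game with `2 n` moves, cookies `X` and boundary values `B`. -/
def V {d : ℕ} [NeZero d] (n : ℕ) (X B : List (Fin d) → ℤ) : ℤ := value X B (2 * n) []

theorem bdry_law {Ω : Type*} [MeasurableSpace Ω] (P : Measure Ω) [IsProbabilityMeasure P]
    {p : ℝ} (p0 : 0 ≤ p) (p1 : p ≤ 1)
    (B : Ω → ℤ) (hB : Measurable B) (h1 : P {ω | B ω = 0} = ENNReal.ofReal p)
    (h2 : P {ω | B ω = 2} = ENNReal.ofReal (1 - p)) : P.map B = bdry p := by
  refine Measure.ext_of_singleton fun s => ?_
  rw [Measure.map_apply hB (measurableSet_singleton s)]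
  unfold bdry
  simp only [Measure.coe_add, Measure.coe_smul, Pi.add_apply, Pi.smul_apply, smul_eq_mul,
    Measure.dirac_apply' _ (measurableSet_singleton s), indicator, mem_singleton_iff,
    Pi.one_apply]
  by_cases e1 : s = 0
  · subst e1
    simp only [if_true]
    rw [if_neg (by norm_num)]
    simp only [mul_one, mul_zero, add_zero]
    exact h1
  · by_cases e3 : s = 2
    · subst e3
      simp only [if_true]
      rw [if_neg (by norm_num)]
      simp only [mul_one, mul_zero, zero_add]
      exact h2
    · rw [if_neg (fun h => e1 h.symm), if_neg (fun h => e3 h.symm)]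
      simp only [mul_zero, add_zero]
      have hA : MeasurableSet {ω | B ω = 0} := hB (measurableSet_singleton 0)
      have hB' : MeasurableSet {ω | B ω = 2} := hB (measurableSet_singleton 2)
      have hd : Disjoint {ω | B ω = 0} {ω | B ω = 2} := by
        rw [Set.disjoint_left]
        intro ω h h'
        simp only [Set.mem_ofPred_eq] at h h'
        omega
      have hu : P ({ω | B ω = 0} ∪ {ω | B ω = 2}) = 1 := by
        rw [measure_union hd hB', h1, h2, ← ENNReal.ofReal_add p0 (by linarith)]
        simp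
      have h0 : P ({ω | B ω = 0} ∪ {ω | B ω = 2})ᶜ = 0 := by
        rw [prob_compl_eq_zero_iff (hA.union hB')]
        exact hu
      refine measure_mono_null (fun ω hω => ?_) h0
      simp only [Set.mem_preimage, Set.mem_singleton_iff] at hω
      simp only [Set.mem_compl_iff, Set.mem_union, Set.mem_ofPred_eq, hω, not_or]
      exact ⟨e1, e3⟩

theorem Model.range {p : ℝ} {Ω : Type*} [MeasurableSpace Ω] {P : Measure Ω}
    [IsProbabilityMeasure P] {X B : List (Fin d) → Ω → ℤ} (h : Model d p P X B) :
    0 ≤ p ∧ p ≤ 1 := by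
  have h1 : ENNReal.ofReal p ≤ 1 := by rw [← h.zero []]; exact prob_le_one
  have h2 : ENNReal.ofReal (1 - p) ≤ 1 := by rw [← h.two []]; exact prob_le_one
  rw [ENNReal.ofReal_le_one] at h1 h2
  exact ⟨by linarith, h1⟩

theorem Model.meas [NeZero d] {p : ℝ} {Ω : Type*} [MeasurableSpace Ω] {P : Measure Ω}
    {X B : List (Fin d) → Ω → ℤ} (h : Model d p P X B) (n : ℕ) :
    Measurable fun ω => V n (fun v => X v ω) (fun v => B v ω) :=
  (measurable_value (d := d) (2 * n) []).comp
    (measurable_pi_iff.2 fun v => (h.measX v).prodMk (h.measB v) :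
      Measurable fun (ω : Ω) (v : List (Fin d)) => (X v ω, B v ω))

theorem Model.cdf [NeZero d] {p : ℝ} {Ω : Type*} [MeasurableSpace Ω] {P : Measure Ω}
    [IsProbabilityMeasure P] {X B : List (Fin d) → Ω → ℤ} (h : Model d p P X B) (n : ℕ) (j : ℤ) :
    (P.map fun ω => V n (fun v => X v ω) (fun v => B v ω)).real (Iic j) =
      orb d p n (j / 2) := by
  obtain ⟨p0, p1⟩ := h.range
  have hp := bdry_prob p0 p1
  rw [map_measureReal_apply (h.meas n) measurableSet_Iic, ← cdfv_bdry p0 p1]
  refine value_law P (bdry p) X B h.measX h.measB h.indep (fun v => ?_) (2 * n) j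
  rw [(indepFun_iff_map_prod_eq_prod_map_map (h.measX v).aemeasurable
    (h.measB v).aemeasurable).1 (h.indep' v), sign_law P (X v) (h.measX v) (h.pos v) (h.neg v),
    bdry_law P p0 p1 (B v) (h.measB v) (h.zero v) (h.two v)]

/-- The law of `V_n` for the model. -/
theorem Model.isProb [NeZero d] {p : ℝ} {Ω : Type*} [MeasurableSpace Ω] {P : Measure Ω}
    [IsProbabilityMeasure P] {X B : List (Fin d) → Ω → ℤ} (h : Model d p P X B) (n : ℕ) :
    IsProbabilityMeasure (P.map fun ω => V n (fun v => X v ω) (fun v => B v ω)) :=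
  Measure.isProbabilityMeasure_map (h.meas n).aemeasurable

/-- A probability measure on `ℤ` with distribution function `j ↦ f ⌊j / 2⌋`. -/
theorem exists_law_two {f : ℤ → ℝ} (hf : IsCDF f) :
    ∃ μ : ProbabilityMeasure ℤ, ∀ j : ℤ, (μ : Measure ℤ).real (Iic j) = f (j / 2) := by
  refine exists_law _ (fun i j hij => hf.mono (Int.ediv_le_ediv (by norm_num) hij)) ?_ ?_
  · refine hf.bot.comp (tendsto_atBot.2 fun b => ?_)
    filter_upwards [eventually_le_atBot (2 * b)] with j hj
    omega
  · refine hf.top.comp (tendsto_atTop.2 fun b => ?_)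
    filter_upwards [eventually_ge_atTop (2 * b)] with j hj
    omega

/-- Convergence in distribution from pointwise convergence of the distribution functions. -/
theorem Model.tendsto [NeZero d] {p : ℝ} {Ω : Type*} [MeasurableSpace Ω] {P : Measure Ω}
    [IsProbabilityMeasure P] {X B : List (Fin d) → Ω → ℤ} (h : Model d p P X B)
    (μ : ProbabilityMeasure ℤ) (g : ℤ → ℤ) (f : ℤ → ℝ)
    (hμ : ∀ j : ℤ, (μ : Measure ℤ).real (g ⁻¹' Iic j) = f (j / 2))
    (hf : ∀ k, Tendsto (fun n => orb d p n k) atTop (𝓝 (f k))) :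
    TendstoInDistribution (fun n ω => V n (fun v => X v ω) (fun v => B v ω)) atTop g
      (fun _ => P) (μ : Measure ℤ) := by
  refine ⟨fun n => (h.meas n).aemeasurable, measurable_from_top.aemeasurable, ?_⟩
  refine tendsto_of_cdf fun j => ?_
  have e2 : ((μ : Measure ℤ).map g).real (Iic j) = f (j / 2) := by
    rw [map_measureReal_apply measurable_from_top measurableSet_Iic, hμ]
  simp only [ProbabilityMeasure.coe_mk]
  rw [e2]
  exact (tendsto_congr fun n => h.cdf n j).2 (hf (j / 2))

/-- The canonical space carries a model: configurations with the product law. -/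
theorem canonical (d : ℕ) {p : ℝ} (p0 : 0 ≤ p) (p1 : p ≤ 1) :
    Model d p (claw d (bdry p)) (fun v ω => sgn (ω v).1) (fun v ω => (ω v).2) := by
  have hp := bdry_prob p0 p1
  have hm : ∀ v : List (Fin d), Measurable fun ω : Conf d => ω v := fun v => by fun_prop
  have h0 : ∀ v : List (Fin d), (claw d (bdry p)).map (fun ω : Conf d => ω v) =
      coin.prod (bdry p) := fun v => by
    unfold claw
    exact Measure.infinitePi_map_eval _ _
  have h1 : ∀ v : List (Fin d), (claw d (bdry p)).map (fun ω : Conf d => (ω v).1) = coin := by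
    intro v
    have : (fun ω : Conf d => (ω v).1) = Prod.fst ∘ fun ω : Conf d => ω v := rfl
    rw [this, ← Measure.map_map (by fun_prop) (by fun_prop), h0]
    simp
  have h2 : ∀ v : List (Fin d), (claw d (bdry p)).map (fun ω : Conf d => (ω v).2) = bdry p := by
    intro v
    have : (fun ω : Conf d => (ω v).2) = Prod.snd ∘ fun ω : Conf d => ω v := rfl
    rw [this, ← Measure.map_map (by fun_prop) (by fun_prop), h0]
    exact Measure.snd_prod
  have hc : ∀ b : Bool, coin {b} = 1 / 2 := by
    intro b
    unfold coin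
    rw [PMF.toMeasure_apply_singleton _ _ (by simp)]
    simp [PMF.uniformOfFintype_apply]
  have hcoin : ∀ (v : List (Fin d)) (b : Bool),
      claw d (bdry p) {ω : Conf d | (ω v).1 = b} = 1 / 2 := by
    intro v b
    rw [← hc b, ← h1 v, Measure.map_apply (by fun_prop) (by measurability)]
    rfl
  have hval : ∀ (v : List (Fin d)) (j : ℤ),
      claw d (bdry p) {ω : Conf d | (ω v).2 = j} = bdry p {j} := by
    intro v j
    conv_rhs => rw [← h2 v]
    rw [Measure.map_apply (by fun_prop) (measurableSet_singleton j)]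
    rfl
  refine ⟨fun v => measurable_sgn.comp (by fun_prop), fun v => by fun_prop, ?_, ?_, ?_, ?_, ?_,
    ?_⟩
  · have hi : iIndepFun (fun (l : List (Fin d)) (ω : Conf d) => ω l) (claw d (bdry p)) :=
      iIndepFun_infinitePi (X := fun _ ω => ω) (by fun_prop)
    exact hi.comp (fun _ q => (sgn q.1, q.2))
      fun _ => (measurable_sgn.comp measurable_fst).prodMk measurable_snd
  · intro v
    have h3 : IndepFun (fun ω : Conf d => (ω v).1) (fun ω : Conf d => (ω v).2)
        (claw d (bdry p)) := by
      rw [indepFun_iff_map_prod_eq_prod_map_map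
        (by fun_prop : Measurable fun ω : Conf d => (ω v).1).aemeasurable
        (by fun_prop : Measurable fun ω : Conf d => (ω v).2).aemeasurable, h1, h2]
      exact h0 v
    exact h3.comp measurable_sgn measurable_id
  · intro v
    rw [← hcoin v true]
    congr 1
    ext ω
    simp only [Set.mem_ofPred_eq, sgn]
    cases (ω v).1 <;> simp
  · intro v
    rw [← hcoin v false]
    congr 1
    ext ω
    simp only [Set.mem_ofPred_eq, sgn]
    cases (ω v).1 <;> simp
  · intro v
    rw [hval]
    simp [bdry]
  · intro v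
    rw [hval]
    simp [bdry]

end Q288.MinMax.Large
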