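import Mathlib
import Pool.Agent.Q288.MinMax.Joint
import Pool.Agent.Q288.MinMax.LargeLaw

/-!
# Almost sure convergence from geometric decay of the disagreement probabilities
-/

namespace Q288.MinMax.AS

open MeasureTheory ProbabilityTheory Filter Topology Set Q288.MinMax Q288.MinMax.Large

variable {d : ℕ}

/-- The law of the configuration with zero boundary values. -/
noncomputable abbrev P0 (d : ℕ) : Measure (Conf d) := claw d (Measure.dirac 0)

theorem dirac_Iic (j : ℤ) : (Measure.dirac (0 : ℤ)).real (Iic j) = F0 1 (j / 2) := by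
  unfold F0
  rw [measureReal_def, Measure.dirac_apply' _ measurableSet_Iic]
  simp only [indicator, mem_Iic, Pi.one_apply]
  by_cases h1 : j / 2 < 0
  · rw [if_pos h1, if_neg (by omega)]
    simp
  · rw [if_neg h1, if_pos (by omega)]
    split_ifs <;> simp

theorem cdf_even [NeZero d] (n : ℕ) (j : ℤ) :
    cdfv d (Measure.dirac 0) (2 * n) j = orb d 1 n (j / 2) :=
  cdfv_gen (Measure.dirac 0) (F0 1) dirac_Iic n j

theorem cdf_odd [NeZero d] (n : ℕ) (i : ℤ) :
    cdfv d (Measure.dirac 0) (2 * n + 1) i = opA d (orb d 1 n) ((i + 1) / 2) := by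
  have ho : ¬ Even (2 * n + 1) := by
    rw [Nat.not_even_iff_odd]
    exact ⟨n, rfl⟩
  rw [cdfv_odd _ _ _ ho, cdf_even, cdf_even]
  unfold opA
  rw [show (i - 1) / 2 = (i + 1) / 2 - 1 by omega]

/-- Disagreement at even times. -/
noncomputable def E (d : ℕ) [NeZero d] (n : ℕ) (k : ℤ) : ℝ :=
  dis d (Measure.dirac 0) (2 * n) (2 * k)

/-- Disagreement at odd times. -/
noncomputable def O (d : ℕ) [NeZero d] (n : ℕ) (k : ℤ) : ℝ :=
  dis d (Measure.dirac 0) (2 * n + 1) (2 * k - 1)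

theorem E_nonneg [NeZero d] (n : ℕ) (k : ℤ) : 0 ≤ E d n k := dis_nonneg _ _ _

theorem E_le_one [NeZero d] (n : ℕ) (k : ℤ) : E d n k ≤ 1 := dis_le_one _ _ _

theorem O_nonneg [NeZero d] (n : ℕ) (k : ℤ) : 0 ≤ O d n k := dis_nonneg _ _ _

theorem O_le [NeZero d] (n : ℕ) (k : ℤ) {M : ℝ}
    (h1 : 1 - (orb d 1 n (k - 1) + orb d 1 n k) / 2 ≤ M)
    (h2 : 1 - (orb d 1 (n + 1) (k - 1) + orb d 1 (n + 1) k) / 2 ≤ M) :
    O d n k ≤ d * M ^ (d - 1) * ((E d n (k - 1) + E d n k) / 2) := by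
  have ho : ¬ Even (2 * n + 1) := by
    rw [Nat.not_even_iff_odd]
    exact ⟨n, rfl⟩
  have := dis_odd (d := d) (Measure.dirac 0) (2 * n) (2 * k - 1) ho (M := M)
    (by
      rw [cdf_even, cdf_even, show (2 * k - 1 - 1) / 2 = k - 1 by omega,
        show (2 * k - 1 + 1) / 2 = k by omega]
      exact h1)
    (by
      rw [show 2 * n + 2 = 2 * (n + 1) by ring, cdf_even, cdf_even,
        show (2 * k - 1 - 1) / 2 = k - 1 by omega, show (2 * k - 1 + 1) / 2 = k by omega]
      exact h2)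
  unfold O E
  rw [show 2 * (k - 1) = 2 * k - 1 - 1 by ring]
  have e : (2 * k : ℤ) = 2 * k - 1 + 1 := by ring
  conv_rhs => rw [e]
  rw [show (2 * k - 1 + 1 - 1 - 1 : ℤ) = 2 * k - 1 - 1 by ring]
  exact this

theorem E_le [NeZero d] (n : ℕ) (k : ℤ) {M : ℝ}
    (h1 : (opA d (orb d 1 n) k + opA d (orb d 1 n) (k + 1)) / 2 ≤ M)
    (h2 : (opA d (orb d 1 (n + 1)) k + opA d (orb d 1 (n + 1)) (k + 1)) / 2 ≤ M) :
    E d (n + 1) k ≤ d * M ^ (d - 1) * ((O d n k + O d n (k + 1)) / 2) := by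
  have he : Even (2 * n + 1 + 1) := ⟨n + 1, by ring⟩
  have := dis_even (d := d) (Measure.dirac 0) (2 * n + 1) (2 * k) he (M := M)
    (by
      rw [cdf_odd, cdf_odd, show (2 * k - 1 + 1) / 2 = k by omega,
        show (2 * k + 1 + 1) / 2 = k + 1 by omega]
      exact h1)
    (by
      rw [show 2 * n + 1 + 2 = 2 * (n + 1) + 1 by ring, cdf_odd, cdf_odd,
        show (2 * k - 1 + 1) / 2 = k by omega, show (2 * k + 1 + 1) / 2 = k + 1 by omega]
      exact h2)
  unfold E O
  rw [show 2 * (n + 1) = 2 * n + 1 + 1 by ring, show (2 * (k + 1) - 1 : ℤ) = 2 * k + 1 by ring]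
  exact this

/-! ### Parity and range -/

/-- All boundary values vanish. -/
def Zero (ω : Conf d) : Prop := ∀ l, (ω l).2 = 0

theorem Zero.sub {ω : Conf d} (h : Zero ω) (i : Fin d) : Zero (sub ω i) := fun l => h (i :: l)

theorem ae_zero : ∀ᵐ ω ∂(P0 d), Zero ω := by
  unfold Zero
  rw [ae_all_iff]
  intro l
  have h0 : (P0 d).map (fun ω : Conf d => ω l) = coin.prod (Measure.dirac 0) := by
    unfold P0 claw
    exact Measure.infinitePi_map_eval _ _
  have h2 : (P0 d).map (fun ω : Conf d => (ω l).2) = Measure.dirac 0 := by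
    have : (fun ω : Conf d => (ω l).2) = Prod.snd ∘ fun ω : Conf d => ω l := rfl
    rw [this, ← Measure.map_map (by fun_prop) (by fun_prop), h0]
    exact Measure.snd_prod
  have h3 : ∀ᵐ x ∂((P0 d).map fun ω : Conf d => (ω l).2), x = 0 := by
    rw [h2]
    simp
  exact ae_of_ae_map (by fun_prop : Measurable fun ω : Conf d => (ω l).2).aemeasurable h3

theorem gv_prop [NeZero d] {ω : Conf d} (h : Zero ω) (m : ℕ) :
    (∃ q : ℤ, gv m ω = m + 2 * q) ∧ -(m : ℤ) ≤ gv m ω ∧ gv m ω ≤ m := by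
  induction m generalizing ω with
  | zero =>
    have : gv 0 ω = 0 := h []
    rw [this]
    exact ⟨⟨0, by norm_num⟩, by norm_num, by norm_num⟩
  | succ m ih =>
    have key : ∃ i : Fin d, gv (m + 1) ω = sgn (sub ω i []).1 + gv m (sub ω i) := by
      by_cases hm : Even (m + 1)
      · rw [gv, if_pos hm]
        obtain ⟨i, _, hi⟩ := Finset.exists_mem_eq_sup' Finset.univ_nonempty
          fun i : Fin d => sgn (sub ω i []).1 + gv m (sub ω i)
        exact ⟨i, hi⟩
      · rw [gv, if_neg hm]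
        obtain ⟨i, _, hi⟩ := Finset.exists_mem_eq_inf' Finset.univ_nonempty
          fun i : Fin d => sgn (sub ω i []).1 + gv m (sub ω i)
        exact ⟨i, hi⟩
    obtain ⟨i, hi⟩ := key
    obtain ⟨⟨q, hq⟩, h1, h2⟩ := ih (h.sub i)
    rw [hi, hq]
    rw [hq] at h1 h2
    unfold sgn
    cases (sub ω i []).1
    · simp only [Bool.false_eq_true, if_false]
      push_cast
      exact ⟨⟨q - 1, by ring⟩, by omega, by omega⟩
    · simp only [if_true]
      push_cast
      exact ⟨⟨q, by ring⟩, by omega, by omega⟩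

theorem ne_sub [NeZero d] (n : ℕ) :
    {ω : Conf d | gv (2 * n) ω ≠ gv (2 * n + 2) ω} ∩ {ω | Zero ω} ⊆
      ⋃ k ∈ Finset.Icc (-(n + 1 : ℤ)) (n + 1),
        {ω | ¬ (gv (2 * n) ω ≤ 2 * k ↔ gv (2 * n + 2) ω ≤ 2 * k)} := by
  rintro ω ⟨hne, hz⟩
  simp only [mem_ofPred_eq] at hne hz
  obtain ⟨⟨q, hq⟩, h1, h2⟩ := gv_prop hz (2 * n)
  obtain ⟨⟨r, hr⟩, h3, h4⟩ := gv_prop hz (2 * n + 2)
  push_cast at hq hr h1 h2 h3 h4
  simp only [mem_iUnion, Finset.mem_Icc, mem_ofPred_eq, exists_prop]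
  rcases lt_or_gt_of_ne hne with h | h
  · refine ⟨n + q, ⟨by omega, by omega⟩, ?_⟩
    intro hiff
    have := hiff.1 (by omega)
    omega
  · refine ⟨n + 1 + r, ⟨by omega, by omega⟩, ?_⟩
    intro hiff
    have := hiff.2 (by omega)
    omega

theorem prob_ne [NeZero d] (n : ℕ) {e : ℝ} (he : ∀ k, E d n k ≤ e) :
    (P0 d).real {ω : Conf d | gv (2 * n) ω ≠ gv (2 * n + 2) ω} ≤ (2 * n + 3) * e := by
  have h1 : (P0 d).real {ω : Conf d | gv (2 * n) ω ≠ gv (2 * n + 2) ω} =
      (P0 d).real ({ω : Conf d | gv (2 * n) ω ≠ gv (2 * n + 2) ω} ∩ {ω | Zero ω}) := by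
    refine measureReal_congr (Filter.eventuallyEq_set.2 ?_)
    filter_upwards [ae_zero (d := d)] with ω hω
    simp only [mem_inter_iff, mem_ofPred_eq, hω, and_true]
  rw [h1]
  refine (measureReal_mono (ne_sub n) (measure_ne_top _ _)).trans ?_
  refine (measureReal_biUnion_finset_le _ _).trans ?_
  calc ∑ k ∈ Finset.Icc (-(n + 1 : ℤ)) (n + 1), (P0 d).real
        {ω : Conf d | ¬ (gv (2 * n) ω ≤ 2 * k ↔ gv (2 * n + 2) ω ≤ 2 * k)}
      ≤ ∑ _k ∈ Finset.Icc (-(n + 1 : ℤ)) (n + 1), e := Finset.sum_le_sum fun k _ => he k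
    _ = (2 * n + 3) * e := by
        rw [Finset.sum_const, nsmul_eq_mul, Int.card_Icc]
        have : ((n : ℤ) + 1 + 1 - -(n + 1 : ℤ)).toNat = 2 * n + 3 := by omega
        rw [this]
        push_cast
        ring

/-- Almost sure convergence for the configuration space. -/
theorem ae_conv [NeZero d] {C lam : ℝ} {n0 : ℕ} (h0 : 0 ≤ lam) (h1 : lam < 1)
    (h : ∀ n ≥ n0, ∀ k, E d n k ≤ C * lam ^ n) :
    ∀ᵐ ω ∂(P0 d), ∃ N, ∀ n ≥ N, gv (2 * n) ω = gv (2 * N) ω := by
  have hC : Summable fun n : ℕ => (2 * (n : ℝ) + 3) * (C * lam ^ n) := by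
    have s1 : Summable fun n : ℕ => ((n : ℝ) ^ 1 * lam ^ n) :=
      summable_pow_mul_geometric_of_norm_lt_one 1 (by rw [Real.norm_eq_abs, abs_of_nonneg h0]; exact h1)
    have s2 : Summable fun n : ℕ => lam ^ n := summable_geometric_of_lt_one h0 h1
    have s3 := (s1.mul_left (2 * C)).add (s2.mul_left (3 * C))
    refine s3.congr fun n => ?_
    simp only [pow_one]
    ring
  have hsum : ∑' n, P0 d {ω : Conf d | gv (2 * n) ω ≠ gv (2 * n + 2) ω} ≠ ⊤ := by
    have hb : ∀ n, (P0 d).real {ω : Conf d | gv (2 * (n + n0)) ω ≠ gv (2 * (n + n0) + 2) ω} ≤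
        (2 * ((n + n0 : ℕ) : ℝ) + 3) * (C * lam ^ (n + n0)) := fun n =>
      prob_ne (n + n0) (h (n + n0) (by omega))
    have hs : Summable fun n : ℕ =>
        (P0 d).real {ω : Conf d | gv (2 * (n + n0)) ω ≠ gv (2 * (n + n0) + 2) ω} :=
      Summable.of_nonneg_of_le (fun _ => measureReal_nonneg) hb
        ((summable_nat_add_iff (f := fun n : ℕ => (2 * (n : ℝ) + 3) * (C * lam ^ n)) n0).2 hC)
    have hs' : Summable fun n : ℕ =>
        (P0 d).real {ω : Conf d | gv (2 * n) ω ≠ gv (2 * n + 2) ω} :=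
      (summable_nat_add_iff (f := fun n : ℕ =>
        (P0 d).real {ω : Conf d | gv (2 * n) ω ≠ gv (2 * n + 2) ω}) n0).1 hs
    have e : (fun n : ℕ => P0 d {ω : Conf d | gv (2 * n) ω ≠ gv (2 * n + 2) ω}) = fun n =>
        ENNReal.ofReal ((P0 d).real {ω : Conf d | gv (2 * n) ω ≠ gv (2 * n + 2) ω}) := by
      funext n
      rw [ofReal_measureReal]
    rw [e]
    exact hs'.tsum_ofReal_ne_top
  have hBC := measure_limsup_atTop_eq_zero hsum
  have hae : ∀ᵐ ω ∂(P0 d), ∀ᶠ n in atTop, gv (2 * n) ω = gv (2 * n + 2) ω := by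
    have h2 := ae_eventually_notMem hsum
    filter_upwards [h2] with ω hω
    filter_upwards [hω] with n hn
    simpa using hn
  filter_upwards [hae] with ω hω
  obtain ⟨N, hN⟩ := eventually_atTop.1 hω
  refine ⟨N, fun n hn => ?_⟩
  induction n, hn using Nat.le_induction with
  | base => rfl
  | succ n hn ih => rw [← ih, hN n hn]; rfl

/-- Almost sure convergence for every realisation of the cookies. -/
theorem conv_of_decay [NeZero d] {C lam : ℝ} {n0 : ℕ} (h0 : 0 ≤ lam) (h1 : lam < 1)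
    (h : ∀ n ≥ n0, ∀ k, E d n k ≤ C * lam ^ n) {Ω : Type*} [MeasurableSpace Ω] (P : Measure Ω)
    [IsProbabilityMeasure P] (X : List (Fin d) → Ω → ℤ) (hX : ∀ v, Measurable (X v))
    (hind : iIndepFun X P) (hp : ∀ v, P {ω | X v ω = 1} = 1 / 2)
    (hn : ∀ v, P {ω | X v ω = -1} = 1 / 2) :
    ∀ᵐ ω ∂P, ∃ N, ∀ n ≥ N, value (fun v => X v ω) (fun _ => 0) (2 * n) [] =
      value (fun v => X v ω) (fun _ => 0) (2 * N) [] := by
  -- the event in the space of cookies and boundary values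
  obtain ⟨S, hS⟩ : ∃ S : Set (List (Fin d) → ℤ × ℤ), S = {z | ∃ N, ∀ n ≥ N,
      value (fun l => (z l).1) (fun l => (z l).2) (2 * n) [] =
      value (fun l => (z l).1) (fun l => (z l).2) (2 * N) []} := ⟨_, rfl⟩
  have hSm : MeasurableSet S := by
    rw [hS]
    have : {z : List (Fin d) → ℤ × ℤ | ∃ N, ∀ n ≥ N,
        value (fun l => (z l).1) (fun l => (z l).2) (2 * n) [] =
        value (fun l => (z l).1) (fun l => (z l).2) (2 * N) []} =
        ⋃ N, ⋂ n, ⋂ (_ : n ≥ N), {z | value (fun l => (z l).1) (fun l => (z l).2) (2 * n) [] =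
          value (fun l => (z l).1) (fun l => (z l).2) (2 * N) []} := by
      ext z
      simp
    rw [this]
    exact MeasurableSet.iUnion fun N => MeasurableSet.iInter fun n => MeasurableSet.iInter fun _ =>
      measurableSet_eq_fun (measurable_value _ _) (measurable_value _ _)
  have hmeas : Measurable fun (ω : Ω) (v : List (Fin d)) => (X v ω, (0 : ℤ)) :=
    measurable_pi_iff.2 fun v => (hX v).prodMk measurable_const
  have hlaw : P.map (fun ω v => (X v ω, (0 : ℤ))) =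
      (P0 d).map (fun (ω : Conf d) l => (sgn (ω l).1, (ω l).2)) := by
    unfold P0
    rw [map_conf]
    have hi : iIndepFun (fun (v : List (Fin d)) ω => (X v ω, (0 : ℤ))) P :=
      hind.comp (fun _ x => (x, (0 : ℤ))) fun _ => by fun_prop
    rw [(iIndepFun_iff_map_fun_eq_infinitePi_map fun v => (hX v).prodMk measurable_const).1 hi]
    congr 1
    funext v
    rw [← sign_law P (X v) (hX v) (hp v) (hn v), Measure.prod_dirac,
      Measure.map_map (by fun_prop) (hX v)]
    rfl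
  have hmeas2 : Measurable fun (ω : Conf d) (l : List (Fin d)) => (sgn (ω l).1, (ω l).2) := by
    refine measurable_pi_iff.2 fun l => ?_
    exact (measurable_sgn.comp (by fun_prop)).prodMk (by fun_prop)
  have hae : ∀ᵐ z ∂((P0 d).map (fun (ω : Conf d) l => (sgn (ω l).1, (ω l).2))), z ∈ S := by
    rw [ae_map_iff (p := fun z => z ∈ S) hmeas2.aemeasurable hSm]
    filter_upwards [ae_conv h0 h1 h] with ω hω
    rw [hS]
    obtain ⟨N, hN⟩ := hω
    refine ⟨N, fun n hn => ?_⟩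
    have := hN n hn
    have e : ∀ m, value (fun l => sgn (ω l).1) (fun l => (ω l).2) m [] = gv m ω := fun m => by
      rw [value_eq]
      rfl
    show value (fun l => sgn (ω l).1) (fun l => (ω l).2) (2 * n) [] =
      value (fun l => sgn (ω l).1) (fun l => (ω l).2) (2 * N) []
    rw [e, e]
    exact this
  rw [← hlaw, ae_map_iff (p := fun z => z ∈ S) hmeas.aemeasurable hSm] at hae
  filter_upwards [hae] with ω hω
  rw [hS] at hω
  exact hω

end Q288.MinMax.AS
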