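import Mathlib
import Pool.Agent.Q288.MinMax.AlmostSure

/-!
# Uniform contraction for `d ≥ 13`
-/

namespace Q288.MinMax.Fine

open Filter Topology Set Function Q288.MinMax Q288.MinMax.Large

variable {d : ℕ}

theorem three_cube (d : ℕ) (hd : 13 ≤ d) : 3 * d ^ 3 ≤ 2 ^ d := by
  induction d, hd using Nat.le_induction with
  | base => norm_num
  | succ n hn ih =>
    rw [pow_succ 2 n]
    nlinarith [mul_le_mul hn hn (by norm_num) (by omega)]

/-- `r = (1 + 1 / d) / 2`. -/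
noncomputable def r (d : ℕ) : ℝ := (1 + 1 / (d : ℝ)) / 2

theorem r_pow (hd : 13 ≤ d) : r d ^ d ≤ 1 / d ^ 3 := by
  have hd' : (13 : ℝ) ≤ d := by exact_mod_cast hd
  have h1 : (1 + 1 / (d : ℝ)) ^ d ≤ 3 := by
    have h2 : 1 + 1 / (d : ℝ) ≤ Real.exp (1 / d) := by
      have := Real.add_one_le_exp (1 / (d : ℝ))
      linarith
    have h3 := pow_le_pow_left₀ (by positivity) h2 d
    rw [← Real.exp_nat_mul, mul_one_div_cancel (by positivity)] at h3
    linarith [Real.exp_one_lt_d9]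
  have h4 : (3 * (d : ℝ) ^ 3) ≤ 2 ^ d := by exact_mod_cast three_cube d hd
  unfold r
  rw [div_pow, div_le_div_iff₀ (by positivity) (by positivity)]
  have : (0 : ℝ) < (d : ℝ) ^ 3 := by positivity
  nlinarith

theorem r_half : (1 : ℝ) / 2 ≤ r d := by
  unfold r
  have : (0 : ℝ) ≤ 1 / (d : ℝ) := by positivity
  linarith

theorem r_le_one (hd : 13 ≤ d) : r d ≤ 1 := by
  have hd' : (13 : ℝ) ≤ d := by exact_mod_cast hd
  unfold r
  have : 1 / (d : ℝ) ≤ 1 := by rw [div_le_one (by linarith)]; linarith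
  linarith

/-- The contraction factor. -/
noncomputable def c (d : ℕ) : ℝ := (d : ℝ) ^ 2 * r d ^ (d - 1)

theorem c_nonneg : 0 ≤ c d := by
  unfold c
  have := r_half (d := d)
  positivity

theorem c_le (hd : 13 ≤ d) : c d ≤ 1 / 2 := by
  have hd' : (13 : ℝ) ≤ d := by exact_mod_cast hd
  have h1 := r_pow hd
  have h2 := r_half (d := d)
  have h3 : r d ^ d = r d ^ (d - 1) * r d := by
    rw [← pow_succ]
    congr 1
    omega
  rw [h3] at h1
  have h4 : (0 : ℝ) ≤ r d ^ (d - 1) := by positivity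
  have h5 : r d ^ (d - 1) ≤ 2 / d ^ 3 := by
    have : r d ^ (d - 1) * (1 / 2) ≤ 1 / (d : ℝ) ^ 3 :=
      (mul_le_mul_of_nonneg_left h2 h4).trans h1
    have e : (2 : ℝ) / d ^ 3 = 2 * (1 / d ^ 3) := by ring
    rw [e]
    linarith
  unfold c
  have h6 : (d : ℝ) ^ 2 * r d ^ (d - 1) ≤ d ^ 2 * (2 / d ^ 3) :=
    mul_le_mul_of_nonneg_left h5 (by positivity)
  have h7 : (d : ℝ) ^ 2 * (2 / d ^ 3) = 2 / d := by
    field_simp
  rw [h7] at h6
  refine h6.trans ?_
  rw [div_le_div_iff₀ (by positivity) (by norm_num)]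
  linarith

theorem sq_le (hd : 13 ≤ d) : 1 / (d : ℝ) ^ 2 ≤ 1 / d := by
  have hd' : (13 : ℝ) ≤ d := by exact_mod_cast hd
  apply one_div_le_one_div_of_le (by linarith)
  nlinarith

theorem opA_lo (hd : 13 ≤ d) {F : ℤ → ℝ} (hlo : Lo d 0 F) {k : ℤ} (hk : k < 0) :
    opA d F k ≤ 1 / d := by
  have h1 := hlo k hk
  have h2 := hlo (k - 1) (by omega)
  have hd' : (13 : ℝ) ≤ d := by exact_mod_cast hd
  have hx : (F (k - 1) + F k) / 2 ≤ 1 / d ^ 2 := by linarith
  have h3 : 1 / (d : ℝ) ^ 2 ≤ 1 := by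
    rw [div_le_one (by positivity)]
    nlinarith
  have h4 := bern d h3
  have h5 : (1 - 1 / (d : ℝ) ^ 2) ^ d ≤ (1 - (F (k - 1) + F k) / 2) ^ d :=
    pow_le_pow_left₀ (by linarith) (by linarith) d
  have h6 : (d : ℝ) * (1 / d ^ 2) = 1 / d := by
    field_simp
  unfold opA
  rw [h6] at h4
  linarith

theorem avg_hi (hd : 13 ≤ d) {F : ℤ → ℝ} (hF : Unit' F) (hhi : Hi d 0 F) {k : ℤ}
    (hk : 0 ≤ k) : 1 - (F (k - 1) + F k) / 2 ≤ r d := by
  have h1 := hhi k hk
  have h2 := hF (k - 1)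
  have h3 := sq_le hd
  unfold r
  linarith [h2.1]

theorem opA_hi (hd : 13 ≤ d) {F : ℤ → ℝ} (hF : Unit' F) (hhi : Hi d 0 F) {k : ℤ}
    (hk : 0 ≤ k) : 1 - 1 / d ^ 3 ≤ opA d F k := by
  have h1 := avg_hi hd hF hhi hk
  have h2 := hF (k - 1)
  have h2' := hF k
  have h5 : (1 - (F (k - 1) + F k) / 2) ^ d ≤ r d ^ d :=
    pow_le_pow_left₀ (by linarith [h2.2, h2'.2]) h1 d
  have h6 := r_pow hd
  unfold opA
  linarith

theorem avg_lo (hd : 13 ≤ d) {F : ℤ → ℝ} (hF : Unit' F) (hlo : Lo d 0 F) {k : ℤ}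
    (hk : k < 0) : (opA d F k + opA d F (k + 1)) / 2 ≤ r d := by
  have h1 := opA_lo hd hlo hk
  have h2 := (hF.opA (d := d)) (k + 1)
  unfold r
  linarith [h2.2]

theorem lo_Psi (hd : 13 ≤ d) {F : ℤ → ℝ} (hF : Unit' F) (hlo : Lo d 0 F) :
    Lo d 0 (Psi d F) := by
  intro k hk
  have hd' : (13 : ℝ) ≤ d := by exact_mod_cast hd
  have h2 := (hF.opA (d := d)) (k + 1)
  have h3 := (hF.opA (d := d)) k
  unfold Large.Psi opB
  have h5 := pow_le_pow_left₀ (by linarith [h2.1, h3.1]) (avg_lo hd hF hlo hk) d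
  refine h5.trans ((r_pow hd).trans ?_)
  apply one_div_le_one_div_of_le (by positivity)
  exact pow_le_pow_right₀ (by linarith) (by norm_num)

theorem hi_Psi (hd : 13 ≤ d) {F : ℤ → ℝ} (hF : Unit' F) (hhi : Hi d 0 F) :
    Hi d 0 (Psi d F) := by
  intro k hk
  have hd' : (13 : ℝ) ≤ d := by exact_mod_cast hd
  have h1 := opA_hi hd hF hhi hk
  have h2 := opA_hi hd hF hhi (show 0 ≤ k + 1 by omega)
  have h3 : 1 / (d : ℝ) ^ 3 ≤ 1 := by
    rw [div_le_one (by positivity)]
    exact one_le_pow₀ (by linarith)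
  have h4 := bern d h3
  have h5 : (1 - 1 / (d : ℝ) ^ 3) ^ d ≤ ((opA d F k + opA d F (k + 1)) / 2) ^ d :=
    pow_le_pow_left₀ (by linarith) (by linarith) d
  have h6 : (d : ℝ) * (1 / d ^ 3) = 1 / d ^ 2 := by
    field_simp
  unfold Large.Psi opB
  rw [h6] at h4
  linarith

theorem orb_prop (hd : 13 ≤ d) (n : ℕ) :
    Unit' (orb d 1 n) ∧ Lo d 0 (orb d 1 n) ∧ Hi d 0 (orb d 1 n) := by
  have hd' : (13 : ℝ) ≤ d := by exact_mod_cast hd
  induction n with
  | zero =>
    refine ⟨F0_unit zero_le_one le_rfl, fun k hk => ?_, fun k hk => ?_⟩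
    · show F0 1 k ≤ _
      unfold F0
      rw [if_pos hk]
      positivity
    · show _ ≤ F0 1 k
      have : 0 < 1 / (d : ℝ) ^ 2 := by positivity
      unfold F0
      rw [if_neg (by omega)]
      split_ifs <;> linarith
  | succ n ih =>
    rw [orb_succ]
    exact ⟨ih.1.Psi, lo_Psi hd ih.1 ih.2.1, hi_Psi hd ih.1 ih.2.2⟩

/-- Geometric decay of the disagreement probabilities for `d ≥ 13`. -/
theorem decay [NeZero d] (hd : 13 ≤ d) (n : ℕ) (k : ℤ) : AS.E d n k ≤ 1 * c d ^ n := by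
  rw [one_mul]
  induction n generalizing k with
  | zero =>
    rw [pow_zero]
    exact AS.E_le_one 0 k
  | succ n ih =>
    obtain ⟨u, lo, hi⟩ := orb_prop hd n
    obtain ⟨u', lo', hi'⟩ := orb_prop hd (n + 1)
    obtain ⟨e, he⟩ : ∃ e, e = c d ^ n := ⟨_, rfl⟩
    rw [← he] at ih
    have e0 : 0 ≤ e := by rw [he]; exact pow_nonneg c_nonneg n
    have hr := r_half (d := d)
    rw [pow_succ, ← he]
    rcases lt_or_ge k 0 with hk | hk
    · have hO : ∀ j, AS.O d n j ≤ d * e := fun j => by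
        have := AS.O_le (d := d) n j (M := 1) (by linarith [(u (j - 1)).1, (u j).1])
          (by linarith [(u' (j - 1)).1, (u' j).1])
        rw [one_pow, mul_one] at this
        refine this.trans (mul_le_mul_of_nonneg_left ?_ (by positivity))
        linarith [ih (j - 1), ih j]
      have hE := AS.E_le (d := d) n k (avg_lo hd u lo hk) (avg_lo hd u' lo' hk)
      refine hE.trans ?_
      have : d * r d ^ (d - 1) * ((AS.O d n k + AS.O d n (k + 1)) / 2) ≤
          d * r d ^ (d - 1) * (d * e) := by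
        apply mul_le_mul_of_nonneg_left _ (by positivity)
        linarith [hO k, hO (k + 1)]
      refine this.trans (le_of_eq ?_)
      unfold c
      ring
    · have hO : ∀ j, 0 ≤ j → AS.O d n j ≤ d * r d ^ (d - 1) * e := fun j hj => by
        have := AS.O_le (d := d) n j (avg_hi hd u hi hj) (avg_hi hd u' hi' hj)
        refine this.trans (mul_le_mul_of_nonneg_left ?_ (by positivity))
        linarith [ih (j - 1), ih j]
      have uA := u.opA (d := d)
      have uA' := u'.opA (d := d)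
      have hE := AS.E_le (d := d) n k (M := 1) (by linarith [(uA k).2, (uA (k + 1)).2])
        (by linarith [(uA' k).2, (uA' (k + 1)).2])
      rw [one_pow, mul_one] at hE
      refine hE.trans ?_
      have : (d : ℝ) * ((AS.O d n k + AS.O d n (k + 1)) / 2) ≤ d * (d * r d ^ (d - 1) * e) := by
        apply mul_le_mul_of_nonneg_left _ (by positivity)
        linarith [hO k hk, hO (k + 1) (by omega)]
      refine this.trans (le_of_eq ?_)
      unfold c
      ring

end Q288.MinMax.Fine
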