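import Mathlib

/-!
# The case `d = 2`: the map on distribution functions and its one-parameter family of fixed points
-/

namespace Q288.MinMax.Two

open Filter Topology Set Function

/-- `h x = 2 √x - x`. -/
noncomputable def h (x : ℝ) : ℝ := 2 * √x - x

/-- `kap y = (1 - √(1 - y))²`, the inverse of `h` on `[0, 1]`. -/
noncomputable def kap (y : ℝ) : ℝ := 2 - y - 2 * √(1 - y)

theorem kap_eq {y : ℝ} (hy : y ≤ 1) : kap y = (1 - √(1 - y)) ^ 2 := by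
  have h1 : √(1 - y) ^ 2 = 1 - y := Real.sq_sqrt (by linarith)
  unfold kap
  nlinarith

theorem h_eq {x : ℝ} (hx : 0 ≤ x) : h x = 1 - (1 - √x) ^ 2 := by
  have h1 : √x ^ 2 = x := Real.sq_sqrt hx
  unfold h
  nlinarith

theorem h_nonneg {x : ℝ} (h0 : 0 ≤ x) (h1 : x ≤ 1) : 0 ≤ h x := by
  rw [h_eq h0]
  have : √x ≤ 1 := Real.sqrt_le_one.2 h1
  have : 0 ≤ √x := Real.sqrt_nonneg x
  nlinarith

theorem h_le_one {x : ℝ} (h0 : 0 ≤ x) : h x ≤ 1 := by
  rw [h_eq h0]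
  nlinarith [sq_nonneg (1 - √x)]

theorem kap_nonneg {y : ℝ} (h1 : y ≤ 1) : 0 ≤ kap y := by
  rw [kap_eq h1]
  positivity

theorem kap_le_one {y : ℝ} (h0 : 0 ≤ y) (h1 : y ≤ 1) : kap y ≤ 1 := by
  rw [kap_eq h1]
  have : √(1 - y) ≤ 1 := Real.sqrt_le_one.2 (by linarith)
  have : 0 ≤ √(1 - y) := Real.sqrt_nonneg _
  nlinarith

theorem one_sub_h {x : ℝ} : 1 - h x = kap (1 - x) := by
  unfold h kap
  ring_nf

theorem one_sub_kap {x : ℝ} : 1 - kap x = h (1 - x) := by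
  unfold h kap
  ring_nf

theorem h_kap {y : ℝ} (h0 : 0 ≤ y) (h1 : y ≤ 1) : h (kap y) = y := by
  have h2 : √(1 - y) ≤ 1 := Real.sqrt_le_one.2 (by linarith)
  have h3 : √(1 - y) ^ 2 = 1 - y := Real.sq_sqrt (by linarith)
  unfold h
  rw [kap_eq h1, Real.sqrt_sq (by linarith)]
  nlinarith

theorem kap_h {x : ℝ} (h0 : 0 ≤ x) (h1 : x ≤ 1) : kap (h x) = x := by
  have h2 : √x ≤ 1 := Real.sqrt_le_one.2 h1
  have h3 : √x ^ 2 = x := Real.sq_sqrt h0
  rw [kap_eq (h_le_one h0), h_eq h0, show 1 - (1 - (1 - √x) ^ 2) = (1 - √x) ^ 2 by ring,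
    Real.sqrt_sq (by linarith)]
  nlinarith

theorem h_mono {x y : ℝ} (h0 : 0 ≤ x) (hxy : x ≤ y) (h1 : y ≤ 1) : h x ≤ h y := by
  rw [h_eq h0, h_eq (h0.trans hxy)]
  have h2 : √y ≤ 1 := Real.sqrt_le_one.2 h1
  have h3 : √x ≤ √y := Real.sqrt_le_sqrt hxy
  nlinarith

theorem kap_mono {x y : ℝ} (h0 : 0 ≤ x) (hxy : x ≤ y) (h1 : y ≤ 1) : kap x ≤ kap y := by
  rw [kap_eq (hxy.trans h1), kap_eq h1]
  have h3 : √(1 - y) ≤ √(1 - x) := Real.sqrt_le_sqrt (by linarith)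
  have h4 : √(1 - x) ≤ 1 := Real.sqrt_le_one.2 (by linarith)
  have h5 : 0 ≤ √(1 - y) := Real.sqrt_nonneg _
  nlinarith

theorem le_h {x : ℝ} (h0 : 0 ≤ x) (h1 : x ≤ 1) : x ≤ h x := by
  have h2 : √x ≤ 1 := Real.sqrt_le_one.2 h1
  have h3 : √x ^ 2 = x := Real.sq_sqrt h0
  have h4 : 0 ≤ √x := Real.sqrt_nonneg x
  unfold h
  nlinarith

theorem kap_le_sq {y : ℝ} (h0 : 0 ≤ y) (h1 : y ≤ 1) : kap y ≤ y ^ 2 := by
  rw [kap_eq h1]
  have h2 : √(1 - y) ≤ 1 := Real.sqrt_le_one.2 (by linarith)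
  have h3 : √(1 - y) ^ 2 = 1 - y := Real.sq_sqrt (by linarith)
  have h4 : 0 ≤ √(1 - y) := Real.sqrt_nonneg _
  have h5 : 1 - √(1 - y) ≤ y := by nlinarith
  have h6 : 0 ≤ 1 - √(1 - y) := by linarith
  exact pow_le_pow_left₀ h6 h5 2

theorem h_inj {x y : ℝ} (hx0 : 0 ≤ x) (hx1 : x ≤ 1) (hy0 : 0 ≤ y) (hy1 : y ≤ 1)
    (hxy : h x = h y) : x = y := by
  rw [← kap_h hx0 hx1, ← kap_h hy0 hy1, hxy]

/-- `(κ y + y) / 2 = 1 - √(1 - y)`. -/
theorem kap_add {y : ℝ} : (kap y + y) / 2 = 1 - √(1 - y) := by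
  unfold kap
  ring

theorem add_h {x : ℝ} : (x + h x) / 2 = √x := by
  unfold h
  ring

/-- `h (c x) ≥ √c h x` for `c ≤ 1`. -/
theorem h_mul {c x : ℝ} (c0 : 0 ≤ c) (c1 : c ≤ 1) (x0 : 0 ≤ x) : √c * h x ≤ h (c * x) := by
  unfold h
  rw [Real.sqrt_mul c0]
  have h1 : √c ^ 2 = c := Real.sq_sqrt c0
  have h2 : √c ≤ 1 := Real.sqrt_le_one.2 c1
  have h3 : 0 ≤ √c := Real.sqrt_nonneg c
  have h4 : c ≤ √c := by nlinarith
  nlinarith [mul_le_mul_of_nonneg_right h4 x0]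

theorem continuous_h : Continuous h := by
  unfold h
  fun_prop

theorem continuous_kap : Continuous kap := by
  unfold kap
  fun_prop

theorem kap_convex : ConvexOn ℝ (Icc 0 1) kap := by
  refine ⟨convex_Icc 0 1, ?_⟩
  intro x hx y hy a b ha hb hab
  have h1 := Real.strictConcaveOn_sqrt.concaveOn.2 (x := 1 - x) (y := 1 - y)
    (by simp only [mem_Ici]; linarith [hx.2]) (by simp only [mem_Ici]; linarith [hy.2]) ha hb hab
  simp only [smul_eq_mul] at h1 ⊢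
  have h2 : a * (1 - x) + b * (1 - y) = 1 - (a * x + b * y) := by
    have : b = 1 - a := by linarith
    subst this
    ring
  rw [h2] at h1
  unfold kap
  have : b = 1 - a := by linarith
  subst this
  nlinarith

/-- The growth bound behind the refined estimate. -/
theorem kap_sub {y z : ℝ} (hz0 : 0 ≤ z) (hzy : z ≤ y) (hy : y ≤ 1 / 2) :
    kap y - kap z ≤ y * (y - z) := by
  rw [kap_eq (by linarith), kap_eq (by linarith)]
  obtain ⟨r, hr⟩ : ∃ r, r = √(1 - y) := ⟨_, rfl⟩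
  obtain ⟨q, hq⟩ : ∃ q, q = √(1 - z) := ⟨_, rfl⟩
  have h1 : r ^ 2 = 1 - y := by rw [hr]; exact Real.sq_sqrt (by linarith)
  have h2 : q ^ 2 = 1 - z := by rw [hq]; exact Real.sq_sqrt (by linarith)
  have h3 : 0 ≤ r := by rw [hr]; exact Real.sqrt_nonneg _
  have h4 : r ≤ q := by rw [hr, hq]; exact Real.sqrt_le_sqrt (by linarith)
  have h5 : 2 ≤ 2 * r * (1 + y) := by
    have h6 : 1 ≤ (r * (1 + y)) ^ 2 := by
      rw [mul_pow, h1]
      nlinarith [mul_nonneg (hz0.trans hzy) (hz0.trans hzy)]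
    have h7 : 1 ≤ r * (1 + y) := by
      by_contra hcon
      push Not at hcon
      have h8 : 0 ≤ r * (1 + y) := by
        apply mul_nonneg h3; linarith
      nlinarith
    linarith
  rw [← hr, ← hq]
  have h6 : y - z = (q - r) * (q + r) := by nlinarith
  have h7 : (1 - r) ^ 2 - (1 - q) ^ 2 = (q - r) * (2 - r - q) := by ring
  rw [h6, h7, show y * ((q - r) * (q + r)) = (q - r) * (y * (q + r)) by ring]
  apply mul_le_mul_of_nonneg_left _ (by linarith)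
  nlinarith

/-! ### Iterates -/

theorem kapI_mem (n : ℕ) {y : ℝ} (h0 : 0 ≤ y) (h1 : y ≤ 1) : 0 ≤ kap^[n] y ∧ kap^[n] y ≤ 1 := by
  induction n with
  | zero => exact ⟨h0, h1⟩
  | succ n ih =>
    rw [iterate_succ_apply']
    exact ⟨kap_nonneg ih.2, kap_le_one ih.1 ih.2⟩

theorem hI_mem (n : ℕ) {y : ℝ} (h0 : 0 ≤ y) (h1 : y ≤ 1) : 0 ≤ h^[n] y ∧ h^[n] y ≤ 1 := by
  induction n with
  | zero => exact ⟨h0, h1⟩
  | succ n ih =>
    rw [iterate_succ_apply']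
    exact ⟨h_nonneg ih.1 ih.2, h_le_one ih.1⟩

theorem kapI_mono (n : ℕ) {x y : ℝ} (h0 : 0 ≤ x) (hxy : x ≤ y) (h1 : y ≤ 1) :
    kap^[n] x ≤ kap^[n] y := by
  induction n with
  | zero => exact hxy
  | succ n ih =>
    rw [iterate_succ_apply', iterate_succ_apply']
    exact kap_mono (kapI_mem n h0 (hxy.trans h1)).1 ih (kapI_mem n (h0.trans hxy) h1).2

theorem hI_mono (n : ℕ) {x y : ℝ} (h0 : 0 ≤ x) (hxy : x ≤ y) (h1 : y ≤ 1) :
    h^[n] x ≤ h^[n] y := by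
  induction n with
  | zero => exact hxy
  | succ n ih =>
    rw [iterate_succ_apply', iterate_succ_apply']
    exact h_mono (hI_mem n h0 (hxy.trans h1)).1 ih (hI_mem n (h0.trans hxy) h1).2

theorem hI_kapI (n : ℕ) {y : ℝ} (h0 : 0 ≤ y) (h1 : y ≤ 1) : h^[n] (kap^[n] y) = y := by
  induction n generalizing y with
  | zero => rfl
  | succ n ih =>
    rw [iterate_succ_apply, iterate_succ_apply',
      h_kap (kapI_mem n h0 h1).1 (kapI_mem n h0 h1).2, ih h0 h1]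

theorem kapI_hI (n : ℕ) {y : ℝ} (h0 : 0 ≤ y) (h1 : y ≤ 1) : kap^[n] (h^[n] y) = y := by
  induction n generalizing y with
  | zero => rfl
  | succ n ih =>
    rw [iterate_succ_apply, iterate_succ_apply',
      kap_h (hI_mem n h0 h1).1 (hI_mem n h0 h1).2, ih h0 h1]

theorem kapI_convex (n : ℕ) : ConvexOn ℝ (Icc 0 1) (kap^[n]) := by
  induction n with
  | zero => exact convexOn_id (convex_Icc 0 1)
  | succ n ih =>
    refine ⟨convex_Icc 0 1, ?_⟩
    intro x hx y hy a b ha hb hab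
    rw [iterate_succ_apply', iterate_succ_apply', iterate_succ_apply']
    have hz := (convex_Icc (0 : ℝ) 1) hx hy ha hb hab
    have h1 := kapI_mem n hx.1 hx.2
    have h2 := kapI_mem n hy.1 hy.2
    have h3 := kapI_mem n hz.1 hz.2
    have h4 : a • kap^[n] x + b • kap^[n] y ∈ Icc (0 : ℝ) 1 :=
      (convex_Icc (0 : ℝ) 1) ⟨h1.1, h1.2⟩ ⟨h2.1, h2.2⟩ ha hb hab
    exact (kap_mono h3.1 (ih.2 hx hy ha hb hab) h4.2).trans
      (kap_convex.2 ⟨h1.1, h1.2⟩ ⟨h2.1, h2.2⟩ ha hb hab)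

theorem hI_mul (n : ℕ) {c x : ℝ} (c0 : 0 ≤ c) (c1 : c ≤ 1) (x0 : 0 ≤ x) (x1 : x ≤ 1) :
    c ^ ((1 / 2 : ℝ) ^ n) * h^[n] x ≤ h^[n] (c * x) := by
  induction n with
  | zero => simp
  | succ n ih =>
    rw [iterate_succ_apply', iterate_succ_apply']
    have h1 := hI_mem n x0 x1
    have h0 : 0 ≤ c ^ ((1 / 2 : ℝ) ^ n) := by positivity
    have h2 : c ^ ((1 / 2 : ℝ) ^ n) ≤ 1 := Real.rpow_le_one c0 c1 (by positivity)
    have h3 : c ^ ((1 / 2 : ℝ) ^ (n + 1)) = √(c ^ ((1 / 2 : ℝ) ^ n)) := by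
      rw [Real.sqrt_eq_rpow, ← Real.rpow_mul c0, pow_succ]
    rw [h3]
    refine (h_mul h0 h2 h1.1).trans ?_
    refine h_mono (mul_nonneg h0 h1.1) ih (hI_mem n (by positivity) ?_).2
    nlinarith

/-! ### The map on distribution functions -/

/-- The step of the minimiser. -/
noncomputable def opA (F : ℤ → ℝ) (k : ℤ) : ℝ := 1 - (1 - (F (k - 1) + F k) / 2) ^ 2

/-- The step of the maximiser. -/
noncomputable def opB (G : ℤ → ℝ) (k : ℤ) : ℝ := ((G k + G (k + 1)) / 2) ^ 2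

/-- One full round. -/
noncomputable def Psi (F : ℤ → ℝ) : ℤ → ℝ := opB (opA F)

/-- `F` takes values in `[0, 1]` and is at least as steep as the fixed points of `Psi`. -/
def Good (F : ℤ → ℝ) : Prop := (∀ k, 0 ≤ F k) ∧ (∀ k, F k ≤ 1) ∧ ∀ k, h (F k) ≤ F (k + 1)

theorem Good.mono {F : ℤ → ℝ} (hF : Good F) (k : ℤ) : F k ≤ F (k + 1) :=
  (le_h (hF.1 k) (hF.2.1 k)).trans (hF.2.2 k)

theorem Good.opA {F : ℤ → ℝ} (hF : Good F) : Good (opA F) := by
  obtain ⟨h0, h1, h2⟩ := hF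
  have hs : ∀ k, 0 ≤ (F (k - 1) + F k) / 2 ∧ (F (k - 1) + F k) / 2 ≤ 1 := fun k =>
    ⟨by linarith [h0 (k - 1), h0 k], by linarith [h1 (k - 1), h1 k]⟩
  refine ⟨fun k => ?_, fun k => ?_, fun k => ?_⟩
  · have := hs k
    unfold Two.opA
    nlinarith
  · unfold Two.opA
    nlinarith [sq_nonneg (1 - (F (k - 1) + F k) / 2)]
  · -- `opA F k ≤ F k` and `h (F k) ≤ opA F (k+1)`
    have ha : Two.opA F k ≤ F k := by
      have e1 : F (k - 1) ≤ kap (F k) := by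
        have := h2 (k - 1)
        rw [sub_add_cancel] at this
        rw [← kap_h (h0 (k - 1)) (h1 (k - 1))]
        exact kap_mono (h_nonneg (h0 _) (h1 _)) this (h1 k)
      have e2 : (kap (F k) + F k) / 2 = 1 - √(1 - F k) := kap_add
      have e3 : √(1 - F k) ^ 2 = 1 - F k := Real.sq_sqrt (by linarith [h1 k])
      have e4 : 0 ≤ √(1 - F k) := Real.sqrt_nonneg _
      unfold Two.opA
      have e5 : √(1 - F k) ≤ 1 - (F (k - 1) + F k) / 2 := by linarith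
      nlinarith
    have hb : h (F k) ≤ Two.opA F (k + 1) := by
      have e1 := h2 k
      have e2 : (F k + h (F k)) / 2 = √(F k) := add_h
      have e3 := h_eq (h0 k)
      have e4 : √(F k) ≤ 1 := Real.sqrt_le_one.2 (h1 k)
      unfold Two.opA
      rw [add_sub_cancel_right, e3]
      have e5 : √(F k) ≤ (F k + F (k + 1)) / 2 := by linarith
      have e6 := (hs (k + 1)).2
      rw [add_sub_cancel_right] at e6
      nlinarith
    have h3 : 0 ≤ Two.opA F k := by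
      have := hs k
      unfold Two.opA
      nlinarith
    exact (h_mono h3 ha (h1 k)).trans hb

theorem Good.opB {F : ℤ → ℝ} (hF : Good F) : Good (opB F) := by
  obtain ⟨h0, h1, h2⟩ := hF
  have hs : ∀ k, 0 ≤ (F k + F (k + 1)) / 2 ∧ (F k + F (k + 1)) / 2 ≤ 1 := fun k =>
    ⟨by linarith [h0 (k + 1), h0 k], by linarith [h1 (k + 1), h1 k]⟩
  refine ⟨fun k => ?_, fun k => ?_, fun k => ?_⟩
  · unfold Two.opB
    positivity
  · have := hs k
    unfold Two.opB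
    nlinarith
  · have ha : Two.opB F k ≤ kap (F (k + 1)) := by
      have e1 : F k ≤ kap (F (k + 1)) := by
        rw [← kap_h (h0 k) (h1 k)]
        exact kap_mono (h_nonneg (h0 _) (h1 _)) (h2 k) (h1 _)
      have e2 : (kap (F (k + 1)) + F (k + 1)) / 2 = 1 - √(1 - F (k + 1)) := kap_add
      have e3 := kap_eq (h1 (k + 1))
      have e5 : (F k + F (k + 1)) / 2 ≤ 1 - √(1 - F (k + 1)) := by linarith
      unfold Two.opB
      rw [e3]
      exact pow_le_pow_left₀ (hs k).1 e5 2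
    have hb : F (k + 1) ≤ Two.opB F (k + 1) := by
      have e1 := h2 (k + 1)
      have e2 : (F (k + 1) + h (F (k + 1))) / 2 = √(F (k + 1)) := add_h
      have e3 : √(F (k + 1)) ^ 2 = F (k + 1) := Real.sq_sqrt (h0 _)
      have e5 : √(F (k + 1)) ≤ (F (k + 1) + F (k + 1 + 1)) / 2 := by linarith
      unfold Two.opB
      conv_lhs => rw [← e3]
      exact pow_le_pow_left₀ (Real.sqrt_nonneg _) e5 2
    have h3 : 0 ≤ Two.opB F k := by
      unfold Two.opB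
      positivity
    calc h (Two.opB F k) ≤ h (kap (F (k + 1))) :=
          h_mono h3 ha (kap_le_one (h0 _) (h1 _))
      _ = F (k + 1) := h_kap (h0 _) (h1 _)
      _ ≤ _ := hb

theorem Good.Psi {F : ℤ → ℝ} (hF : Good F) : Good (Psi F) := hF.opA.opB

/-! ### The two crude estimates -/

theorem crude_left {F : ℤ → ℝ} (hF : Good F) (k : ℤ) : 9 / 64 * F k ^ 2 ≤ Psi F (k - 1) := by
  obtain ⟨h0, h1, h2⟩ := hF
  have a0 : 0 ≤ opA F (k - 1) := (Good.opA ⟨h0, h1, h2⟩).1 _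
  have a1 : 3 / 4 * F k ≤ opA F k := by
    unfold opA
    have e1 := h0 (k - 1)
    have e2 := h0 k
    have e3 := h1 k
    have e4 := h1 (k - 1)
    nlinarith
  unfold Psi opB
  rw [sub_add_cancel]
  have e2 := h0 k
  nlinarith

theorem crude_right {F : ℤ → ℝ} (hF : Good F) (k : ℤ) :
    9 / 64 * (1 - F k) ^ 2 ≤ 1 - Psi F (k + 1) := by
  obtain ⟨h0, h1, h2⟩ := hF
  have a1 : opA F (k + 1 + 1) ≤ 1 := (Good.opA ⟨h0, h1, h2⟩).2.1 _
  have a0 : 0 ≤ opA F (k + 1) := (Good.opA ⟨h0, h1, h2⟩).1 _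
  have a2 : (1 - F k) ^ 2 / 4 ≤ 1 - opA F (k + 1) := by
    unfold opA
    rw [add_sub_cancel_right]
    have e1 := h0 (k + 1)
    have e2 := h0 k
    have e3 := h1 k
    have e4 := h1 (k + 1)
    nlinarith
  have a3 : 0 ≤ opA F (k + 1 + 1) := (Good.opA ⟨h0, h1, h2⟩).1 _
  unfold Psi opB
  have e2 := h0 k
  have e3 := h1 k
  have e4 : (1 - F k) ^ 2 ≤ 1 := by nlinarith
  have e5 : (opA F (k + 1) + opA F (k + 1 + 1)) / 2 ≤ 1 - (1 - F k) ^ 2 / 8 := by linarith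
  have e6 : 0 ≤ (opA F (k + 1) + opA F (k + 1 + 1)) / 2 := by linarith
  nlinarith [sq_nonneg (1 - F k), pow_le_pow_left₀ e6 e5 2]

/-- Propagation of a bound along a ray with squaring. -/
theorem seq_bound (L : ℕ) (x : ℕ → ℝ) (hx : ∀ m, 0 ≤ x m ∧ x m ≤ 1)
    (hs : ∀ m, 9 / 64 * x m ^ 2 ≤ x (m + 1)) (m : ℕ) :
    (9 / 64 : ℝ) ^ ((1 / 2 : ℝ) ^ L - (1 / 2 : ℝ) ^ (L + m)) * h^[L] (x 0) ≤ h^[L + m] (x m) := by
  induction m with
  | zero => simp
  | succ m ih =>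
    have h1 : 9 / 64 * kap (x m) ≤ x (m + 1) := by
      have := kap_le_sq (hx m).1 (hx m).2
      linarith [hs m]
    have k0 := kap_nonneg (hx m).2
    have k1 := kap_le_one (hx m).1 (hx m).2
    have h2 := hI_mul (L + m + 1) (c := 9 / 64) (by norm_num) (by norm_num) k0 k1
    have h3 : h^[L + m + 1] (kap (x m)) = h^[L + m] (x m) := by
      rw [iterate_succ_apply, h_kap (hx m).1 (hx m).2]
    rw [h3] at h2
    have h4 := hI_mono (L + m + 1) (by positivity) h1 (hx (m + 1)).2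
    have h5 : (9 / 64 : ℝ) ^ ((1 / 2 : ℝ) ^ L - (1 / 2 : ℝ) ^ (L + (m + 1))) =
        (9 / 64 : ℝ) ^ ((1 / 2 : ℝ) ^ (L + m + 1)) *
        (9 / 64 : ℝ) ^ ((1 / 2 : ℝ) ^ L - (1 / 2 : ℝ) ^ (L + m)) := by
      rw [← Real.rpow_add (by norm_num)]
      congr 1
      rw [← add_assoc, pow_succ (1 / 2 : ℝ) (L + m)]
      ring
    rw [h5, mul_assoc]
    exact (mul_le_mul_of_nonneg_left ih (by positivity)).trans (h2.trans h4)

theorem seq_bound' (L : ℕ) (x : ℕ → ℝ) (hx : ∀ m, 0 ≤ x m ∧ x m ≤ 1)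
    (hs : ∀ m, 9 / 64 * x m ^ 2 ≤ x (m + 1)) (m : ℕ) :
    (9 / 64 : ℝ) ^ ((1 / 2 : ℝ) ^ L) * h^[L] (x 0) ≤ h^[L + m] (x m) := by
  refine le_trans ?_ (seq_bound L x hx hs m)
  apply mul_le_mul_of_nonneg_right _ (hI_mem L (hx 0).1 (hx 0).2).1
  apply Real.rpow_le_rpow_of_exponent_ge (by norm_num) (by norm_num)
  have : (0 : ℝ) ≤ (1 / 2 : ℝ) ^ (L + m) := by positivity
  linarith

theorem Good.iter {F : ℤ → ℝ} (hF : Good F) (m : ℕ) : Good (Two.Psi^[m] F) := by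
  induction m with
  | zero => exact hF
  | succ m ih =>
    rw [iterate_succ_apply']
    exact ih.Psi

/-- The parameter read off at the site `-L`. -/
noncomputable def lq (F : ℤ → ℝ) (L : ℕ) : ℝ := h^[L] (F (-L))

/-- The complementary parameter read off at the site `L`. -/
noncomputable def rq (F : ℤ → ℝ) (L : ℕ) : ℝ := h^[L] (1 - F L)

theorem lq_prop {F : ℤ → ℝ} (hF : Good F) (L m : ℕ) :
    (9 / 64 : ℝ) ^ ((1 / 2 : ℝ) ^ L) * lq F L ≤ lq (Psi^[m] F) (L + m) := by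
  have := seq_bound' L (fun m => Psi^[m] F (-L - m)) (fun m => ⟨(hF.iter m).1 _, (hF.iter m).2.1 _⟩)
    (fun m => ?_) m
  · simp only [iterate_zero, id_eq, Nat.cast_zero, sub_zero] at this
    unfold lq
    rw [show (-((L + m : ℕ) : ℤ)) = -L - m by push_cast; ring]
    exact this
  · have := crude_left (hF.iter m) (-L - m)
    simp only [iterate_succ_apply']
    rw [show (-(L : ℤ) - ((m + 1 : ℕ) : ℤ)) = -L - m - 1 by push_cast; ring]
    exact this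

theorem rq_prop {F : ℤ → ℝ} (hF : Good F) (L m : ℕ) :
    (9 / 64 : ℝ) ^ ((1 / 2 : ℝ) ^ L) * rq F L ≤ rq (Psi^[m] F) (L + m) := by
  have := seq_bound' L (fun m => 1 - Psi^[m] F (L + m))
    (fun m => ⟨by linarith [(hF.iter m).2.1 (L + m)], by linarith [(hF.iter m).1 (L + m)]⟩)
    (fun m => ?_) m
  · simp only [iterate_zero, id_eq, Nat.cast_zero, add_zero] at this
    unfold rq
    rw [show (((L + m : ℕ) : ℤ)) = L + m by push_cast; ring]
    exact this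
  · have := crude_right (hF.iter m) (L + m)
    simp only [iterate_succ_apply']
    rw [show ((L : ℤ) + ((m + 1 : ℕ) : ℤ)) = L + m + 1 by push_cast; ring]
    exact this

theorem lq_anti {F : ℤ → ℝ} (hF : Good F) (L : ℕ) : lq F (L + 1) ≤ lq F L := by
  unfold lq
  rw [iterate_succ_apply]
  have h1 := hF.2.2 (-((L + 1 : ℕ) : ℤ))
  rw [show (-((L + 1 : ℕ) : ℤ)) + 1 = -L by push_cast; ring] at h1
  exact hI_mono L (h_nonneg (hF.1 _) (hF.2.1 _)) h1 (hF.2.1 _)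

theorem rq_anti {F : ℤ → ℝ} (hF : Good F) (L : ℕ) : rq F (L + 1) ≤ rq F L := by
  unfold rq
  rw [iterate_succ_apply]
  have h1 := hF.2.2 L
  have h2 : 1 - F ((L + 1 : ℕ) : ℤ) ≤ kap (1 - F L) := by
    rw [← one_sub_h]
    push_cast
    linarith
  have h3 : h (1 - F ((L + 1 : ℕ) : ℤ)) ≤ 1 - F L := by
    rw [← h_kap (y := 1 - F L) (by linarith [hF.2.1 L]) (by linarith [hF.1 L])]
    exact h_mono (by linarith [hF.2.1 ((L + 1 : ℕ) : ℤ)]) h2
      (kap_le_one (by linarith [hF.2.1 L]) (by linarith [hF.1 L]))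
  exact hI_mono L (h_nonneg (by linarith [hF.2.1 ((L + 1 : ℕ) : ℤ)])
    (by linarith [hF.1 ((L + 1 : ℕ) : ℤ)])) h3 (by linarith [hF.1 L])

theorem lq_antitone {F : ℤ → ℝ} (hF : Good F) : Antitone (lq F) :=
  antitone_nat_of_succ_le (lq_anti hF)

theorem rq_antitone {F : ℤ → ℝ} (hF : Good F) : Antitone (rq F) :=
  antitone_nat_of_succ_le (rq_anti hF)

/-! ### The family of fixed points -/

/-- The fixed point with value `a` at the origin. -/
noncomputable def fam (a : ℝ) (k : ℤ) : ℝ :=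
  if 0 ≤ k then 1 - kap^[k.toNat] (1 - a) else kap^[(-k).toNat] a

theorem fam_zero (a : ℝ) : fam a 0 = a := by
  simp [fam]

theorem fam_nonneg_eq (a : ℝ) (n : ℕ) : fam a n = 1 - kap^[n] (1 - a) := by
  simp [fam]

theorem fam_neg (a : ℝ) (n : ℕ) : fam a (-n) = kap^[n] a := by
  rcases Nat.eq_zero_or_pos n with h | h
  · subst h
    simp [fam]
  · unfold fam
    rw [if_neg (by omega)]
    simp

theorem fam_mem {a : ℝ} (a0 : 0 ≤ a) (a1 : a ≤ 1) (k : ℤ) : 0 ≤ fam a k ∧ fam a k ≤ 1 := by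
  obtain ⟨n, hn | hn⟩ := Int.eq_nat_or_neg k
  · rw [hn, fam_nonneg_eq]
    have := kapI_mem n (y := 1 - a) (by linarith) (by linarith)
    exact ⟨by linarith, by linarith⟩
  · rw [hn, fam_neg]
    exact kapI_mem n a0 a1

theorem fam_succ {a : ℝ} (a0 : 0 ≤ a) (a1 : a ≤ 1) (k : ℤ) : fam a (k + 1) = h (fam a k) := by
  rcases le_or_gt 0 k with hk | hk
  · obtain ⟨n, rfl⟩ := Int.eq_ofNat_of_zero_le hk
    rw [show ((n : ℤ) + 1) = ((n + 1 : ℕ) : ℤ) by push_cast; ring, fam_nonneg_eq, fam_nonneg_eq,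
      iterate_succ_apply', one_sub_kap]
  · obtain ⟨n, hn⟩ : ∃ n : ℕ, k = -((n + 1 : ℕ) : ℤ) := ⟨(-k - 1).toNat, by omega⟩
    rw [hn, show (-((n + 1 : ℕ) : ℤ) + 1) = -n by push_cast; ring, fam_neg, fam_neg,
      iterate_succ_apply']
    have := kapI_mem n a0 a1
    rw [h_kap this.1 this.2]

theorem fam_good {a : ℝ} (a0 : 0 ≤ a) (a1 : a ≤ 1) : Good (fam a) :=
  ⟨fun k => (fam_mem a0 a1 k).1, fun k => (fam_mem a0 a1 k).2, fun k => (fam_succ a0 a1 k).ge⟩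

theorem opA_fam {a : ℝ} (a0 : 0 ≤ a) (a1 : a ≤ 1) : opA (fam a) = fam a := by
  funext k
  have h1 := fam_succ a0 a1 (k - 1)
  rw [sub_add_cancel] at h1
  unfold opA
  rw [h1, add_h, ← h_eq (fam_mem a0 a1 _).1]

theorem opB_fam {a : ℝ} (a0 : 0 ≤ a) (a1 : a ≤ 1) : opB (fam a) = fam a := by
  funext k
  unfold opB
  rw [fam_succ a0 a1, add_h, Real.sq_sqrt (fam_mem a0 a1 _).1]

theorem Psi_fam {a : ℝ} (a0 : 0 ≤ a) (a1 : a ≤ 1) : Psi (fam a) = fam a := by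
  unfold Psi
  rw [opA_fam a0 a1, opB_fam a0 a1]

theorem opA_mono {F G : ℤ → ℝ} (hG : Good G) (hFG : ∀ k, F k ≤ G k) (k : ℤ) :
    opA F k ≤ opA G k := by
  unfold opA
  have h1 := hFG k
  have h2 := hFG (k - 1)
  have h3 := hG.2.1 k
  have h4 := hG.2.1 (k - 1)
  nlinarith

theorem opB_mono {F G : ℤ → ℝ} (hF : Good F) (hFG : ∀ k, F k ≤ G k) (k : ℤ) :
    opB F k ≤ opB G k := by
  unfold opB
  have h1 := hFG k
  have h2 := hFG (k + 1)
  have h3 := hF.1 k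
  have h4 := hF.1 (k + 1)
  exact pow_le_pow_left₀ (by linarith) (by linarith) 2

theorem Psi_mono {F G : ℤ → ℝ} (hF : Good F) (hG : Good G) (hFG : ∀ k, F k ≤ G k) (k : ℤ) :
    Psi F k ≤ Psi G k :=
  opB_mono hF.opA (opA_mono hG hFG) k

/-- Strictness: contact with a fixed point at `k` comes from contact at `k + 1`. -/
theorem contact {a : ℝ} (a0 : 0 ≤ a) (a1 : a ≤ 1) {F : ℤ → ℝ} (hF : Good F)
    (ha : ∀ k, fam a k ≤ F k) (k : ℤ) (hk : Psi F k = fam a k) : F (k + 1) = fam a (k + 1) := by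
  have hfa := fam_good a0 a1
  have hA : ∀ j, fam a j ≤ opA F j := fun j => by
    have := opA_mono hF ha j
    rwa [opA_fam a0 a1] at this
  have f0 := (fam_mem a0 a1 k)
  have f1 := (fam_mem a0 a1 (k + 1))
  have g0 := hF.opA.1 k
  have g1 := hF.opA.1 (k + 1)
  have e1 : opA F (k + 1) = fam a (k + 1) := by
    have h1 : ((opA F k + opA F (k + 1)) / 2) ^ 2 = ((fam a k + fam a (k + 1)) / 2) ^ 2 := by
      have h2 : opB (fam a) k = fam a k := by rw [opB_fam a0 a1]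
      have h3 : opB (opA F) k = fam a k := hk
      unfold opB at h2 h3
      rw [h2, h3]
    have h4 := (sq_eq_sq₀ (by linarith) (by linarith)).1 h1
    linarith [hA k, hA (k + 1)]
  have e2 : opA (fam a) (k + 1) = fam a (k + 1) := by rw [opA_fam a0 a1]
  unfold opA at e1 e2
  rw [add_sub_cancel_right] at e1 e2
  have h5 : (1 - (F k + F (k + 1)) / 2) ^ 2 = (1 - (fam a k + fam a (k + 1)) / 2) ^ 2 := by
    linarith
  have h6 := (sq_eq_sq₀ (by linarith [hF.2.1 k, hF.2.1 (k + 1)]) (by linarith)).1 h5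
  linarith [ha k, ha (k + 1)]

theorem contact_left {a : ℝ} (a0 : 0 ≤ a) (a1 : a ≤ 1) {F : ℤ → ℝ} (hF : Good F)
    (ha : ∀ k, fam a k ≤ F k) (k : ℤ) (hk : F (k + 1) = fam a (k + 1)) : F k = fam a k := by
  have h1 := hF.2.2 k
  rw [hk, fam_succ a0 a1] at h1
  have h2 := h_mono (fam_mem a0 a1 k).1 (ha k) (hF.2.1 k)
  exact h_inj (hF.1 k) (hF.2.1 k) (fam_mem a0 a1 k).1 (fam_mem a0 a1 k).2 (le_antisymm h1 h2)

theorem contact_left_nat {a : ℝ} (a0 : 0 ≤ a) (a1 : a ≤ 1) {F : ℤ → ℝ} (hF : Good F)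
    (ha : ∀ k, fam a k ≤ F k) (k : ℤ) (hk : F k = fam a k) (n : ℕ) :
    F (k - n) = fam a (k - n) := by
  induction n with
  | zero => simpa using hk
  | succ n ih =>
    apply contact_left a0 a1 hF ha
    rw [show (k - ((n + 1 : ℕ) : ℤ) + 1) = k - n by push_cast; ring]
    exact ih

/-- The refined estimate at the left boundary of a window. -/
theorem refined {a t δ : ℝ} (a0 : 0 ≤ a) (hat : a ≤ t) (t1 : t ≤ 1) (L : ℕ) {F : ℤ → ℝ}
    (hF : Good F) (ha : ∀ k, fam a k ≤ F k) (hL : kap^[L] t ≤ F (-L))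
    (hy : kap^[L] t ≤ 1 / 2) (hδ : 2 * kap^[L] t ≤ δ) (δ1 : δ ≤ 1) :
    kap^[L + 1] (t - δ * (t - a)) ≤ Psi F (-(L + 1 : ℕ)) := by
  have a1 : a ≤ 1 := hat.trans t1
  obtain ⟨y, hyd⟩ : ∃ y, y = kap^[L] t := ⟨_, rfl⟩
  obtain ⟨z, hzd⟩ : ∃ z, z = kap^[L] a := ⟨_, rfl⟩
  obtain ⟨t', ht'⟩ : ∃ t', t' = t - δ * (t - a) := ⟨_, rfl⟩
  obtain ⟨y', hyd'⟩ : ∃ y', y' = kap^[L] t' := ⟨_, rfl⟩
  have hm := kapI_mem L (a0.trans hat) t1
  have hma := kapI_mem L a0 a1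
  have hδ0 : 0 ≤ δ := le_trans (by linarith [hm.1]) hδ
  have ht'0 : a ≤ t' := by rw [ht']; nlinarith
  have ht'1 : t' ≤ t := by rw [ht']; nlinarith
  have hm' := kapI_mem L (a0.trans ht'0) (ht'1.trans t1)
  rw [← hyd] at hL hy hδ hm
  rw [← hzd] at hma
  rw [← hyd'] at hm'
  have hzy : z ≤ y := by rw [hzd, hyd]; exact kapI_mono L a0 hat t1
  have hy'y : y' ≤ y := by rw [hyd', hyd]; exact kapI_mono L (a0.trans ht'0) ht'1 t1
  have hconv : y' ≤ (1 - δ) * y + δ * z := by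
    have := (kapI_convex L).2 (⟨a0.trans hat, t1⟩ : t ∈ Icc (0 : ℝ) 1)
      (⟨a0, a1⟩ : a ∈ Icc (0 : ℝ) 1) (sub_nonneg.2 δ1) hδ0 (by ring)
    simp only [smul_eq_mul] at this
    rw [show (1 - δ) * t + δ * a = t' by rw [ht']; ring, ← hyd, ← hzd, ← hyd'] at this
    exact this
  have hkk := kap_sub hma.1 hzy hy
  have hkz : kap z = fam a (-(L + 1 : ℕ)) := by
    rw [fam_neg, iterate_succ_apply', hzd]
  have hky' : kap y' ≤ kap y := kap_mono hm'.1 hy'y hm.2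
  -- lower bounds for `opA F`
  have b1 : kap z ≤ opA F (-(L + 1 : ℕ)) := by
    rw [hkz]
    have := opA_mono hF ha (-(L + 1 : ℕ))
    rwa [opA_fam a0 a1] at this
  have b2 : y - (kap y - kap z) ≤ opA F (-(L : ℕ)) := by
    have e1 : kap z ≤ F (-L - 1) := by
      rw [hkz, show (-((L + 1 : ℕ) : ℤ)) = -L - 1 by push_cast; ring]
      exact ha _
    have e2 : (kap y + y) / 2 = 1 - √(1 - y) := kap_add
    have e3 : √(1 - y) ^ 2 = 1 - y := Real.sq_sqrt (by linarith)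
    have e4 : 0 ≤ √(1 - y) := Real.sqrt_nonneg _
    have e5 := hF.2.1 (-L)
    have e6 := hF.2.1 (-L - 1)
    have e7 : 0 ≤ kap z := kap_nonneg hma.2
    have e8 : kap z ≤ kap y := kap_mono hma.1 hzy hm.2
    have e11 : kap y = (1 - √(1 - y)) ^ 2 := kap_eq hm.2
    have e12 : √(1 - y) ≤ 1 := Real.sqrt_le_one.2 (by linarith)
    unfold opA
    obtain ⟨S, hS⟩ : ∃ S, S = (F (-L - 1) + F (-L)) / 2 := ⟨_, rfl⟩
    obtain ⟨r, hr⟩ : ∃ r, r = √(1 - y) := ⟨_, rfl⟩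
    obtain ⟨D, hD⟩ : ∃ D, D = kap y - kap z := ⟨_, rfl⟩
    rw [← hS, ← hD]
    rw [← hr] at e2 e3 e4 e11 e12
    have e9 : 1 - r - D / 2 ≤ S := by rw [hS, hD]; linarith
    have e10 : S ≤ 1 := by rw [hS]; linarith
    have e13 : 0 ≤ D := by rw [hD]; linarith
    have e14 : D ≤ (1 - r) ^ 2 := by rw [hD, ← e11]; linarith
    have e15 : (1 - S) ^ 2 ≤ (r + D / 2) ^ 2 := pow_le_pow_left₀ (by linarith) (by linarith) 2
    have e16 : r + D / 4 ≤ 1 := by nlinarith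
    nlinarith [mul_nonneg e13 (by linarith : 0 ≤ 1 - (r + D / 4))]
  unfold Psi opB
  rw [show (-((L + 1 : ℕ) : ℤ) + 1) = -(L : ℕ) by push_cast; ring, iterate_succ_apply', ← ht',
    ← hyd', kap_eq hm'.2]
  have c1 : (kap y' + y') / 2 = 1 - √(1 - y') := kap_add
  have c2 : √(1 - y') ≤ 1 := Real.sqrt_le_one.2 (by linarith)
  rw [← c1]
  have c3 : 0 ≤ (kap y' + y') / 2 := by linarith
  apply pow_le_pow_left₀ c3
  have c4 : y * (y - z) * 2 ≤ δ * (y - z) := by nlinarith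
  nlinarith

end Q288.MinMax.Two
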