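import Mathlib
import Pool.Agent.Q288.MinMax.Two

/-!
# Convergence of the iterates started from a point mass (`d = 2`)
-/

namespace Q288.MinMax.Two

open Filter Topology Set Function

/-- The distribution function of the constant `0`. -/
noncomputable def F0 (k : ℤ) : ℝ := if 0 ≤ k then 1 else 0

/-- The iterates. -/
noncomputable def orb (n : ℕ) : ℤ → ℝ := Psi^[n] F0

theorem F0_good : Good F0 := by
  refine ⟨fun k => ?_, fun k => ?_, fun k => ?_⟩
  · unfold F0; split_ifs <;> norm_num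
  · unfold F0; split_ifs <;> norm_num
  · unfold F0
    split_ifs with h1 h2 h2
    · simp [h]; norm_num
    · omega
    · simp [h]
    · simp [h]

theorem orb_good (n : ℕ) : Good (orb n) := F0_good.iter n

theorem orb_add (n m : ℕ) : orb (n + m) = Psi^[m] (orb n) := by
  unfold orb
  rw [← iterate_add_apply, add_comm]

theorem continuous_Psi : Continuous Psi := by
  unfold Psi opB opA
  fun_prop

theorem continuous_lq (L : ℕ) : Continuous fun F : ℤ → ℝ => lq F L := by
  unfold lq
  exact (continuous_h.iterate L).comp (continuous_apply _)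

theorem continuous_rq (L : ℕ) : Continuous fun F : ℤ → ℝ => rq F L := by
  unfold rq
  exact (continuous_h.iterate L).comp (by fun_prop)

theorem isClosed_good : IsClosed {F : ℤ → ℝ | Good F} := by
  unfold Good
  simp only [ofPred_and, ofPred_forall]
  refine IsClosed.inter (isClosed_iInter fun k => isClosed_le continuous_const (continuous_apply k))
    (IsClosed.inter (isClosed_iInter fun k => isClosed_le (continuous_apply k) continuous_const)
      (isClosed_iInter fun k => isClosed_le (continuous_h.comp (continuous_apply k))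
        (continuous_apply (k + 1))))

/-- The compact box of functions with values in `[0, 1]`. -/
def box : Set (ℤ → ℝ) := Set.pi univ fun _ => Icc 0 1

theorem isCompact_box : IsCompact box := isCompact_univ_pi fun _ => isCompact_Icc

theorem good_box {F : ℤ → ℝ} (hF : Good F) : F ∈ box := fun k _ => ⟨hF.1 k, hF.2.1 k⟩

/-- Limit points of the iterates. -/
def Om (G : ℤ → ℝ) : Prop := MapClusterPt G atTop orb

theorem Om.good {G : ℤ → ℝ} (hG : Om G) : Good G :=
  isClosed_good.mem_of_mapClusterPt hG (Eventually.of_forall orb_good)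

theorem isClosed_Om : IsClosed {G | Om G} := by
  have : {G | Om G} = ⋂ i : ℕ, closure (orb '' Ici i) := by
    ext G
    simp only [mem_ofPred_eq, mem_iInter]
    exact mapClusterPt_atTop_iff_forall_mem_closure
  rw [this]
  exact isClosed_iInter fun i => isClosed_closure

theorem exists_Om : ∃ G, Om G := by
  obtain ⟨G, _, hG⟩ := isCompact_box.exists_mapClusterPt (f := atTop) (u := orb)
    (le_principal_iff.2 (Filter.mem_map.2 (Filter.Eventually.of_forall fun n =>
      good_box (orb_good n))))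
  exact ⟨G, hG⟩

theorem Om.psi {G : ℤ → ℝ} (hG : Om G) : Om (Psi G) := by
  have h1 : MapClusterPt (Psi G) atTop (Psi ∘ orb) :=
    MapClusterPt.continuousAt_comp continuous_Psi.continuousAt hG
  have h2 : Psi ∘ orb = orb ∘ (fun n => n + 1) := by
    funext n
    simp [orb, iterate_succ_apply']
  rw [h2] at h1
  exact h1.of_comp (tendsto_add_atTop_nat 1)

theorem Om.iter {G : ℤ → ℝ} (hG : Om G) (m : ℕ) : Om (Psi^[m] G) := by
  induction m with
  | zero => exact hG
  | succ m ih =>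
    rw [iterate_succ_apply']
    exact ih.psi

theorem Om.pred {G : ℤ → ℝ} (hG : Om G) : ∃ G', Om G' ∧ Psi G' = G := by
  obtain ⟨U, hU, hUG⟩ := mapClusterPt_iff_ultrafilter.1 hG
  have hbox : ∀ n, orb (n - 1) ∈ box := fun n => good_box (orb_good _)
  obtain ⟨G', _, hG'⟩ := isCompact_box.ultrafilter_le_nhds (U.map fun n => orb (n - 1)) (by
    simp only [Ultrafilter.coe_map, le_principal_iff, Filter.mem_map]
    exact Filter.Eventually.of_forall hbox)
  have hG'' : Tendsto (fun n => orb (n - 1)) U (𝓝 G') := hG'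
  refine ⟨G', ?_, ?_⟩
  · have h1 : MapClusterPt G' (U : Filter ℕ) (orb ∘ fun n => n - 1) :=
      Tendsto.mapClusterPt hG''
    exact h1.of_comp ((tendsto_sub_atTop_nat 1).mono_left hU)
  · have h1 : Tendsto (fun n => Psi (orb (n - 1))) U (𝓝 (Psi G')) :=
      (continuous_Psi.tendsto G').comp hG''
    have h2 : (fun n => Psi (orb (n - 1))) =ᶠ[(U : Filter ℕ)] orb := by
      filter_upwards [hU (eventually_ge_atTop 1)] with n hn
      obtain ⟨m, rfl⟩ := Nat.exists_eq_add_of_le' hn
      simp [orb, iterate_succ_apply']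
    exact tendsto_nhds_unique (h1.congr' h2) hUG

theorem Om_of_seq (u : ℕ → ℤ → ℝ) (hu : ∀ n, Om (u n)) :
    ∃ H, Om H ∧ MapClusterPt H atTop u := by
  obtain ⟨H, _, hH⟩ := isCompact_box.exists_mapClusterPt (f := atTop) (u := u)
    (le_principal_iff.2 (Filter.mem_map.2 (Filter.Eventually.of_forall fun n =>
      good_box (hu n).good)))
  exact ⟨H, isClosed_Om.mem_of_mapClusterPt hH (Eventually.of_forall hu), hH⟩

/-! ### Transfer of the parameters between limit points -/

/-- The loss factor. -/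
noncomputable def th (L : ℕ) : ℝ := (9 / 64 : ℝ) ^ ((1 / 2 : ℝ) ^ L)

theorem th_nonneg (L : ℕ) : 0 ≤ th L := by unfold th; positivity

theorem th_le_one (L : ℕ) : th L ≤ 1 :=
  Real.rpow_le_one (by norm_num) (by norm_num) (by positivity)

theorem th_tendsto : Tendsto th atTop (𝓝 1) := by
  have h1 : Tendsto (fun L : ℕ => (1 / 2 : ℝ) ^ L) atTop (𝓝 0) :=
    tendsto_pow_atTop_nhds_zero_of_lt_one (by norm_num) (by norm_num)
  have h2 : ContinuousAt (fun x : ℝ => (9 / 64 : ℝ) ^ x) 0 :=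
    (Real.continuous_const_rpow (by norm_num)).continuousAt
  have h3 := h2.tendsto.comp h1
  rw [Real.rpow_zero] at h3
  exact h3

/-- The three properties shared by `lq` and `rq`. -/
structure Par (q : (ℤ → ℝ) → ℕ → ℝ) : Prop where
  cont : ∀ L, Continuous fun F => q F L
  anti : ∀ F, Good F → Antitone (q F)
  prop : ∀ F, Good F → ∀ L m, th L * q F L ≤ q (Psi^[m] F) (L + m)

theorem par_lq : Par lq :=
  ⟨continuous_lq, fun _ hF => lq_antitone hF, fun _ hF L m => lq_prop hF L m⟩

theorem par_rq : Par rq :=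
  ⟨continuous_rq, fun _ hF => rq_antitone hF, fun _ hF L m => rq_prop hF L m⟩

theorem Par.from_orb {q : (ℤ → ℝ) → ℕ → ℝ} (hq : Par q) {H : ℤ → ℝ} (hH : Om H) (n L0 L : ℕ) :
    th L0 * q (orb n) L0 ≤ q H L := by
  have hcl : IsClosed {F : ℤ → ℝ | th L0 * q (orb n) L0 ≤ q F L} :=
    isClosed_le continuous_const (hq.cont L)
  refine hcl.mem_of_mapClusterPt hH ?_
  filter_upwards [eventually_ge_atTop (n + L)] with N hN
  obtain ⟨m, rfl⟩ := Nat.exists_eq_add_of_le hN
  have h1 := hq.prop (orb n) (orb_good n) L0 (L + m)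
  rw [← orb_add, ← add_assoc n L m] at h1
  exact h1.trans (hq.anti _ (orb_good _) (by omega))

theorem Par.transfer {q : (ℤ → ℝ) → ℕ → ℝ} (hq : Par q) {G H : ℤ → ℝ} (hG : Om G) (hH : Om H)
    {s : ℝ} (hs : ∀ L, s ≤ q G L) (L : ℕ) : s ≤ q H L := by
  have h1 : ∀ L', th L' * s ≤ q H L := by
    intro L'
    refine le_of_forall_pos_le_add fun ε hε => ?_
    have hop : {F : ℤ → ℝ | s - ε < q F L'} ∈ 𝓝 G :=
      (isOpen_lt continuous_const (hq.cont L')).mem_nhds (by
        show s - ε < q G L'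
        linarith [hs L'])
    obtain ⟨n, hn⟩ := (hG.frequently hop).exists
    have h2 := hq.from_orb hH n L' L
    have h3 : th L' * (s - ε) ≤ th L' * q (orb n) L' :=
      mul_le_mul_of_nonneg_left hn.le (th_nonneg _)
    nlinarith [th_nonneg L', th_le_one L']
  have h2 : Tendsto (fun L' => th L' * s) atTop (𝓝 (1 * s)) := th_tendsto.mul_const s
  rw [one_mul] at h2
  exact le_of_tendsto' h2 h1

theorem orb_one_zero : orb 1 0 = 49 / 64 := by
  simp [orb, Psi, opA, opB, F0]
  norm_num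

/-- A lower bound for the parameters `lq`. -/
theorem lq_lower {H : ℤ → ℝ} (hH : Om H) (L : ℕ) : 441 / 4096 ≤ lq H L := by
  have h1 := par_lq.from_orb hH 1 0 L
  have h2 : lq (orb 1) 0 = 49 / 64 := by
    simp [lq, orb_one_zero]
  rw [h2] at h1
  unfold th at h1
  norm_num at h1
  linarith

/-- A lower bound for the parameters `rq`. -/
theorem rq_lower {H : ℤ → ℝ} (hH : Om H) (L : ℕ) : 135 / 4096 ≤ rq H L := by
  have h1 := par_rq.from_orb hH 1 0 L
  have h2 : rq (orb 1) 0 = 15 / 64 := by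
    simp [rq, orb_one_zero]
    norm_num
  rw [h2] at h1
  unfold th at h1
  norm_num at h1
  linarith

theorem fam_le {a : ℝ} (a0 : 0 ≤ a) (a1 : a ≤ 1) {H : ℤ → ℝ} (hH : Good H)
    (ha : ∀ L, a ≤ lq H L) (k : ℤ) : fam a k ≤ H k := by
  rcases le_or_gt 0 k with hk | hk
  · obtain ⟨n, rfl⟩ := Int.eq_ofNat_of_zero_le hk
    induction n with
    | zero =>
      have := ha 0
      simpa [lq, fam_zero] using this
    | succ n ih =>
      have h1 := fam_succ a0 a1 (n : ℤ)
      push_cast at *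
      rw [h1]
      exact (h_mono (fam_mem a0 a1 _).1 (ih (by positivity)) (hH.2.1 _)).trans (hH.2.2 _)
  · obtain ⟨n, rfl⟩ : ∃ n : ℕ, k = -(n : ℤ) := ⟨(-k).toNat, by omega⟩
    rw [fam_neg]
    have h1 := ha n
    have h2 := kapI_mono n a0 h1 (hI_mem n (hH.1 _) (hH.2.1 _)).2
    unfold lq at h2
    rwa [kapI_hI n (hH.1 _) (hH.2.1 _)] at h2

theorem le_fam {a : ℝ} (a0 : 0 ≤ a) (a1 : a ≤ 1) {H : ℤ → ℝ} (hH : Good H) (n : ℕ)
    (ha : 1 - a ≤ rq H n) : H n ≤ fam a n := by
  rw [fam_nonneg_eq]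
  have h0 := hH.1 n
  have h1 := hH.2.1 n
  have h2 := kapI_mono n (by linarith) ha (hI_mem n (by linarith) (by linarith)).2
  unfold rq at h2
  rw [kapI_hI n (by linarith) (by linarith)] at h2
  linarith

theorem rq_fam {a : ℝ} (a0 : 0 ≤ a) (a1 : a ≤ 1) (L : ℕ) : rq (fam a) L = 1 - a := by
  unfold rq
  rw [fam_nonneg_eq, sub_sub_cancel, hI_kapI L (by linarith) (by linarith)]

/-- If a fixed point of the family is a limit point, then it is the only one. -/
theorem unique_of_fam {a : ℝ} (a0 : 0 ≤ a) (a1 : a ≤ 1) (hfam : Om (fam a)) {H : ℤ → ℝ}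
    (hH : Om H) (ha : ∀ L, a ≤ lq H L) : H = fam a := by
  have hl := fam_le a0 a1 hH.good ha
  have hr : ∀ n : ℕ, H n = fam a n := fun n =>
    le_antisymm (le_fam a0 a1 hH.good n
      (par_rq.transfer hfam hH (fun L => (rq_fam a0 a1 L).ge) n)) (hl n)
  funext k
  rcases le_or_gt 0 k with hk | hk
  · obtain ⟨n, rfl⟩ := Int.eq_ofNat_of_zero_le hk
    exact hr n
  · obtain ⟨n, rfl⟩ : ∃ n : ℕ, k = -(n : ℤ) := ⟨(-k).toNat, by omega⟩
    have := contact_left_nat a0 a1 hH.good hl 0 (hr 0) n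
    simpa using this

theorem kap_pow {b : ℝ} (b0 : 0 ≤ b) (b1 : b ≤ 1) (n : ℕ) : kap^[n] b ≤ b ^ (n + 1) := by
  induction n with
  | zero => simp
  | succ n ih =>
    rw [iterate_succ_apply']
    have h1 := kapI_mem n b0 b1
    have h2 : kap^[n] b ≤ b := by
      refine ih.trans ?_
      rw [pow_succ]
      exact mul_le_of_le_one_left b0 (pow_le_one₀ b0 b1)
    calc kap (kap^[n] b) ≤ (kap^[n] b) ^ 2 := kap_le_sq h1.1 h1.2
      _ = kap^[n] b * kap^[n] b := by ring
      _ ≤ b ^ (n + 1) * b := mul_le_mul ih h2 h1.1 (by positivity)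
      _ = b ^ (n + 1 + 1) := by ring

theorem kap_small {y : ℝ} (y0 : 0 ≤ y) (y1 : y ≤ 1 / 8) (j : ℕ) : kap^[j] y ≤ (1 / 8) ^ (j + 1) := by
  have h1 := kap_pow y0 (by linarith) j
  exact h1.trans (pow_le_pow_left₀ y0 y1 _)

/-- Case 1: contact with the fixed point. -/
theorem case_one {a : ℝ} (a0 : 0 ≤ a) (a1 : a ≤ 1) (ha : ∀ H, Om H → ∀ L, a ≤ lq H L)
    {G : ℤ → ℝ} (hG : Om G) (k : ℤ) (hk : G k = fam a k) : Om (fam a) := by
  have hpast : ∀ m : ℕ, ∃ G', Om G' ∧ G' (k + m) = fam a (k + m) := by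
    intro m
    induction m with
    | zero => exact ⟨G, hG, by simpa using hk⟩
    | succ m ih =>
      obtain ⟨G', hG', hk'⟩ := ih
      obtain ⟨G'', hG'', he⟩ := hG'.pred
      refine ⟨G'', hG'', ?_⟩
      have := contact a0 a1 hG''.good (fam_le a0 a1 hG''.good (ha _ hG'')) (k + m)
        (by rw [he]; exact hk')
      push_cast
      rw [← add_assoc]
      exact this
  choose u hu hku using hpast
  obtain ⟨H, hH, hcl⟩ := Om_of_seq u hu
  have : H = fam a := by
    funext j
    have hc : IsClosed {F : ℤ → ℝ | F j = fam a j} :=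
      isClosed_eq (continuous_apply j) continuous_const
    refine hc.mem_of_mapClusterPt hcl ?_
    filter_upwards [eventually_ge_atTop (j - k).toNat] with m hm
    show u m j = fam a j
    have := contact_left_nat a0 a1 (hu m).good (fam_le a0 a1 (hu m).good (ha _ (hu m)))
      (k + m) (hku m) (k + m - j).toNat
    rw [show k + m - ((k + m - j).toNat : ℤ) = j by omega] at this
    exact this
  rwa [this] at hH

/-- Case 2: a strict gap at a far site persists. -/
theorem case_two {a b : ℝ} (a0 : 0 ≤ a) (ha : ∀ H, Om H → ∀ L, a ≤ lq H L)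
    {G : ℤ → ℝ} (hG : Om G) (K : ℕ) (b1 : b ≤ 1) (hb : kap^[K] b ≤ 1 / 8)
    (hlt : a < lq G K) (hle : lq G K ≤ b) : ∃ c, a < c ∧ ∀ H, Om H → ∀ L, c ≤ lq H L := by
  obtain ⟨t0, ht0⟩ : ∃ t0, t0 = lq G K := ⟨_, rfl⟩
  rw [← ht0] at hlt hle
  have b0 : 0 ≤ b := by linarith
  have a1 : a ≤ 1 := by linarith
  have hw : ∀ j : ℕ, kap^[K + j] (a + (1 / 2 + 1 / 2 * (1 / 2) ^ j) * (t0 - a)) ≤
      Psi^[j] G (-(K + j : ℕ)) := by
    intro j
    induction j with
    | zero =>
      have e : a + (1 / 2 + 1 / 2 * (1 / 2) ^ 0) * (t0 - a) = t0 := by ring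
      rw [e, ht0]
      simp only [add_zero, iterate_zero, id_eq]
      unfold lq
      rw [kapI_hI K (hG.good.1 _) (hG.good.2.1 _)]
    | succ j ih =>
      obtain ⟨w, hwd⟩ : ∃ w : ℝ, w = 1 / 2 + 1 / 2 * (1 / 2) ^ j := ⟨_, rfl⟩
      have p0 : (0 : ℝ) ≤ (1 / 2) ^ j := by positivity
      have p1 : ((1 : ℝ) / 2) ^ j ≤ 1 := pow_le_one₀ (by norm_num) (by norm_num)
      have w0 : 0 ≤ w := by rw [hwd]; positivity
      have w1 : w ≤ 1 := by rw [hwd]; linarith
      rw [← hwd] at ih
      obtain ⟨t, ht⟩ : ∃ t, t = a + w * (t0 - a) := ⟨_, rfl⟩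
      rw [← ht] at ih
      have hat : a ≤ t := by rw [ht]; nlinarith
      have htt : t ≤ t0 := by rw [ht]; nlinarith
      have htb : t ≤ b := htt.trans hle
      have hm := kapI_mem K b0 b1
      have hy : kap^[K + j] t ≤ (1 / 8) ^ (j + 1) := by
        refine (kapI_mono (K + j) (a0.trans hat) htb b1).trans ?_
        rw [add_comm K j, iterate_add_apply]
        exact kap_small hm.1 hb j
      have q0 : ((1 : ℝ) / 8) ^ (j + 1) ≤ 1 / 8 := by
        rw [pow_succ]
        exact mul_le_of_le_one_left (by norm_num) (pow_le_one₀ (by norm_num) (by norm_num))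
      have hF : Om (Psi^[j] G) := hG.iter j
      have hr := refined (a := a) (t := t) (δ := 2 * (1 / 8) ^ (j + 1)) a0 hat (htb.trans b1)
        (K + j) hF.good (fam_le a0 a1 hF.good (ha _ hF)) ih (by linarith) (by linarith)
        (by linarith)
      rw [← iterate_succ_apply' Psi j G] at hr
      rw [← add_assoc]
      refine le_trans ?_ hr
      have q1 : 2 * ((1 : ℝ) / 8) ^ (j + 1) ≤ 1 / 4 * (1 / 2) ^ j := by
        rw [pow_succ]
        have : ((1 : ℝ) / 8) ^ j ≤ (1 / 2) ^ j := pow_le_pow_left₀ (by norm_num) (by norm_num) _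
        linarith
      have q2 : (0 : ℝ) ≤ (1 / 8) ^ (j + 1) := by positivity
      have s1 : 1 / 2 + 1 / 2 * (1 / 2) ^ (j + 1) ≤ w - 2 * (1 / 8) ^ (j + 1) * w := by
        rw [hwd, pow_succ]
        nlinarith
      have s2 : a + (1 / 2 + 1 / 2 * (1 / 2) ^ (j + 1)) * (t0 - a) ≤
          t - 2 * (1 / 8) ^ (j + 1) * (t - a) := by
        have : t - 2 * (1 / 8) ^ (j + 1) * (t - a) =
            a + (w - 2 * (1 / 8) ^ (j + 1) * w) * (t0 - a) := by
          rw [ht]; ring
        rw [this]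
        nlinarith
      refine kapI_mono (K + j + 1) ?_ s2 ?_
      · have : (0 : ℝ) ≤ (1 / 2) ^ (j + 1) := by positivity
        nlinarith
      · nlinarith
  have hlq : ∀ j L : ℕ, L ≤ j → a + (t0 - a) / 2 ≤ lq (Psi^[j] G) L := by
    intro j L hL
    have hF : Om (Psi^[j] G) := hG.iter j
    refine le_trans ?_ (lq_antitone hF.good (show L ≤ K + j by omega))
    have p0 : (0 : ℝ) ≤ (1 / 2) ^ j := by positivity
    have p1 : ((1 : ℝ) / 2) ^ j ≤ 1 := pow_le_one₀ (by norm_num) (by norm_num)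
    have x0 : 0 ≤ a + (1 / 2 + 1 / 2 * (1 / 2) ^ j) * (t0 - a) := by nlinarith
    have x1 : a + (1 / 2 + 1 / 2 * (1 / 2) ^ j) * (t0 - a) ≤ 1 := by nlinarith
    have h1 := hI_mono (K + j) (kapI_mem (K + j) x0 x1).1 (hw j) (hF.good.2.1 _)
    rw [hI_kapI (K + j) x0 x1] at h1
    unfold lq
    nlinarith
  obtain ⟨H, hH, hcl⟩ := Om_of_seq (fun j => Psi^[j] G) (fun j => hG.iter j)
  refine ⟨a + (t0 - a) / 2, by linarith, ?_⟩
  have hHL : ∀ L, a + (t0 - a) / 2 ≤ lq H L := by
    intro L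
    have hc : IsClosed {F : ℤ → ℝ | a + (t0 - a) / 2 ≤ lq F L} :=
      isClosed_le continuous_const (continuous_lq L)
    refine hc.mem_of_mapClusterPt hcl ?_
    filter_upwards [eventually_ge_atTop L] with j hj
    exact hlq j L hj
  intro H' hH' L
  exact par_lq.transfer hH hH' hHL L

/-- **Convergence of the iterates.** -/
theorem tendsto_orb : ∃ a : ℝ, 0 < a ∧ a < 1 ∧ Tendsto orb atTop (𝓝 (fam a)) := by
  obtain ⟨G, hG⟩ := exists_Om
  obtain ⟨a, ha⟩ : ∃ a, a = ⨅ L, lq G L := ⟨_, rfl⟩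
  have hbdd : BddBelow (range (lq G)) := ⟨441 / 4096, by
    rintro x ⟨L, rfl⟩
    exact lq_lower hG L⟩
  have hGa : ∀ L, a ≤ lq G L := fun L => by rw [ha]; exact ciInf_le hbdd L
  have haall : ∀ H, Om H → ∀ L, a ≤ lq H L := fun H hH L => par_lq.transfer hG hH hGa L
  have hpos : 441 / 4096 ≤ a := by
    rw [ha]
    exact le_ciInf fun L => lq_lower hG L
  obtain ⟨b, hb⟩ : ∃ b : ℝ, b = 1 - 135 / 4096 := ⟨_, rfl⟩
  have hle : ∀ L, lq G L ≤ b := fun L => by
    refine (lq_antitone hG.good (Nat.zero_le L)).trans ?_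
    have := rq_lower hG 0
    unfold rq at this
    unfold lq
    simp only [iterate_zero, id_eq, Nat.cast_zero, neg_zero] at this ⊢
    rw [hb]
    linarith
  have a1 : a < 1 := lt_of_le_of_lt ((hGa 0).trans (hle 0)) (by rw [hb]; norm_num)
  have a0 : 0 < a := lt_of_lt_of_le (by norm_num) hpos
  have hfam : Om (fam a) := by
    obtain ⟨K, hK⟩ : ∃ K : ℕ, b ^ (K + 1) ≤ 1 / 8 := by
      have h1 : Tendsto (fun n : ℕ => b ^ n) atTop (𝓝 0) :=
        tendsto_pow_atTop_nhds_zero_of_lt_one (by rw [hb]; norm_num) (by rw [hb]; norm_num)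
      obtain ⟨K, hK⟩ := ((h1.comp (tendsto_add_atTop_nat 1)).eventually
        (gt_mem_nhds (show (0 : ℝ) < 1 / 8 by norm_num))).exists
      exact ⟨K, hK.le⟩
    have hkb : kap^[K] b ≤ 1 / 8 :=
      (kap_pow (by rw [hb]; norm_num) (by rw [hb]; norm_num) K).trans hK
    rcases (hGa K).lt_or_eq with hlt | heq
    · exfalso
      obtain ⟨c, hc, hcall⟩ := case_two a0.le haall hG K (by rw [hb]; norm_num) hkb hlt (hle K)
      have : c ≤ a := by
        rw [ha]
        exact le_ciInf fun L => hcall G hG L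
      linarith
    · refine case_one a0.le a1.le haall hG (-(K : ℤ)) ?_
      rw [fam_neg, heq]
      unfold lq
      rw [kapI_hI K (hG.good.1 _) (hG.good.2.1 _)]
  refine ⟨a, a0, a1, ?_⟩
  refine isCompact_box.tendsto_nhds_of_unique_mapClusterPt
    (Filter.Eventually.of_forall fun n => good_box (orb_good n)) fun H _ hH => ?_
  exact unique_of_fam a0.le a1.le hfam hH (haall H hH)

end Q288.MinMax.Two
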