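import Mathlib
import Pool.Agent.Q288.MinMax.AlmostSure

/-!
# Numerical certificates for small `d`

Fixed-point interval arithmetic on the values of a distribution function at `-2, …, 2`.
-/

namespace Q288.MinMax.Num

open Filter Topology Set Function Q288.MinMax Q288.MinMax.Large

/-- Rounded up division. -/
def cdv (a b : ℕ) : ℕ := (a + b - 1) / b

def aL (d N x y : ℕ) : ℕ := N - cdv (N * (2 * N - x - y) ^ d) ((2 * N) ^ d)
def aH (d N x y : ℕ) : ℕ := N - N * (2 * N - x - y) ^ d / (2 * N) ^ d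
def bL (d N x y : ℕ) : ℕ := N * (x + y) ^ d / (2 * N) ^ d
def bH (d N x y : ℕ) : ℕ := cdv (N * (x + y) ^ d) ((2 * N) ^ d)

/-- Lower bounds `l i` and upper bounds `h i` for `N F (i - 2)`. -/
structure St where
  l0 : ℕ
  l1 : ℕ
  l2 : ℕ
  l3 : ℕ
  l4 : ℕ
  h0 : ℕ
  h1 : ℕ
  h2 : ℕ
  h3 : ℕ
  h4 : ℕ

def stA (d N : ℕ) (s : St) : St where
  l0 := aL d N 0 s.l0
  l1 := aL d N s.l0 s.l1
  l2 := aL d N s.l1 s.l2
  l3 := aL d N s.l2 s.l3
  l4 := aL d N s.l3 s.l4
  h0 := aH d N s.h0 s.h0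
  h1 := aH d N s.h0 s.h1
  h2 := aH d N s.h1 s.h2
  h3 := aH d N s.h2 s.h3
  h4 := aH d N s.h3 s.h4

def stB (d N : ℕ) (s : St) : St where
  l0 := bL d N s.l0 s.l1
  l1 := bL d N s.l1 s.l2
  l2 := bL d N s.l2 s.l3
  l3 := bL d N s.l3 s.l4
  l4 := bL d N s.l4 s.l4
  h0 := bH d N s.h0 s.h1
  h1 := bH d N s.h1 s.h2
  h2 := bH d N s.h2 s.h3
  h3 := bH d N s.h3 s.h4
  h4 := bH d N s.h4 N

/-- `s` is contained in `t`. -/
def St.inn (s t : St) : Bool :=
  Nat.ble t.l0 s.l0 && Nat.ble t.l1 s.l1 && Nat.ble t.l2 s.l2 && Nat.ble t.l3 s.l3 &&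
    Nat.ble t.l4 s.l4 && Nat.ble s.h0 t.h0 && Nat.ble s.h1 t.h1 && Nat.ble s.h2 t.h2 &&
    Nat.ble s.h3 t.h3 && Nat.ble s.h4 t.h4

/-- Soundness. -/
structure Snd (N : ℕ) (s : St) (F : ℤ → ℝ) : Prop where
  mono : Monotone F
  unit : Unit' F
  l0 : (s.l0 : ℝ) ≤ N * F (-2)
  l1 : (s.l1 : ℝ) ≤ N * F (-1)
  l2 : (s.l2 : ℝ) ≤ N * F 0
  l3 : (s.l3 : ℝ) ≤ N * F 1
  l4 : (s.l4 : ℝ) ≤ N * F 2
  h0 : N * F (-2) ≤ s.h0
  h1 : N * F (-1) ≤ s.h1
  h2 : N * F 0 ≤ s.h2
  h3 : N * F 1 ≤ s.h3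
  h4 : N * F 2 ≤ s.h4

theorem Snd.inn {N : ℕ} {s t : St} {F : ℤ → ℝ} (h : Snd N s F) (hst : s.inn t = true) :
    Snd N t F := by
  simp only [St.inn, Bool.and_eq_true, Nat.ble_eq] at hst
  obtain ⟨⟨⟨⟨⟨⟨⟨⟨⟨k0, k1⟩, k2⟩, k3⟩, k4⟩, k5⟩, k6⟩, k7⟩, k8⟩, k9⟩ := hst
  have c : ∀ {a b : ℕ}, a ≤ b → (a : ℝ) ≤ b := fun hab => by exact_mod_cast hab
  exact ⟨h.mono, h.unit, (c k0).trans h.l0, (c k1).trans h.l1, (c k2).trans h.l2,
    (c k3).trans h.l3, (c k4).trans h.l4, h.h0.trans (c k5), h.h1.trans (c k6),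
    h.h2.trans (c k7), h.h3.trans (c k8), h.h4.trans (c k9)⟩

theorem le_cdv {a b : ℕ} (hb : 0 < b) : (a : ℝ) / b ≤ cdv a b := by
  rw [div_le_iff₀ (by exact_mod_cast hb)]
  have : a ≤ cdv a b * b := by
    unfold cdv
    have h1 := Nat.div_add_mod (a + b - 1) b
    have h2 := Nat.mod_lt (a + b - 1) hb
    nlinarith [Nat.sub_add_cancel (show 1 ≤ a + b by omega)]
  exact_mod_cast this

theorem div_le {a b : ℕ} (hb : 0 < b) : ((a / b : ℕ) : ℝ) ≤ (a : ℝ) / b := by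
  rw [le_div_iff₀ (by exact_mod_cast hb)]
  exact_mod_cast Nat.div_mul_le_self a b

section scalar

variable {d N x y : ℕ} {a b : ℝ}

theorem aL_le (hN : 0 < N) (a0 : 0 ≤ a) (b0 : 0 ≤ b) (a1 : a ≤ 1) (b1 : b ≤ 1) (hx : x ≤ N * a)
    (hy : y ≤ N * b) : (aL d N x y : ℝ) ≤ N * (1 - (1 - (a + b) / 2) ^ d) := by
  have hN' : (0 : ℝ) < N := by exact_mod_cast hN
  have hxN : x ≤ N := by
    have : (x : ℝ) ≤ N := hx.trans (mul_le_of_le_one_right hN'.le a1)
    exact_mod_cast this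
  have hyN : y ≤ N := by
    have : (y : ℝ) ≤ N := hy.trans (mul_le_of_le_one_right hN'.le b1)
    exact_mod_cast this
  have hcast : ((2 * N - x - y : ℕ) : ℝ) = 2 * N - x - y := by
    rw [Nat.cast_sub (by omega), Nat.cast_sub (by omega)]
    push_cast
    ring
  have h1 := le_cdv (a := N * (2 * N - x - y) ^ d) (b := (2 * N) ^ d) (by positivity)
  have h2 : (N : ℝ) * (1 - (a + b) / 2) ^ d ≤
      ((N * (2 * N - x - y) ^ d : ℕ) : ℝ) / ((2 * N) ^ d : ℕ) := by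
    push_cast
    rw [hcast, mul_div_assoc, ← div_pow]
    apply mul_le_mul_of_nonneg_left _ hN'.le
    apply pow_le_pow_left₀ (by linarith)
    rw [le_div_iff₀ (by positivity)]
    nlinarith
  have h3 := h2.trans h1
  have h4 : (1 - (a + b) / 2) ^ d ≤ 1 := pow_le_one₀ (by linarith) (by linarith)
  unfold aL
  rcases le_total (cdv (N * (2 * N - x - y) ^ d) ((2 * N) ^ d)) N with h | h
  · rw [Nat.cast_sub h]
    linarith
  · rw [Nat.sub_eq_zero_of_le h]
    push_cast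
    nlinarith

theorem aH_ge (hN : 0 < N) (a1 : a ≤ 1) (b1 : b ≤ 1) (hx : N * a ≤ x) (hy : N * b ≤ y) :
    N * (1 - (1 - (a + b) / 2) ^ d) ≤ (aH d N x y : ℝ) := by
  have hN' : (0 : ℝ) < N := by exact_mod_cast hN
  have h1 := div_le (a := N * (2 * N - x - y) ^ d) (b := (2 * N) ^ d) (by positivity)
  have h2 : ((N * (2 * N - x - y) ^ d : ℕ) : ℝ) / ((2 * N) ^ d : ℕ) ≤
      (N : ℝ) * (1 - (a + b) / 2) ^ d := by
    push_cast
    rw [mul_div_assoc, ← div_pow]
    apply mul_le_mul_of_nonneg_left _ hN'.le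
    apply pow_le_pow_left₀ (by positivity)
    rw [div_le_iff₀ (by positivity)]
    rcases le_total (x + y) (2 * N) with h | h
    · have hcast : ((2 * N - x - y : ℕ) : ℝ) = 2 * N - x - y := by
        rw [Nat.cast_sub (by omega), Nat.cast_sub (by omega)]
        push_cast
        ring
      rw [hcast]
      nlinarith
    · have : 2 * N - x - y = 0 := by omega
      rw [this]
      push_cast
      have : 0 ≤ 1 - (a + b) / 2 := by linarith
      positivity
  have h3 := h1.trans h2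
  unfold aH
  have h4 : (N : ℝ) - ((N * (2 * N - x - y) ^ d / (2 * N) ^ d : ℕ) : ℝ) ≤
      ((N - N * (2 * N - x - y) ^ d / (2 * N) ^ d : ℕ) : ℝ) := by
    rcases le_total (N * (2 * N - x - y) ^ d / (2 * N) ^ d) N with h | h
    · rw [Nat.cast_sub h]
    · rw [Nat.sub_eq_zero_of_le h]
      have : (N : ℝ) ≤ ((N * (2 * N - x - y) ^ d / (2 * N) ^ d : ℕ) : ℝ) := by exact_mod_cast h
      push_cast at this ⊢
      linarith
  linarith

theorem bL_le (hN : 0 < N) (hx : x ≤ N * a) (hy : y ≤ N * b) :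
    (bL d N x y : ℝ) ≤ N * ((a + b) / 2) ^ d := by
  have hN' : (0 : ℝ) < N := by exact_mod_cast hN
  unfold bL
  refine (div_le (a := N * (x + y) ^ d) (b := (2 * N) ^ d) (by positivity)).trans ?_
  push_cast
  rw [mul_div_assoc, ← div_pow]
  apply mul_le_mul_of_nonneg_left _ hN'.le
  apply pow_le_pow_left₀ (by positivity)
  rw [div_le_iff₀ (by positivity)]
  nlinarith

theorem bH_ge (hN : 0 < N) (a0 : 0 ≤ a) (b0 : 0 ≤ b) (hx : N * a ≤ x) (hy : N * b ≤ y) :
    N * ((a + b) / 2) ^ d ≤ (bH d N x y : ℝ) := by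
  have hN' : (0 : ℝ) < N := by exact_mod_cast hN
  unfold bH
  refine le_trans ?_ (le_cdv (a := N * (x + y) ^ d) (b := (2 * N) ^ d) (by positivity))
  push_cast
  rw [mul_div_assoc, ← div_pow]
  apply mul_le_mul_of_nonneg_left _ hN'.le
  apply pow_le_pow_left₀ (by positivity)
  rw [le_div_iff₀ (by positivity)]
  nlinarith

end scalar

theorem Snd.A {d N : ℕ} (hN : 0 < N) {s : St} {F : ℤ → ℝ} (h : Snd N s F) :
    Snd N (stA d N s) (opA d F) := by
  have hN' : (0 : ℝ) < N := by exact_mod_cast hN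
  have u := h.unit
  have f3 := u (-3)
  have f2 := u (-2)
  have f1 := u (-1)
  have f0 := u 0
  have g1 := u 1
  have g2 := u 2
  have m3 : F (-3) ≤ F (-2) := h.mono (by norm_num)
  have e0 : opA d F (-2) = 1 - (1 - (F (-3) + F (-2)) / 2) ^ d := by unfold opA; norm_num
  have e1 : opA d F (-1) = 1 - (1 - (F (-2) + F (-1)) / 2) ^ d := by unfold opA; norm_num
  have e2 : opA d F 0 = 1 - (1 - (F (-1) + F 0) / 2) ^ d := by unfold opA; norm_num
  have e3 : opA d F 1 = 1 - (1 - (F 0 + F 1) / 2) ^ d := by unfold opA; norm_num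
  have e4 : opA d F 2 = 1 - (1 - (F 1 + F 2) / 2) ^ d := by unfold opA; norm_num
  refine ⟨fun i j hij => ?_, u.opA, ?_, ?_, ?_, ?_, ?_, ?_, ?_, ?_, ?_, ?_⟩
  · have h1 := h.mono hij
    have h2 := h.mono (sub_le_sub_right hij 1)
    obtain ⟨h3, h3'⟩ := u j
    obtain ⟨h4, h4'⟩ := u (j - 1)
    have := pow_le_pow_left₀ (show 0 ≤ 1 - (F (j - 1) + F j) / 2 by linarith)
      (show 1 - (F (j - 1) + F j) / 2 ≤ 1 - (F (i - 1) + F i) / 2 by linarith) d
    unfold Large.opA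
    linarith
  · rw [e0]
    exact aL_le hN f3.1 f2.1 f3.2 f2.2 (by push_cast; exact mul_nonneg hN'.le f3.1) h.l0
  · rw [e1]; exact aL_le hN f2.1 f1.1 f2.2 f1.2 h.l0 h.l1
  · rw [e2]; exact aL_le hN f1.1 f0.1 f1.2 f0.2 h.l1 h.l2
  · rw [e3]; exact aL_le hN f0.1 g1.1 f0.2 g1.2 h.l2 h.l3
  · rw [e4]; exact aL_le hN g1.1 g2.1 g1.2 g2.2 h.l3 h.l4
  · rw [e0]
    exact aH_ge hN f3.2 f2.2 ((mul_le_mul_of_nonneg_left m3 hN'.le).trans h.h0) h.h0
  · rw [e1]; exact aH_ge hN f2.2 f1.2 h.h0 h.h1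
  · rw [e2]; exact aH_ge hN f1.2 f0.2 h.h1 h.h2
  · rw [e3]; exact aH_ge hN f0.2 g1.2 h.h2 h.h3
  · rw [e4]; exact aH_ge hN g1.2 g2.2 h.h3 h.h4

theorem Snd.B {d N : ℕ} (hN : 0 < N) {s : St} {F : ℤ → ℝ} (h : Snd N s F) :
    Snd N (stB d N s) (opB d F) := by
  have hN' : (0 : ℝ) < N := by exact_mod_cast hN
  have u := h.unit
  have f2 := u (-2)
  have f1 := u (-1)
  have f0 := u 0
  have g1 := u 1
  have g2 := u 2
  have g3 := u 3
  have m3 : F 2 ≤ F 3 := h.mono (by norm_num)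
  have e0 : opB d F (-2) = ((F (-2) + F (-1)) / 2) ^ d := by unfold opB; norm_num
  have e1 : opB d F (-1) = ((F (-1) + F 0) / 2) ^ d := by unfold opB; norm_num
  have e2 : opB d F 0 = ((F 0 + F 1) / 2) ^ d := by unfold opB; norm_num
  have e3 : opB d F 1 = ((F 1 + F 2) / 2) ^ d := by unfold opB; norm_num
  have e4 : opB d F 2 = ((F 2 + F 3) / 2) ^ d := by unfold opB; norm_num
  refine ⟨fun i j hij => ?_, u.opB, ?_, ?_, ?_, ?_, ?_, ?_, ?_, ?_, ?_, ?_⟩
  · have h1 := h.mono hij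
    have h2 := h.mono (add_le_add_left hij 1)
    obtain ⟨h3, h3'⟩ := u i
    obtain ⟨h4, h4'⟩ := u (i + 1)
    unfold Large.opB
    exact pow_le_pow_left₀ (by linarith) (by linarith) d
  · rw [e0]; exact bL_le hN h.l0 h.l1
  · rw [e1]; exact bL_le hN h.l1 h.l2
  · rw [e2]; exact bL_le hN h.l2 h.l3
  · rw [e3]; exact bL_le hN h.l3 h.l4
  · rw [e4]; exact bL_le hN h.l4 (h.l4.trans (mul_le_mul_of_nonneg_left m3 hN'.le))
  · rw [e0]; exact bH_ge hN f2.1 f1.1 h.h0 h.h1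
  · rw [e1]; exact bH_ge hN f1.1 f0.1 h.h1 h.h2
  · rw [e2]; exact bH_ge hN f0.1 g1.1 h.h2 h.h3
  · rw [e3]; exact bH_ge hN g1.1 g2.1 h.h3 h.h4
  · rw [e4]; exact bH_ge hN g2.1 g3.1 h.h4 (mul_le_of_le_one_right hN'.le g3.2)

/-- A chain of states, each containing the image of the previous one. -/
def chain (d N : ℕ) : St → List St → Bool
  | _, [] => true
  | s, t :: r => (stB d N (stA d N s)).inn t && chain d N t r

theorem Snd.chain {d N : ℕ} (hN : 0 < N) {s : St} {F : ℤ → ℝ} (h : Snd N s F) (L : List St)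
    (hL : chain d N s L = true) : Snd N (L.getLastD s) ((Psi d)^[L.length] F) := by
  induction L generalizing s F with
  | nil => exact h
  | cons t r ih =>
    simp only [Num.chain, Bool.and_eq_true] at hL
    have h1 : Snd N t (Psi d F) := ((h.A hN).B hN).inn hL.1
    have h2 := ih h1 hL.2
    rw [List.length_cons, iterate_succ_apply, List.getLastD_cons]
    exact h2

theorem Snd.inv {d N : ℕ} (hN : 0 < N) {s : St} {F : ℤ → ℝ} (h : Snd N s F)
    (hs : (stB d N (stA d N s)).inn s = true) (m : ℕ) : Snd N s ((Psi d)^[m] F) := by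
  induction m with
  | zero => exact h
  | succ m ih =>
    rw [iterate_succ_apply']
    exact ((ih.A hN).B hN).inn hs

/-! ### The linear recursion with weights -/

/-- Upper bound for `2 N (1 - (F (k-1) + F k) / 2)`. -/
def pN (N : ℕ) (s : St) (k : ℤ) : ℕ :=
  if k ≤ -2 then 2 * N
  else if k = -1 then 2 * N - s.l0 - s.l1
  else if k = 0 then 2 * N - s.l1 - s.l2
  else if k = 1 then 2 * N - s.l2 - s.l3
  else if k = 2 then 2 * N - s.l3 - s.l4
  else 2 * N - s.l4 - s.l4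

/-- Upper bound for `N (G k + G (k + 1))`. -/
def qN (N : ℕ) (s : St) (k : ℤ) : ℕ :=
  if k ≤ -3 then s.h0 + s.h0
  else if k = -2 then s.h0 + s.h1
  else if k = -1 then s.h1 + s.h2
  else if k = 0 then s.h2 + s.h3
  else if k = 1 then s.h3 + s.h4
  else 2 * N

/-- The weights. -/
def wt (w0 w1 w2 w3 w4 : ℕ) (k : ℤ) : ℕ :=
  if k ≤ -2 then w0
  else if k = -1 then w1
  else if k = 0 then w2
  else if k = 1 then w3
  else w4

/-- The weight condition at `k`. -/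
def cond (d N : ℕ) (s : St) (w : ℤ → ℕ) (lam : ℕ) (k : ℤ) : Bool :=
  Nat.ble (1000 * (d ^ 2 * (qN N (stA d N s) k) ^ (d - 1) *
      ((pN N s k) ^ (d - 1) * (w (k - 1) + w k) + (pN N s (k + 1)) ^ (d - 1) * (w k + w (k + 1)))))
    (lam * w k * 4 * ((2 * N) ^ (d - 1) * (2 * N) ^ (d - 1)))

theorem Snd.pN {N : ℕ} {s : St} {F : ℤ → ℝ} (h : Snd N s F) (hN : 0 < N) (k : ℤ) :
    1 - (F (k - 1) + F k) / 2 ≤ (pN N s k : ℝ) / (2 * N) := by
  have hN' : (0 : ℝ) < N := by exact_mod_cast hN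
  have u := h.unit
  have cs : ∀ x y : ℕ, (2 * N - x - y : ℝ) ≤ ((2 * N - x - y : ℕ) : ℝ) := fun x y => by
    rcases le_total (x + y) (2 * N) with hh | hh
    · rw [Nat.cast_sub (by omega), Nat.cast_sub (by omega)]
      push_cast
      linarith
    · rw [show 2 * N - x - y = 0 by omega]
      have : (2 * N : ℝ) ≤ x + y := by exact_mod_cast hh
      push_cast
      linarith
  rw [le_div_iff₀ (by positivity)]
  unfold Num.pN
  split_ifs with c1 c2 c3 c4 c5
  · push_cast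
    nlinarith [(u (k - 1)).1, (u k).1]
  · subst c2
    refine le_trans ?_ (cs _ _)
    norm_num
    linarith [h.l0, h.l1]
  · subst c3
    refine le_trans ?_ (cs _ _)
    norm_num
    linarith [h.l1, h.l2]
  · subst c4
    refine le_trans ?_ (cs _ _)
    norm_num
    linarith [h.l2, h.l3]
  · subst c5
    refine le_trans ?_ (cs _ _)
    norm_num
    linarith [h.l3, h.l4]
  · refine le_trans ?_ (cs _ _)
    have m1 : F 2 ≤ F (k - 1) := h.mono (by omega)
    have m2 : F 2 ≤ F k := h.mono (by omega)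
    have := h.l4
    nlinarith

theorem Snd.qN {N : ℕ} {s : St} {F : ℤ → ℝ} (h : Snd N s F) (hN : 0 < N) (k : ℤ) :
    (F k + F (k + 1)) / 2 ≤ (qN N s k : ℝ) / (2 * N) := by
  have hN' : (0 : ℝ) < N := by exact_mod_cast hN
  have u := h.unit
  rw [le_div_iff₀ (by positivity)]
  unfold Num.qN
  split_ifs with c1 c2 c3 c4 c5
  · push_cast
    have m1 : F k ≤ F (-2) := h.mono (by omega)
    have m2 : F (k + 1) ≤ F (-2) := h.mono (by omega)
    have := h.h0
    nlinarith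
  · subst c2
    norm_num
    linarith [h.h0, h.h1]
  · subst c3
    norm_num
    linarith [h.h1, h.h2]
  · subst c4
    norm_num
    linarith [h.h2, h.h3]
  · subst c5
    norm_num
    linarith [h.h3, h.h4]
  · push_cast
    nlinarith [(u (k + 1)).2, (u k).2]

theorem cond_all {d N : ℕ} {s : St} {w0 w1 w2 w3 w4 lam : ℕ}
    (h : ∀ k ∈ [(-4 : ℤ), -3, -2, -1, 0, 1, 2, 3], cond d N s (wt w0 w1 w2 w3 w4) lam k = true)
    (k : ℤ) : cond d N s (wt w0 w1 w2 w3 w4) lam k = true := by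
  rcases lt_or_ge k (-4) with hk | hk
  · have e : cond d N s (wt w0 w1 w2 w3 w4) lam k = cond d N s (wt w0 w1 w2 w3 w4) lam (-4) := by
      unfold cond Num.qN Num.pN wt
      simp only [show k ≤ -3 by omega, show k ≤ -2 by omega, show k - 1 ≤ -2 by omega,
        show k + 1 ≤ -2 by omega, if_true]
      norm_num
    rw [e]
    exact h _ (by simp)
  · rcases lt_or_ge 3 k with hk' | hk'
    · have e : cond d N s (wt w0 w1 w2 w3 w4) lam k =
          cond d N s (wt w0 w1 w2 w3 w4) lam 3 := by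
        unfold cond Num.qN Num.pN wt
        simp only [show ¬ k ≤ -3 by omega, show ¬ k ≤ -2 by omega, show ¬ k - 1 ≤ -2 by omega,
          show ¬ k + 1 ≤ -2 by omega, show ¬ k = -2 by omega, show ¬ k = -1 by omega,
          show ¬ k = 0 by omega, show ¬ k = 1 by omega, show ¬ k = 2 by omega,
          show ¬ k - 1 = -1 by omega, show ¬ k - 1 = 0 by omega, show ¬ k - 1 = 1 by omega,
          show ¬ k + 1 = -1 by omega, show ¬ k + 1 = 0 by omega, show ¬ k + 1 = 1 by omega,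
          show ¬ k + 1 = 2 by omega, if_false]
        norm_num
      rw [e]
      exact h _ (by simp)
    · have : k = -4 ∨ k = -3 ∨ k = -2 ∨ k = -1 ∨ k = 0 ∨ k = 1 ∨ k = 2 ∨ k = 3 := by omega
      exact h k (by simpa using this)

/-- Geometric decay of the disagreement probabilities from a certificate. -/
theorem decay {d N : ℕ} [NeZero d] (hN : 0 < N) {s : St} {w0 w1 w2 w3 w4 lam : ℕ} {n0 : ℕ}
    (h : ∀ n ≥ n0, Snd N s (orb d 1 n)) (hw : ∀ k, 1 ≤ wt w0 w1 w2 w3 w4 k)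
    (hc : ∀ k, cond d N s (wt w0 w1 w2 w3 w4) lam k = true) (n : ℕ) (hn : n0 ≤ n) (k : ℤ) :
    AS.E d n k ≤ ((lam : ℝ) / 1000) ^ (n - n0) * wt w0 w1 w2 w3 w4 k := by
  have hN' : (0 : ℝ) < N := by exact_mod_cast hN
  have hd0 : (0 : ℝ) ≤ d := Nat.cast_nonneg d
  induction n, hn using Nat.le_induction generalizing k with
  | base =>
    rw [Nat.sub_self, pow_zero, one_mul]
    refine (AS.E_le_one n0 k).trans ?_
    exact_mod_cast hw k
  | succ n hn ih =>
    obtain ⟨c, hcdef⟩ : ∃ c, c = ((lam : ℝ) / 1000) ^ (n - n0) := ⟨_, rfl⟩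
    rw [← hcdef] at ih
    have c0 : 0 ≤ c := by rw [hcdef]; positivity
    rw [show n + 1 - n0 = (n - n0) + 1 by omega, pow_succ, ← hcdef]
    obtain ⟨W, hW⟩ : ∃ W : ℤ → ℝ, W = fun j => (wt w0 w1 w2 w3 w4 j : ℝ) := ⟨_, rfl⟩
    have hW' : ∀ j, (wt w0 w1 w2 w3 w4 j : ℝ) = W j := fun j => by rw [hW]
    simp only [hW'] at ih ⊢
    obtain ⟨p, hp⟩ : ∃ p : ℤ → ℝ, p = fun j => (Num.pN N s j : ℝ) / (2 * N) := ⟨_, rfl⟩
    have hO : ∀ j, AS.O d n j ≤ d * p j ^ (d - 1) * (c * (W (j - 1) + W j) / 2) := fun j => by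
      have h1 := (h n hn).pN hN j
      have h2 := (h (n + 1) (by omega)).pN hN j
      have h3 := AS.O_le (d := d) n j h1 h2
      refine h3.trans ?_
      rw [hp]
      apply mul_le_mul_of_nonneg_left _ (by positivity)
      have := ih (j - 1)
      have := ih j
      linarith
    obtain ⟨q, hq⟩ : ∃ q : ℝ, q = (Num.qN N (stA d N s) k : ℝ) / (2 * N) := ⟨_, rfl⟩
    have hE : AS.E d (n + 1) k ≤ d * q ^ (d - 1) * ((AS.O d n k + AS.O d n (k + 1)) / 2) := by
      have h1 := ((h n hn).A (d := d) hN).qN hN k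
      have h2 := ((h (n + 1) (by omega)).A (d := d) hN).qN hN k
      rw [hq]
      exact AS.E_le (d := d) n k h1 h2
    have hq0 : 0 ≤ q := by rw [hq]; positivity
    refine hE.trans ?_
    have h1 := hO k
    have h2 := hO (k + 1)
    rw [add_sub_cancel_right] at h2
    have h3 : d * q ^ (d - 1) * ((AS.O d n k + AS.O d n (k + 1)) / 2) ≤
        d * q ^ (d - 1) * ((d * p k ^ (d - 1) * (c * (W (k - 1) + W k) / 2) +
          d * p (k + 1) ^ (d - 1) * (c * (W k + W (k + 1)) / 2)) / 2) := by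
      apply mul_le_mul_of_nonneg_left _ (by positivity)
      linarith
    refine h3.trans ?_
    have hck := hc k
    unfold cond at hck
    rw [Nat.ble_eq] at hck
    have hck' : (1000 : ℝ) * (d ^ 2 * (Num.qN N (stA d N s) k : ℝ) ^ (d - 1) *
        ((Num.pN N s k : ℝ) ^ (d - 1) * (W (k - 1) + W k) +
          (Num.pN N s (k + 1) : ℝ) ^ (d - 1) * (W k + W (k + 1)))) ≤
        lam * W k * 4 * ((2 * N) ^ (d - 1) * (2 * N) ^ (d - 1)) := by
      simp only [← hW']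
      exact_mod_cast hck
    have hpos : (0 : ℝ) < (2 * N) ^ (d - 1) := by positivity
    have e1 : (d : ℝ) * q ^ (d - 1) * ((d * p k ^ (d - 1) * (c * (W (k - 1) + W k) / 2) +
          d * p (k + 1) ^ (d - 1) * (c * (W k + W (k + 1)) / 2)) / 2) =
        c * (1 / 4) * (1 / 1000) * (1 / ((2 * N) ^ (d - 1) * (2 * N) ^ (d - 1))) *
        ((1000 : ℝ) * (d ^ 2 * (Num.qN N (stA d N s) k : ℝ) ^ (d - 1) *
        ((Num.pN N s k : ℝ) ^ (d - 1) * (W (k - 1) + W k) +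
          (Num.pN N s (k + 1) : ℝ) ^ (d - 1) * (W k + W (k + 1))))) := by
      rw [hq, hp]
      simp only [div_pow]
      field_simp
      ring
    rw [e1]
    refine (mul_le_mul_of_nonneg_left hck' (by positivity)).trans (le_of_eq ?_)
    field_simp

end Q288.MinMax.Num
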